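import Pool.Agent.SAO.FiveDefs

/-!
# Chains of bridgeless subgraphs
-/

set_option autoImplicit false

namespace Pool.Agent.SAO

open Classical

variable {V : Type} [Fintype V]

theorem dg_apply (H : SimpleGraph V) (y : V → ℚ) :
    dg H y = ∑ u, ∑ v, if H.Adj u v then y u else 0 := by
  unfold dg
  simp only [LinearMap.sum_apply]
  apply Finset.sum_congr rfl
  intro u _
  apply Finset.sum_congr rfl
  intro v _
  split_ifs
  · rfl
  · rfl

/-- the sum of `y u + y v` over a set of arcs -/
noncomputable def gm (Q : Finset (V × V)) (y : V → ℚ) : ℚ := ∑ p ∈ Q, (y p.1 + y p.2)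

omit [Fintype V] in
theorem gm_lin (Q : Finset (V × V)) (a b : ℚ) (y z : V → ℚ) :
    gm Q (a • y - b • z) = a * gm Q y - b * gm Q z := by
  unfold gm
  rw [Finset.mul_sum, Finset.mul_sum, ← Finset.sum_sub_distrib]
  apply Finset.sum_congr rfl
  intro p _
  simp only [Pi.sub_apply, Pi.smul_apply, smul_eq_mul]
  ring

/-- adding the edges of a set of arcs -/
def ad (H : SimpleGraph V) (Q : Finset (V × V)) (hQ : ∀ p ∈ Q, p.1 ≠ p.2) : SimpleGraph V where
  Adj u v := H.Adj u v ∨ (u, v) ∈ Q ∨ (v, u) ∈ Q
  symm := ⟨fun u v h => by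
    rcases h with h | h | h
    · exact Or.inl h.symm
    · exact Or.inr (Or.inr h)
    · exact Or.inr (Or.inl h)⟩
  loopless := ⟨fun u h => by
    rcases h with h | h | h
    · exact H.loopless.irrefl u h
    · exact hQ _ h rfl
    · exact hQ _ h rfl⟩

/-- The new arcs: balanced modulo `H'`, outside `H'`, and without opposite arcs. -/
structure Bal (H' : SimpleGraph V) (Q : Finset (V × V)) : Prop where
  ne : Q.Nonempty
  out : ∀ u v, (u, v) ∈ Q → u ≠ v ∧ ¬ H'.Adj u v ∧ (v, u) ∉ Q
  bal : ∀ P : V → ℚ, (∀ u v, H'.Adj u v → P u = P v) → ∑ p ∈ Q, (P p.2 - P p.1) = 0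

omit [Fintype V] in
theorem Bal.hne {H' : SimpleGraph V} {Q : Finset (V × V)} (h : Bal H' Q) : ∀ p ∈ Q, p.1 ≠ p.2 :=
  fun p hp => (h.out p.1 p.2 hp).1

theorem Bal.dg_ad {H' : SimpleGraph V} {Q : Finset (V × V)} (h : Bal H' Q) (y : V → ℚ) :
    dg (ad H' Q h.hne) y = dg H' y + gm Q y := by
  rw [dg_apply, dg_apply]
  have h1 : ∀ u v, (if (ad H' Q h.hne).Adj u v then y u else 0) =
      (if H'.Adj u v then y u else 0) + ((if (u, v) ∈ Q then y u else 0) +
        (if (v, u) ∈ Q then y u else 0)) := by
    intro u v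
    have hadj : (ad H' Q h.hne).Adj u v ↔ (H'.Adj u v ∨ (u, v) ∈ Q ∨ (v, u) ∈ Q) := Iff.rfl
    by_cases k1 : (u, v) ∈ Q
    · have k2 := (h.out u v k1).2.1
      have k3 := (h.out u v k1).2.2
      rw [if_pos (hadj.2 (Or.inr (Or.inl k1))), if_neg k2, if_pos k1, if_neg k3]; ring
    · by_cases k2 : (v, u) ∈ Q
      · have k3 : ¬ H'.Adj u v := fun hh => (h.out v u k2).2.1 hh.symm
        rw [if_pos (hadj.2 (Or.inr (Or.inr k2))), if_neg k3, if_neg k1, if_pos k2]; ring
      · by_cases k3 : H'.Adj u v
        · rw [if_pos (hadj.2 (Or.inl k3)), if_pos k3, if_neg k1, if_neg k2]; ring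
        · rw [if_neg (fun hh => by rcases hadj.1 hh with hh | hh | hh <;> contradiction),
            if_neg k3, if_neg k1, if_neg k2]; ring
  simp_rw [h1, Finset.sum_add_distrib]
  congr 1
  unfold gm
  rw [Finset.sum_add_distrib]
  have h2 : ∀ f : V × V → ℚ, ∑ u, ∑ v, (if (u, v) ∈ Q then f (u, v) else 0) = ∑ p ∈ Q, f p := by
    intro f
    rw [← Fintype.sum_prod_type' (fun u v => if (u, v) ∈ Q then f (u, v) else 0)]
    rw [Finset.sum_ite_mem, Finset.univ_inter]
  congr 1
  · exact h2 fun p => y p.1
  · rw [Finset.sum_comm]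
    exact h2 fun p => y p.2

omit [Fintype V] in
theorem trail_arcs {H' H : SimpleGraph V} {u v : V} (w : H.Walk u v) (hw : w.edges.Nodup) :
    ∃ Q : Finset (V × V), (∀ x y, (x, y) ∈ Q → s(x, y) ∈ w.edges ∧ x ≠ y ∧ ¬ H'.Adj x y ∧
        (y, x) ∉ Q) ∧
      (∀ P : V → ℚ, (∀ x y, H'.Adj x y → P x = P y) → ∑ p ∈ Q, (P p.2 - P p.1) = P v - P u) ∧
      ∀ x y, s(x, y) ∈ w.edges → ¬ H'.Adj x y → (x, y) ∈ Q ∨ (y, x) ∈ Q := by
  induction w with
  | nil =>
    refine ⟨∅, by simp, fun P _ => by simp, fun x y h => ?_⟩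
    simp at h
  | @cons a b c hab p ih =>
    rw [SimpleGraph.Walk.edges_cons, List.nodup_cons] at hw
    obtain ⟨Q, h1, h2, h3⟩ := ih hw.2
    by_cases hH : H'.Adj a b
    · refine ⟨Q, fun x y hxy => ?_, fun P hP => ?_, fun x y hxy hn => ?_⟩
      · obtain ⟨k1, k2, k3, k4⟩ := h1 x y hxy
        rw [SimpleGraph.Walk.edges_cons]
        exact ⟨List.mem_cons_of_mem _ k1, k2, k3, k4⟩
      · rw [h2 P hP, hP a b hH]
      · rw [SimpleGraph.Walk.edges_cons, List.mem_cons] at hxy
        rcases hxy with hxy | hxy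
        · exfalso
          apply hn
          rw [Sym2.eq_iff] at hxy
          rcases hxy with ⟨rfl, rfl⟩ | ⟨rfl, rfl⟩
          · exact hH
          · exact hH.symm
        · exact h3 x y hxy hn
    · have hnot : (a, b) ∉ Q := fun hh => hw.1 (h1 a b hh).1
      have hnot' : (b, a) ∉ Q := fun hh => hw.1 (by rw [Sym2.eq_swap]; exact (h1 b a hh).1)
      refine ⟨insert (a, b) Q, fun x y hxy => ?_, fun P hP => ?_, fun x y hxy hn => ?_⟩
      · rw [Finset.mem_insert] at hxy
        rcases hxy with hxy | hxy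
        · rw [Prod.mk.injEq] at hxy
          obtain ⟨rfl, rfl⟩ := hxy
          rw [SimpleGraph.Walk.edges_cons]
          refine ⟨List.mem_cons_self, hab.ne, hH, ?_⟩
          rw [Finset.mem_insert]
          rintro (hh | hh)
          · rw [Prod.mk.injEq] at hh
            exact hab.ne hh.2
          · exact hnot' hh
        · obtain ⟨k1, k2, k3, k4⟩ := h1 x y hxy
          rw [SimpleGraph.Walk.edges_cons]
          refine ⟨List.mem_cons_of_mem _ k1, k2, k3, ?_⟩
          rw [Finset.mem_insert]
          rintro (hh | hh)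
          · rw [Prod.mk.injEq] at hh
            obtain ⟨rfl, rfl⟩ := hh
            exact hnot' hxy
          · exact k4 hh
      · rw [Finset.sum_insert hnot, h2 P hP]
        ring
      · rw [SimpleGraph.Walk.edges_cons, List.mem_cons] at hxy
        rcases hxy with hxy | hxy
        · rw [Sym2.eq_iff] at hxy
          rcases hxy with ⟨rfl, rfl⟩ | ⟨rfl, rfl⟩
          · exact Or.inl (Finset.mem_insert_self _ _)
          · exact Or.inr (Finset.mem_insert_self _ _)
        · rcases h3 x y hxy hn with h4 | h4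
          · exact Or.inl (Finset.mem_insert_of_mem h4)
          · exact Or.inr (Finset.mem_insert_of_mem h4)

omit [Fintype V] in
/-- In a bridgeless graph there is a balanced set of new arcs. -/
theorem exists_Bal {H' H : SimpleGraph V} (hle : H' ≤ H) (hne : H' ≠ H) (hb : Bridgeless H) :
    ∃ Q, Bal H' Q ∧ ∀ u v, (u, v) ∈ Q → H.Adj u v := by
  obtain ⟨a, b, hab, hab'⟩ : ∃ a b, H.Adj a b ∧ ¬ H'.Adj a b := by
    by_contra hcon
    push Not at hcon
    exact hne (le_antisymm hle fun a b h => hcon a b h)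
  -- a path from `b` to `a` avoiding the edge
  have hr : (H.deleteEdges {s(a, b)}).Reachable b a := by
    by_contra hcon
    obtain ⟨c, hc, d, hd, hcd, hne'⟩ := hb {v | (H.deleteEdges {s(a, b)}).Reachable b v} b
      (SimpleGraph.Reachable.refl b) a hcon hab.symm
    apply hd
    refine SimpleGraph.Reachable.trans hc ?_
    apply SimpleGraph.Adj.reachable
    rw [SimpleGraph.deleteEdges_adj]
    refine ⟨hcd, ?_⟩
    rw [Set.mem_singleton_iff, Sym2.eq_iff]
    rintro (⟨rfl, rfl⟩ | ⟨rfl, rfl⟩)
    · exact hcon hc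
    · exact hne' rfl
  obtain ⟨p, hp⟩ := hr.exists_isPath
  let p' : H.Walk b a := p.mapLe (SimpleGraph.deleteEdges_le _)
  have hp' : p'.IsPath := hp.mapLe _
  have hpe : s(a, b) ∉ p'.edges := by
    intro he
    have he' : s(a, b) ∈ p.edges := by simpa [p'] using he
    have := p.edges_subset_edgeSet he'
    rw [SimpleGraph.edgeSet_deleteEdges] at this
    exact this.2 rfl
  have hw : (SimpleGraph.Walk.cons hab p').edges.Nodup := by
    rw [SimpleGraph.Walk.edges_cons, List.nodup_cons]
    exact ⟨hpe, hp'.isTrail.edges_nodup⟩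
  obtain ⟨Q, h1, h2, h3⟩ := trail_arcs (H' := H') (SimpleGraph.Walk.cons hab p') hw
  refine ⟨Q, ⟨?_, fun u v huv => (h1 u v huv).2, fun P hP => by rw [h2 P hP, sub_self]⟩,
    fun u v huv => SimpleGraph.Walk.adj_of_mem_edges _ (h1 u v huv).1⟩
  rcases h3 a b (by rw [SimpleGraph.Walk.edges_cons]; exact List.mem_cons_self) hab' with h4 | h4
  · exact ⟨_, h4⟩
  · exact ⟨_, h4⟩

/-- one step -/
theorem Good.ear {H' : SimpleGraph V} {Q : Finset (V × V)} (hB : Bal H' Q)
    (N : Submodule ℚ (V → ℚ)) (D : V → V → Prop) (hD1 : IsOrientation H' D) (hD2 : CutCyclic D)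
    (hD3 : ∀ y ∈ N, gm Q y = 0 → ∀ p : V → ℚ, (∀ u v, D u v → p v - p u = y u + y v) → y = 0) :
    Good (ad H' Q hB.hne) N := by
  have hnoD : ∀ u v, (u, v) ∈ Q → ¬ D u v ∧ ¬ D v u := fun u v h =>
    ⟨fun hh => (hB.out u v h).2.1 (hD1.adj u v hh),
      fun hh => (hB.out u v h).2.1 (hD1.adj v u hh).symm⟩
  -- a cut which is crossed by an edge of `H'`
  have hcross : ∀ X : Set V, (∃ u ∈ X, ∃ v ∉ X, H'.Adj u v) → ∃ u ∉ X, ∃ v ∈ X, D u v := by
    rintro X ⟨u, hu, v, hv, huv⟩
    by_cases h : D u v
    · exact hD2 X ⟨u, hu, v, hv, h⟩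
    · have h2 := (hD1.one v u huv.symm).2 h
      exact ⟨v, hv, u, hu, h2⟩
  have hcst : ∀ X : Set V, (¬ ∃ u ∈ X, ∃ v ∉ X, H'.Adj u v) → ∀ u v, H'.Adj u v →
      (if u ∈ X then (1 : ℚ) else 0) = if v ∈ X then 1 else 0 := by
    intro X hX u v huv
    by_cases hu : u ∈ X
    · by_cases hv : v ∈ X
      · rw [if_pos hu, if_pos hv]
      · exact absurd ⟨u, hu, v, hv, huv⟩ hX
    · by_cases hv : v ∈ X
      · exact absurd ⟨v, hv, u, hu, huv.symm⟩ hX
      · rw [if_neg hu, if_neg hv]
  by_contra hcon
  -- the two orientations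
  have hplus : ¬ KerTriv (fun u v => D u v ∨ (u, v) ∈ Q) N := by
    intro hK
    apply hcon
    refine ⟨_, ⟨?_, ?_⟩, ?_, hK⟩
    · rintro u v (h | h)
      · exact Or.inl (hD1.adj u v h)
      · exact Or.inr (Or.inl h)
    · rintro u v (h | h | h)
      · have h1 : (u, v) ∉ Q := fun hh => (hB.out u v hh).2.1 h
        have h2 : (v, u) ∉ Q := fun hh => (hB.out v u hh).2.1 h.symm
        have h3 := hD1.one u v h
        constructor
        · rintro (k | k)
          · rintro (k' | k')
            · exact (h3.1 k) k'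
            · exact h2 k'
          · exact absurd k h1
        · intro k
          left
          apply h3.2
          intro k'
          exact k (Or.inl k')
      · have h1 := hB.out u v h
        have h2 := hnoD u v h
        constructor
        · rintro - (k | k)
          · exact h2.2 k
          · exact h1.2.2 k
        · intro _
          exact Or.inr h
      · have h1 := hB.out v u h
        have h2 := hnoD v u h
        constructor
        · rintro (k | k)
          · exact absurd k h2.2
          · exact absurd k h1.2.2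
        · intro k
          exact absurd (Or.inr h) k
    · rintro X ⟨u, hu, v, hv, huv⟩
      by_cases hX : ∃ u ∈ X, ∃ v ∉ X, H'.Adj u v
      · obtain ⟨a, ha, b, hb, hab⟩ := hcross X hX
        exact ⟨a, ha, b, hb, Or.inl hab⟩
      · rcases huv with huv | huv
        · exact absurd ⟨u, hu, v, hv, hD1.adj u v huv⟩ hX
        · have h1 := hB.bal (fun v => if v ∈ X then 1 else 0) (hcst X hX)
          obtain ⟨p, hp1, hp2⟩ := Finset.exists_pos_of_sum_zero_of_exists_nonzero _ h1
            ⟨(u, v), huv, by simp [hu, hv]⟩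
          refine ⟨p.1, ?_, p.2, ?_, Or.inr hp1⟩
          · intro hh
            rw [if_pos hh] at hp2
            split_ifs at hp2 <;> norm_num at hp2
          · by_contra hh
            rw [if_neg hh] at hp2
            split_ifs at hp2 <;> norm_num at hp2
  have hminus : ¬ KerTriv (fun u v => D u v ∨ (v, u) ∈ Q) N := by
    intro hK
    apply hcon
    refine ⟨_, ⟨?_, ?_⟩, ?_, hK⟩
    · rintro u v (h | h)
      · exact Or.inl (hD1.adj u v h)
      · exact Or.inr (Or.inr h)
    · rintro u v (h | h | h)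
      · have h1 : (u, v) ∉ Q := fun hh => (hB.out u v hh).2.1 h
        have h2 : (v, u) ∉ Q := fun hh => (hB.out v u hh).2.1 h.symm
        have h3 := hD1.one u v h
        constructor
        · rintro (k | k)
          · rintro (k' | k')
            · exact (h3.1 k) k'
            · exact h1 k'
          · exact absurd k h2
        · intro k
          left
          apply h3.2
          intro k'
          exact k (Or.inl k')
      · have h1 := hB.out u v h
        have h2 := hnoD u v h
        constructor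
        · rintro (k | k)
          · exact absurd k h2.1
          · exact absurd k h1.2.2
        · intro k
          exact absurd (Or.inr h) k
      · have h1 := hB.out v u h
        have h2 := hnoD v u h
        constructor
        · rintro - (k | k)
          · exact h2.1 k
          · exact h1.2.2 k
        · intro _
          exact Or.inr h
    · rintro X ⟨u, hu, v, hv, huv⟩
      by_cases hX : ∃ u ∈ X, ∃ v ∉ X, H'.Adj u v
      · obtain ⟨a, ha, b, hb, hab⟩ := hcross X hX
        exact ⟨a, ha, b, hb, Or.inl hab⟩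
      · rcases huv with huv | huv
        · exact absurd ⟨u, hu, v, hv, hD1.adj u v huv⟩ hX
        · have h1 := hB.bal (fun v => - if v ∈ X then 1 else 0) (fun a b hab => by
            rw [hcst X hX a b hab])
          obtain ⟨p, hp1, hp2⟩ := Finset.exists_pos_of_sum_zero_of_exists_nonzero _ h1
            ⟨(v, u), huv, by simp [hu, hv]⟩
          refine ⟨p.2, ?_, p.1, ?_, Or.inr hp1⟩
          · intro hh
            rw [if_pos hh] at hp2
            split_ifs at hp2 <;> norm_num at hp2
          · by_contra hh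
            rw [if_neg hh] at hp2
            split_ifs at hp2 <;> norm_num at hp2
  unfold KerTriv at hplus hminus
  push Not at hplus hminus
  obtain ⟨y, hy, p, hp, hy0⟩ := hplus
  obtain ⟨z, hz, q, hq, hz0⟩ := hminus
  have hgy : gm Q y ≠ 0 := fun h => hy0 (hD3 y hy h p fun u v huv => hp u v (Or.inl huv))
  have hgz : gm Q z ≠ 0 := fun h => hz0 (hD3 z hz h q fun u v huv => hq u v (Or.inl huv))
  let w : V → ℚ := gm Q z • y - gm Q y • z
  have hwN : w ∈ N := N.sub_mem (N.smul_mem _ hy) (N.smul_mem _ hz)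
  have hwv : ∀ v, w v = gm Q z * y v - gm Q y * z v := fun v => rfl
  have hgw : gm Q w = 0 := by
    rw [gm_lin]; ring
  have hw0 : w = 0 := hD3 w hwN hgw (fun v => gm Q z * p v - gm Q y * q v) (fun u v huv => by
    have h1 := hp u v (Or.inl huv)
    have h2 := hq u v (Or.inl huv)
    rw [hwv, hwv]
    linear_combination gm Q z * h1 - gm Q y * h2)
  have h3 := hB.bal (fun v => gm Q z * p v - gm Q y * q v) (by
    have h4 : ∀ u v, D u v → gm Q z * p u - gm Q y * q u = gm Q z * p v - gm Q y * q v := by
      intro u v huv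
      have h1 := hp u v (Or.inl huv)
      have h2 := hq u v (Or.inl huv)
      have h5 : w u + w v = 0 := by rw [hw0]; simp
      rw [hwv, hwv] at h5
      linear_combination - gm Q z * h1 + gm Q y * h2 - h5
    intro u v huv
    by_cases h5 : D u v
    · exact h4 u v h5
    · exact (h4 v u ((hD1.one v u huv.symm).2 h5)).symm)
  have h6 : ∑ a ∈ Q, ((gm Q z * p a.2 - gm Q y * q a.2) - (gm Q z * p a.1 - gm Q y * q a.1)) =
      ∑ a ∈ Q, (gm Q z * (y a.1 + y a.2) + gm Q y * (z a.1 + z a.2)) := by
    apply Finset.sum_congr rfl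
    intro a ha
    have h1 := hp a.1 a.2 (Or.inr ha)
    have h2 := hq a.2 a.1 (Or.inr ha)
    linear_combination gm Q z * h1 + gm Q y * h2
  rw [h6, Finset.sum_add_distrib, ← Finset.mul_sum, ← Finset.mul_sum] at h3
  have h7 : gm Q z * gm Q y + gm Q y * gm Q z = 0 := h3
  have h8 : gm Q z * gm Q y = 0 := by linarith
  exact (mul_ne_zero hgz hgy) h8

/-- the ordered pairs of adjacent vertices of `H` which are not adjacent in `H'` -/
noncomputable def df (H' H : SimpleGraph V) : Finset (V × V) :=
  Finset.univ.filter fun p => H.Adj p.1 p.2 ∧ ¬ H'.Adj p.1 p.2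

/-- The extension of orientations along a chain of bridgeless subgraphs. -/
theorem Good.step {H' H : SimpleGraph V} (hle : H' ≤ H) (hb : Bridgeless H)
    (N : Submodule ℚ (V → ℚ)) (hg : Good H' (N ⊓ LinearMap.ker (dg H - dg H'))) : Good H N := by
  have key : ∀ (n : ℕ) (H' : SimpleGraph V), H' ≤ H → (df H' H).card ≤ n →
      Good H' (N ⊓ LinearMap.ker (dg H - dg H')) → Good H N := by
    intro n
    induction n with
    | zero =>
      intro H' hle hn hg
      have he : H' = H := by
        apply le_antisymm hle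
        intro u v huv
        by_contra hcon
        have h1 : (u, v) ∈ df H' H := Finset.mem_filter.2 ⟨Finset.mem_univ _, huv, hcon⟩
        rw [Nat.le_zero, Finset.card_eq_zero] at hn
        rw [hn] at h1
        exact absurd h1 (Finset.notMem_empty _)
      subst he
      rw [sub_self, LinearMap.ker_zero, inf_top_eq] at hg
      exact hg
    | succ n ih =>
      intro H' hle hn hg
      by_cases he : H' = H
      · subst he
        rw [sub_self, LinearMap.ker_zero, inf_top_eq] at hg
        exact hg
      obtain ⟨Q, hB, hQ⟩ := exists_Bal hle he hb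
      have hle' : ad H' Q hB.hne ≤ H := by
        intro u v huv
        rcases huv with h | h | h
        · exact hle h
        · exact hQ u v h
        · exact (hQ v u h).symm
      apply ih (ad H' Q hB.hne) hle'
      · obtain ⟨p, hp⟩ := hB.ne
        have h1 : df (ad H' Q hB.hne) H ⊂ df H' H := by
          rw [Finset.ssubset_iff_of_subset]
          · refine ⟨p, ?_, ?_⟩
            · exact Finset.mem_filter.2 ⟨Finset.mem_univ _, hQ p.1 p.2 hp, (hB.out p.1 p.2 hp).2.1⟩
            · intro h2
              exact (Finset.mem_filter.1 h2).2.2 (Or.inr (Or.inl hp))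
          · intro q hq
            have h2 := (Finset.mem_filter.1 hq).2
            exact Finset.mem_filter.2 ⟨Finset.mem_univ _, h2.1, fun h3 => h2.2 (Or.inl h3)⟩
        have h2 := Finset.card_lt_card h1
        omega
      · obtain ⟨D, hD1, hD2, hD3⟩ := hg
        apply Good.ear hB _ D hD1 hD2
        intro y hy hgy p hp
        apply hD3 y _ p hp
        refine ⟨hy.1, ?_⟩
        have h3 := hy.2
        rw [SetLike.mem_coe, LinearMap.mem_ker, LinearMap.sub_apply] at h3 ⊢
        rw [hB.dg_ad y, hgy, add_zero] at h3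
        exact h3
  exact key _ H' hle le_rfl hg

/-- From a trivial kernel to a strong and antistrong orientation. -/
theorem Good.sa {G : SimpleGraph V} (hV : 3 ≤ Fintype.card V) (hc : G.Connected)
    (h : Good G ⊤) : ∃ D : V → V → Prop, IsOrientation G D ∧ IsStrong D ∧ IsAntistrong D := by
  obtain ⟨D, hD1, hD2, hD3⟩ := h
  have hcut : ∀ X : Set V, X.Nonempty → X ≠ Set.univ → ∃ u ∈ X, ∃ v ∉ X, G.Adj u v := by
    rintro X ⟨a, ha⟩ hX
    obtain ⟨b, hb⟩ : ∃ b, b ∉ X := by
      by_contra hcon
      push Not at hcon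
      exact hX (Set.eq_univ_of_forall hcon)
    by_contra hcon
    push Not at hcon
    have hcl : ∀ w z, G.Reachable w z → w ∈ X → z ∈ X := by
      rintro w z ⟨p⟩
      induction p with
      | nil => exact id
      | @cons c d e hadj p ih =>
        intro hc'
        apply ih
        by_contra hd
        exact hcon c hc' d hd hadj
    exact hb (hcl a b (hc.preconnected a b) ha)
  refine ⟨D, hD1, CutStrong.isStrong ?_, antistrong_of_BConn hV ?_⟩
  · intro X hX hX'
    obtain ⟨u, hu, v, hv, huv⟩ := hcut X hX hX'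
    by_cases h1 : D u v
    · exact ⟨u, hu, v, hv, h1⟩
    · have h2 := (hD1.one v u huv.symm).2 h1
      obtain ⟨a, ha, b, hb, hab⟩ := hD2 Xᶜ ⟨v, hv, u, fun h => h hu, h2⟩
      exact ⟨a, not_not.1 ha, b, hb, hab⟩
  · intro A B hAB hA
    have h1 := hD3 (fun v => ((if v ∈ A then 1 else 0) - (if v ∈ B then 1 else 0)) / 2) trivial
      (fun v => ((if v ∈ A then 1 else 0) + (if v ∈ B then 1 else 0)) / 2) (by
      intro u v huv
      have h2 : (if u ∈ A then (1 : ℚ) else 0) = if v ∈ B then 1 else 0 :=
        if_congr (hAB u v huv) rfl rfl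
      linear_combination - h2)
    have h3 : ∀ v, v ∈ A ↔ v ∈ B := by
      intro v
      have h4 := congrFun h1 v
      simp only [Pi.zero_apply] at h4
      by_cases hvA : v ∈ A <;> by_cases hvB : v ∈ B
      · exact ⟨fun _ => hvB, fun _ => hvA⟩
      · rw [if_pos hvA, if_neg hvB] at h4
        norm_num at h4
      · rw [if_neg hvA, if_pos hvB] at h4
        norm_num at h4
      · exact ⟨fun h => absurd h hvA, fun h => absurd h hvB⟩
    have hAu : A = Set.univ := by
      by_contra hcon
      obtain ⟨u, hu, v, hv, huv⟩ := hcut A hA hcon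
      by_cases h4 : D u v
      · exact hv ((h3 v).2 ((hAB u v h4).1 hu))
      · have h5 := (hD1.one v u huv.symm).2 h4
        exact hv ((hAB v u h5).2 ((h3 u).1 hu))
    rw [← hAu]
    ext v
    exact (h3 v).symm

end Pool.Agent.SAO
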