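import Mathlib

/-!
# The count of generators
-/

set_option autoImplicit false

namespace Pool.Agent.SAO

open Classical

/-- the data of the nodes outside `U` lie in `S` -/
def Cl {C K : Type} [Field K] [Algebra ℚ K] (P Y : C → K) (S : IntermediateField ℚ K)
    (U : Finset C) : Prop :=
  (∀ w ∉ U, ∀ w' ∉ U, P w - P w' ∈ S) ∧ ∀ w ∉ U, Y w ∈ S

/-- the hypotheses on the quotient graph -/
structure QHyp {C K : Type} [Fintype C] [Field K] [Algebra ℚ K] (P Y : C → K) (X : C → C → K)
    (A : C → C → ℚ) (m : C → C → ℕ) : Prop where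
  hm0 : ∀ i, m i i = 0
  hm : ∀ i j, m i j = m j i
  hX0 : ∀ i j, m i j = 0 → X i j = 0
  hX : ∀ i, ∑ j, X i j = 0
  hP : ∀ i j, m i j ≠ 0 → P i ≠ P j
  hE : ∀ i j, i ≠ j → X i j * (P j - P i) =
    algebraMap ℚ K (A i j) * Y i + algebraMap ℚ K (A j i) * Y j
  hX1 : ∀ i j, m i j ≠ 0 → X i j ≠ 0
  hX2 : ∀ i i' u, i ≠ i' → m i u ≠ 0 → m i' u ≠ 0 → (A u i ≠ 0 ∨ A u i' ≠ 0) →
    algebraMap ℚ K (A u i') * X i u - algebraMap ℚ K (A u i) * X i' u ≠ 0
  hA : ∀ i j, m i j = 1 → A i j ≠ 0
  h5 : ∀ i, 5 ≤ ∑ j, m i j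
  hc : ∀ S : Finset C, S.Nonempty → S ≠ Finset.univ → ∃ i ∈ S, ∃ j ∉ S, m i j ≠ 0

/-- the new nodes -/
noncomputable def nw {C : Type} [Fintype C] (m : C → C → ℕ) (U : Finset C) (u : C) : Finset C :=
  Finset.univ.filter fun i => m i u ≠ 0 ∧ i ∉ U ∧ ∀ j ∈ U, m i j = 0

section

variable {C K : Type} [Fintype C] [Field K] [Algebra ℚ K] {P Y : C → K} {X : C → C → K}
  {A : C → C → ℚ} {m : C → C → ℕ}

theorem QHyp.X_mem (h : QHyp P Y X A m) {S : IntermediateField ℚ K} {U : Finset C} {u i : C}
    (hi : i ∈ nw m U u) (hS : Cl P Y S (insert u U)) : X i u ∈ S := by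
  obtain ⟨-, hi1, hi2, hi3⟩ := Finset.mem_filter.1 hi
  have hiu : i ≠ u := fun he => hi1 (he ▸ h.hm0 i)
  have hiU : i ∉ insert u U := by
    rw [Finset.mem_insert]
    push Not
    exact ⟨hiu, hi2⟩
  have h1 := h.hX i
  rw [← Finset.add_sum_erase _ _ (Finset.mem_univ u)] at h1
  rw [eq_neg_of_add_eq_zero_left h1]
  apply S.neg_mem
  apply S.sum_mem
  intro j hj
  have hju := Finset.ne_of_mem_erase hj
  by_cases hmj : m i j = 0
  · rw [h.hX0 i j hmj]
    exact S.zero_mem
  · have hjU : j ∉ insert u U := by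
      rw [Finset.mem_insert]
      push Not
      exact ⟨hju, fun hj' => hmj (hi3 j hj')⟩
    have hij : i ≠ j := fun he => hmj (he ▸ h.hm0 i)
    have hne : P j - P i ≠ 0 := sub_ne_zero.2 (h.hP i j hmj).symm
    have h2 := h.hE i j hij
    rw [← eq_div_iff hne] at h2
    rw [h2]
    apply S.div_mem
    · apply S.add_mem
      · exact S.mul_mem (S.algebraMap_mem _) (hS.2 i hiU)
      · exact S.mul_mem (S.algebraMap_mem _) (hS.2 j hjU)
    · exact hS.1 j hjU i hiU

theorem QHyp.cl_of (h : QHyp P Y X A m) {S : IntermediateField ℚ K} {U : Finset C} {u i : C}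
    (hi : i ∈ nw m U u) (hS : Cl P Y S (insert u U)) (hY : Y u ∈ S) : Cl P Y S U := by
  obtain ⟨-, hi1, hi2, hi3⟩ := Finset.mem_filter.1 hi
  have hiu : i ≠ u := fun he => hi1 (he ▸ h.hm0 i)
  have hiU : i ∉ insert u U := by
    rw [Finset.mem_insert]
    push Not
    exact ⟨hiu, hi2⟩
  have hd : P u - P i ∈ S := by
    have h2 := h.hE i u hiu
    rw [mul_comm, ← eq_div_iff (h.hX1 i u hi1)] at h2
    rw [h2]
    apply S.div_mem
    · apply S.add_mem
      · exact S.mul_mem (S.algebraMap_mem _) (hS.2 i hiU)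
      · exact S.mul_mem (S.algebraMap_mem _) hY
    · exact h.X_mem hi hS
  have hdw : ∀ w ∉ U, P w - P i ∈ S := by
    intro w hw
    by_cases hwu : w = u
    · rw [hwu]; exact hd
    · apply hS.1 w _ i hiU
      rw [Finset.mem_insert]
      push Not
      exact ⟨hwu, hw⟩
  constructor
  · intro w hw w' hw'
    have := S.sub_mem (hdw w hw) (hdw w' hw')
    rwa [sub_sub_sub_cancel_right] at this
  · intro w hw
    by_cases hwu : w = u
    · rw [hwu]; exact hY
    · apply hS.2 w
      rw [Finset.mem_insert]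
      push Not
      exact ⟨hwu, hw⟩

theorem QHyp.Y_mem (h : QHyp P Y X A m) {S : IntermediateField ℚ K} {U : Finset C} {u i i' : C}
    (hi : i ∈ nw m U u) (hi' : i' ∈ nw m U u) (hii : i ≠ i') (hA : A u i ≠ 0 ∨ A u i' ≠ 0)
    (hS : Cl P Y S (insert u U)) : Y u ∈ S := by
  have hX := h.X_mem hi hS
  have hX' := h.X_mem hi' hS
  obtain ⟨-, hi1, hi2, hi3⟩ := Finset.mem_filter.1 hi
  obtain ⟨-, hi1', hi2', hi3'⟩ := Finset.mem_filter.1 hi'
  have hiu : i ≠ u := fun he => hi1 (he ▸ h.hm0 i)
  have hiu' : i' ≠ u := fun he => hi1' (he ▸ h.hm0 i')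
  have hiU : i ∉ insert u U := by
    rw [Finset.mem_insert]
    push Not
    exact ⟨hiu, hi2⟩
  have hiU' : i' ∉ insert u U := by
    rw [Finset.mem_insert]
    push Not
    exact ⟨hiu', hi2'⟩
  have e1 := h.hE i u hiu
  have e2 := h.hE i' u hiu'
  have hdet := h.hX2 i i' u hii hi1 hi1' hA
  have h3 : Y u = (X i' u * (algebraMap ℚ K (A i u) * Y i) -
      X i u * (algebraMap ℚ K (A i' u) * Y i' - X i' u * (P i - P i'))) /
      (algebraMap ℚ K (A u i') * X i u - algebraMap ℚ K (A u i) * X i' u) := by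
    rw [eq_div_iff hdet]
    linear_combination X i' u * e1 - X i u * e2
  rw [h3]
  apply S.div_mem
  · apply S.sub_mem
    · exact S.mul_mem hX' (S.mul_mem (S.algebraMap_mem _) (hS.2 i hiU))
    · apply S.mul_mem hX
      apply S.sub_mem
      · exact S.mul_mem (S.algebraMap_mem _) (hS.2 i' hiU')
      · exact S.mul_mem hX' (hS.1 i hiU i' hiU')
  · apply S.sub_mem
    · exact S.mul_mem (S.algebraMap_mem _) hX
    · exact S.mul_mem (S.algebraMap_mem _) hX'

/-- the local step -/
theorem QHyp.local (h : QHyp P Y X A m) {U : Finset C} {u : C} (hu : u ∉ U)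
    (hn : (nw m U u).Nonempty) : ∃ (k : ℕ) (e : Finset K), e.card + k ≤ 2 ∧
      (∀ S : IntermediateField ℚ K, Cl P Y S (insert u U) → (e : Set K) ⊆ S → Cl P Y S U) ∧
      (nw m U u).card + 4 ≤ 2 * k + ∑ j, m u j ∧
      ((∃ j ∈ U, m u j ≠ 0) → (nw m U u).card + 5 ≤ 2 * k + ∑ j, m u j) := by
  have hd := h.h5 u
  -- the sum over the new nodes
  have hle : ∀ c : ℕ, (∀ i ∈ nw m U u, c ≤ m u i) →
      c * (nw m U u).card + (if ∃ j ∈ U, m u j ≠ 0 then 1 else 0) ≤ ∑ j, m u j := by
    intro c hc
    have h1 : c * (nw m U u).card ≤ ∑ i ∈ nw m U u, m u i := by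
      rw [mul_comm, ← smul_eq_mul]
      exact Finset.card_nsmul_le_sum _ _ _ hc
    by_cases hex : ∃ j ∈ U, m u j ≠ 0
    · rw [if_pos hex]
      obtain ⟨j, hj, hj'⟩ := hex
      have hjn : j ∉ nw m U u := fun h' => (Finset.mem_filter.1 h').2.2.1 hj
      have h2 : ∑ i ∈ insert j (nw m U u), m u i ≤ ∑ j, m u j :=
        Finset.sum_le_sum_of_subset (Finset.subset_univ _)
      rw [Finset.sum_insert hjn] at h2
      omega
    · rw [if_neg hex]
      have h2 : ∑ i ∈ nw m U u, m u i ≤ ∑ j, m u j :=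
        Finset.sum_le_sum_of_subset (Finset.subset_univ _)
      omega
  have hpos : ∀ i ∈ nw m U u, 1 ≤ m u i := by
    intro i hi
    have := (Finset.mem_filter.1 hi).2.1
    rw [h.hm] at this
    omega
  obtain ⟨i, hi⟩ := hn
  have hone : (e : Finset K) → e = {Y u} → ∀ S : IntermediateField ℚ K,
      Cl P Y S (insert u U) → (e : Set K) ⊆ S → Cl P Y S U := by
    intro e he S hS hsub
    refine h.cl_of hi hS (hsub ?_)
    rw [he]
    simp
  by_cases hall : ∀ i ∈ nw m U u, A u i = 0
  · -- all multiplicities are at least two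
    have h2 := hle 2 (by
      intro i hi
      have h3 := hpos i hi
      have h4 : m u i ≠ 1 := fun h1 => h.hA u i h1 (hall i hi)
      omega)
    have hc : 0 < (nw m U u).card := Finset.card_pos.2 ⟨i, hi⟩
    refine ⟨1, {Y u}, by simp, hone _ rfl, ?_, ?_⟩
    · split_ifs at h2 <;> omega
    · intro hex
      rw [if_pos hex] at h2
      omega
  · push Not at hall
    obtain ⟨a, ha, haA⟩ := hall
    by_cases hcard : (nw m U u).card = 1
    · refine ⟨1, {Y u}, by simp, hone _ rfl, ?_, ?_⟩
      · omega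
      · intro _
        omega
    · have h1 : 1 < (nw m U u).card := by
        have : 0 < (nw m U u).card := Finset.card_pos.2 ⟨i, hi⟩
        omega
      obtain ⟨b, hb, hab⟩ := Finset.exists_mem_ne h1 a
      have h2 := hle 1 hpos
      refine ⟨2, ∅, by simp, ?_, ?_, ?_⟩
      · intro S hS _
        exact h.cl_of ha hS (h.Y_mem ha hb hab.symm (Or.inl haA) hS)
      · split_ifs at h2 <;> omega
      · intro hex
        rw [if_pos hex] at h2
        omega

/-- the nodes which are covered -/
noncomputable def cv {C : Type} [Fintype C] (m : C → C → ℕ) (U : Finset C) : Finset C :=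
  Finset.univ.filter fun i => i ∈ U ∨ ∃ j ∈ U, m i j ≠ 0

theorem QHyp.chain (h : QHyp P Y X A m) [Nonempty C] (n : ℕ) : ∃ (U : Finset C) (k : ℕ)
    (e : Finset K), U.Nonempty ∧ (∃ c, c ∉ U) ∧ e.card + k ≤ 2 * U.card ∧
      (∀ S : IntermediateField ℚ K, Cl P Y S U → (e : Set K) ⊆ S → Cl P Y S ∅) ∧
      (cv m U).card + 5 * U.card ≤ 2 * k + ∑ u ∈ U, ∑ j, m u j + 2 ∧
      (n < (cv m U).card ∨ cv m U = Finset.univ) := by
  induction n with
  | zero =>
    obtain ⟨u⟩ : Nonempty C := inferInstance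
    have hnw : nw m ∅ u = Finset.univ.filter fun i => m i u ≠ 0 := by
      unfold nw
      congr 1
      ext i
      simp
    have hn : (nw m ∅ u).Nonempty := by
      by_contra hcon
      rw [Finset.not_nonempty_iff_eq_empty, hnw, Finset.filter_eq_empty_iff] at hcon
      have h5 := h.h5 u
      have : ∑ j, m u j = 0 := by
        apply Finset.sum_eq_zero
        intro j _
        have := hcon (Finset.mem_univ j)
        rw [h.hm]
        simpa using this
      omega
    obtain ⟨k, e, h1, h2, h3, h4⟩ := h.local (Finset.notMem_empty u) hn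
    have hcv : cv m (insert u ∅) = insert u (nw m ∅ u) := by
      rw [hnw]
      ext i
      simp [cv]
    refine ⟨insert u ∅, k, e, Finset.insert_nonempty _ _, ?_, ?_, h2, ?_, ?_⟩
    · obtain ⟨i, hi⟩ := hn
      have hi1 := (Finset.mem_filter.1 hi).2.1
      refine ⟨i, ?_⟩
      intro hi'
      rw [Finset.mem_insert] at hi'
      rcases hi' with rfl | hi'
      · exact hi1 (h.hm0 i)
      · exact absurd hi' (Finset.notMem_empty _)
    · simpa using h1
    · rw [hcv]
      have h6 := Finset.card_insert_le u (nw m ∅ u)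
      simp only [Finset.card_insert_of_notMem (Finset.notMem_empty u), Finset.card_empty,
        Finset.sum_insert (Finset.notMem_empty u), Finset.sum_empty]
      omega
    · left
      apply Finset.card_pos.2
      exact ⟨u, Finset.mem_filter.2 ⟨Finset.mem_univ _, Or.inl (Finset.mem_insert_self _ _)⟩⟩
  | succ n ih =>
    obtain ⟨U, k, e, h1, h2, h3, h4, h5, h6⟩ := ih
    by_cases hun : cv m U = Finset.univ
    · exact ⟨U, k, e, h1, h2, h3, h4, h5, Or.inr hun⟩
    have hlt := h6.resolve_right hun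
    have hUc : U ⊆ cv m U := fun i hi => Finset.mem_filter.2 ⟨Finset.mem_univ _, Or.inl hi⟩
    obtain ⟨u, hu, j, hj, huj⟩ := h.hc (cv m U) (h1.mono hUc) hun
    have hjU : j ∉ U := fun hj' => hj (hUc hj')
    have huU : u ∉ U := by
      intro hu'
      apply hj
      refine Finset.mem_filter.2 ⟨Finset.mem_univ _, Or.inr ⟨u, hu', ?_⟩⟩
      rw [h.hm]
      exact huj
    have hex : ∃ j ∈ U, m u j ≠ 0 := (Finset.mem_filter.1 hu).2.resolve_left huU
    have hjn : j ∈ nw m U u := by
      refine Finset.mem_filter.2 ⟨Finset.mem_univ _, ?_, hjU, ?_⟩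
      · rw [h.hm]; exact huj
      · intro a ha
        by_contra hne
        exact hj (Finset.mem_filter.2 ⟨Finset.mem_univ _, Or.inr ⟨a, ha, hne⟩⟩)
    obtain ⟨k', e', k1, k2, -, k4⟩ := h.local huU ⟨j, hjn⟩
    have k5 := k4 hex
    have hcv : cv m (insert u U) = cv m U ∪ nw m U u := by
      ext i
      simp only [cv, nw, Finset.mem_filter, Finset.mem_univ, true_and, Finset.mem_union,
        Finset.mem_insert]
      constructor
      · rintro ((rfl | hi) | ⟨a, rfl | ha, hia⟩)
        · exact Or.inl (Or.inr hex)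
        · exact Or.inl (Or.inl hi)
        · by_cases hiU : i ∈ U
          · exact Or.inl (Or.inl hiU)
          · by_cases hex' : ∃ j ∈ U, m i j ≠ 0
            · exact Or.inl (Or.inr hex')
            · push Not at hex'
              exact Or.inr ⟨hia, hiU, hex'⟩
        · exact Or.inl (Or.inr ⟨a, ha, hia⟩)
      · rintro ((hi | ⟨a, ha, hia⟩) | ⟨hi, -, -⟩)
        · exact Or.inl (Or.inr hi)
        · exact Or.inr ⟨a, Or.inr ha, hia⟩
        · exact Or.inr ⟨u, Or.inl rfl, hi⟩
    have hdisj : Disjoint (cv m U) (nw m U u) := by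
      rw [Finset.disjoint_left]
      intro i hi hi'
      have h7 := (Finset.mem_filter.1 hi).2
      have h8 := (Finset.mem_filter.1 hi').2
      rcases h7 with h7 | ⟨a, ha, h7⟩
      · exact h8.2.1 h7
      · exact h7 (h8.2.2 a ha)
    have hcard : (cv m (insert u U)).card = (cv m U).card + (nw m U u).card := by
      rw [hcv, Finset.card_union_of_disjoint hdisj]
    have hpos : 0 < (nw m U u).card := Finset.card_pos.2 ⟨j, hjn⟩
    refine ⟨insert u U, k + k', e ∪ e', Finset.insert_nonempty _ _, ⟨j, ?_⟩, ?_, ?_, ?_, ?_⟩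
    · rw [Finset.mem_insert]
      push Not
      exact ⟨fun he => hj (he ▸ hu), hjU⟩
    · rw [Finset.card_insert_of_notMem huU]
      have := Finset.card_union_le e e'
      omega
    · intro S hS hsub
      rw [Finset.coe_union, Set.union_subset_iff] at hsub
      exact h4 S (k2 S hS hsub.2) hsub.1
    · rw [Finset.sum_insert huU, Finset.card_insert_of_notMem huU, hcard]
      omega
    · left
      rw [hcard]
      omega

/-- All data lie in a field with few generators. -/
theorem QHyp.count (h : QHyp P Y X A m) [Nonempty C] : ∃ s : Finset K,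
    2 * s.card + 2 * Fintype.card C ≤ ∑ i, ∑ j, m i j ∧
      ∀ S : IntermediateField ℚ K, (s : Set K) ⊆ S → Cl P Y S ∅ := by
  obtain ⟨U, k, e, -, ⟨c, hc⟩, h3, h4, h5, h6⟩ := h.chain (Fintype.card C)
  have hun : cv m U = Finset.univ := by
    refine h6.resolve_left ?_
    have := Finset.card_le_univ (cv m U)
    omega
  rw [hun, Finset.card_univ] at h5
  let W := Finset.univ \ U
  have hW : W.card + U.card = Fintype.card C := by
    rw [← Finset.card_univ]
    exact Finset.card_sdiff_add_card_eq_card (Finset.subset_univ _)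
  have hcW : c ∈ W := Finset.mem_sdiff.2 ⟨Finset.mem_univ _, hc⟩
  let s : Finset K := ((W.erase c).image fun w => P w - P c) ∪ W.image Y ∪ e
  refine ⟨s, ?_, ?_⟩
  · have h7 : s.card ≤ (W.card - 1) + W.card + e.card := by
      calc s.card ≤ (((W.erase c).image fun w => P w - P c) ∪ W.image Y).card + e.card :=
            Finset.card_union_le _ _
        _ ≤ ((W.erase c).image fun w => P w - P c).card + (W.image Y).card + e.card := by
            gcongr
            exact Finset.card_union_le _ _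
        _ ≤ (W.erase c).card + W.card + e.card := by
            gcongr
            · exact Finset.card_image_le
            · exact Finset.card_image_le
        _ = _ := by rw [Finset.card_erase_of_mem hcW]
    have h8 : 0 < W.card := Finset.card_pos.2 ⟨c, hcW⟩
    have h9 : ∑ i, ∑ j, m i j = ∑ i ∈ W, ∑ j, m i j + ∑ u ∈ U, ∑ j, m u j :=
      (Finset.sum_sdiff (Finset.subset_univ U)).symm
    have h10 : 5 * W.card ≤ ∑ i ∈ W, ∑ j, m i j := by
      rw [mul_comm, ← smul_eq_mul]
      exact Finset.card_nsmul_le_sum _ _ _ fun i _ => h.h5 i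
    omega
  · intro S hS
    have hsub : ∀ z ∈ s, z ∈ S := fun z hz => hS hz
    apply h4 S
    · have hd : ∀ w ∉ U, P w - P c ∈ S := by
        intro w hw
        by_cases hwc : w = c
        · rw [hwc, sub_self]
          exact S.zero_mem
        · apply hsub
          apply Finset.mem_union_left
          apply Finset.mem_union_left
          apply Finset.mem_image_of_mem
          exact Finset.mem_erase.2 ⟨hwc, Finset.mem_sdiff.2 ⟨Finset.mem_univ _, hw⟩⟩
      constructor
      · intro w hw w' hw'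
        have := S.sub_mem (hd w hw) (hd w' hw')
        rwa [sub_sub_sub_cancel_right] at this
      · intro w hw
        apply hsub
        apply Finset.mem_union_left
        apply Finset.mem_union_right
        exact Finset.mem_image_of_mem _ (Finset.mem_sdiff.2 ⟨Finset.mem_univ _, hw⟩)
    · intro z hz
      exact hsub z (Finset.mem_union_right _ hz)

end

end Pool.Agent.SAO
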