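import Mathlib

/-!
# Strong and antistrong orientations of a graph
-/

set_option autoImplicit false

namespace Pool.Agent.SAO

variable {V : Type}

/-- `D` is an orientation of the graph `G`; `D u v` says that there is an arc from `u` to `v`. Every
arc comes from an edge, and every edge `uv` is replaced by exactly one of the arcs `uv`, `vu`. -/
structure IsOrientation (G : SimpleGraph V) (D : V → V → Prop) : Prop where
  adj : ∀ u v, D u v → G.Adj u v
  one : ∀ u v, G.Adj u v → (D u v ↔ ¬ D v u)

/-- `D` is strong: there is a directed path from every vertex to every vertex. -/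
def IsStrong (D : V → V → Prop) : Prop := ∀ x y, Relation.ReflTransGen D x y

/-- The arc used in the step from `v i` to `v (i + 1)` of an antidirected walk which starts with a
forward arc: for even `i` the arc is forward, it is the pair `(v i, v (i + 1))`; for odd `i` it is
backward, it is the pair `(v (i + 1), v i)`. -/
def arc (v : ℕ → V) (i : ℕ) : V × V :=
  if Even i then (v i, v (i + 1)) else (v (i + 1), v i)

/-- The vertices `v 0, v 1, ..., v (2 m + 1)` form a forward antidirected trail in `D`: the steps
`0, 1, ..., 2 m` are alternately forward and backward arcs of `D`, the first and the last are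
forward, and no arc is used twice. -/
def IsForwardAntidirectedTrail (D : V → V → Prop) (v : ℕ → V) (m : ℕ) : Prop :=
  (∀ i ≤ 2 * m, D (arc v i).1 (arc v i).2) ∧
    ∀ i ≤ 2 * m, ∀ j ≤ 2 * m, arc v i = arc v j → i = j

/-- `D` is antistrong: there are at least three vertices, and for all `x ≠ y` there is a forward
antidirected trail from `x` to `y`. -/
def IsAntistrong [Fintype V] (D : V → V → Prop) : Prop :=
  3 ≤ Fintype.card V ∧ ∀ x y, x ≠ y →
    ∃ (v : ℕ → V) (m : ℕ), v 0 = x ∧ v (2 * m + 1) = y ∧ IsForwardAntidirectedTrail D v m

/-- The number of connected components of a graph. -/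
noncomputable def numComp (H : SimpleGraph V) : ℕ := Nat.card H.ConnectedComponent

/-- The number of connected components of a graph which are bipartite. -/
noncomputable def numBip (H : SimpleGraph V) : ℕ :=
  Nat.card {c : H.ConnectedComponent // (H.induce c.supp).IsBipartite}

end Pool.Agent.SAO
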