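import Pool.Agent.SAO.Pot

/-!
# Dimensions of spaces of circulations
-/

set_option autoImplicit false

namespace Pool.Agent.SAO

open Classical Module

variable {V : Type} [Fintype V]

/-- antisymmetric functions supported on the edges -/
def Anti (H : SimpleGraph V) : Submodule ℚ (V → V → ℚ) where
  carrier := {z | (∀ u v, z v u = - z u v) ∧ (∀ u v, ¬ H.Adj u v → z u v = 0)}
  zero_mem' := by simp
  add_mem' := by
    rintro a b ⟨h1, h2⟩ ⟨k1, k2⟩
    refine ⟨fun u v => ?_, fun u v h => ?_⟩
    · simp only [Pi.add_apply]
      rw [h1, k1]; ring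
    · simp only [Pi.add_apply]
      rw [h2 u v h, k2 u v h]; ring
  smul_mem' := by
    rintro c a ⟨h1, h2⟩
    refine ⟨fun u v => ?_, fun u v h => ?_⟩
    · simp only [Pi.smul_apply, smul_eq_mul]
      rw [h1]; ring
    · simp only [Pi.smul_apply, smul_eq_mul]
      rw [h2 u v h]; ring

/-- the number of ordered pairs of adjacent vertices -/
noncomputable def np (H : SimpleGraph V) : ℕ :=
  (Finset.univ.filter (fun p : V × V => H.Adj p.1 p.2)).card

theorem finrank_Anti (H : SimpleGraph V) : 2 * finrank ℚ (Anti H) = np H := by
  letI : LinearOrder V := LinearOrder.lift' (Fintype.equivFin V) (Equiv.injective _)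
  let E : Finset (V × V) := Finset.univ.filter (fun p => H.Adj p.1 p.2 ∧ p.1 < p.2)
  have h1 : finrank ℚ (Anti H) = E.card := by
    let e : Anti H ≃ₗ[ℚ] (E → ℚ) :=
      { toFun := fun z p => (z : V → V → ℚ) p.1.1 p.1.2
        map_add' := fun a b => rfl
        map_smul' := fun c a => rfl
        invFun := fun f => ⟨fun u v => if h : (u, v) ∈ E then f ⟨(u, v), h⟩ else
            if h : (v, u) ∈ E then - f ⟨(v, u), h⟩ else 0, by
          constructor
          · intro u v
            simp only
            by_cases h : (u, v) ∈ E
            · have h' : (v, u) ∉ E := by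
                intro h'
                have k1 := (Finset.mem_filter.1 h).2.2
                have k2 := (Finset.mem_filter.1 h').2.2
                exact lt_asymm k1 k2
              rw [dif_neg h', dif_pos h, dif_pos h]
            · by_cases h' : (v, u) ∈ E
              · rw [dif_pos h', dif_neg h, dif_pos h', neg_neg]
              · rw [dif_neg h', dif_neg h, dif_neg h, dif_neg h', neg_zero]
          · intro u v h
            simp only
            rw [dif_neg, dif_neg]
            · intro h'
              exact h (Finset.mem_filter.1 h').2.1.symm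
            · intro h'
              exact h (Finset.mem_filter.1 h').2.1⟩
        left_inv := by
          rintro ⟨z, hz1, hz2⟩
          apply Subtype.ext
          funext u v
          simp only
          by_cases h : (u, v) ∈ E
          · rw [dif_pos h]
          · rw [dif_neg h]
            by_cases h' : (v, u) ∈ E
            · rw [dif_pos h', hz1 v u]
            · rw [dif_neg h']
              by_cases hadj : H.Adj u v
              · rcases lt_trichotomy u v with hl | hl | hl
                · exact absurd (Finset.mem_filter.2 ⟨Finset.mem_univ _, hadj, hl⟩) h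
                · exact absurd hl hadj.ne
                · exact absurd (Finset.mem_filter.2 ⟨Finset.mem_univ _, hadj.symm, hl⟩) h'
              · exact (hz2 u v hadj).symm
        right_inv := by
          intro f
          funext p
          simp only
          rw [dif_pos p.2] }
    rw [e.finrank_eq, finrank_fintype_fun_eq_card, Fintype.card_coe]
  have h2 : np H = E.card + E.card := by
    unfold np
    have hsplit : (Finset.univ.filter (fun p : V × V => H.Adj p.1 p.2)) =
        E ∪ Finset.univ.filter (fun p : V × V => H.Adj p.1 p.2 ∧ p.2 < p.1) := by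
      ext p
      simp only [E, Finset.mem_filter, Finset.mem_union, Finset.mem_univ, true_and]
      constructor
      · intro h
        rcases lt_trichotomy p.1 p.2 with hl | hl | hl
        · exact Or.inl ⟨h, hl⟩
        · exact absurd hl h.ne
        · exact Or.inr ⟨h, hl⟩
      · rintro (h | h)
        · exact h.1
        · exact h.1
    rw [hsplit, Finset.card_union_of_disjoint]
    · congr 1
      apply Finset.card_bij (fun p _ => (p.2, p.1))
      · intro p hp
        have := (Finset.mem_filter.1 hp).2
        exact Finset.mem_filter.2 ⟨Finset.mem_univ _, this.1.symm, this.2⟩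
      · intro p _ q _ hpq
        rw [Prod.mk.injEq] at hpq
        exact Prod.ext hpq.2 hpq.1
      · intro p hp
        have := (Finset.mem_filter.1 hp).2
        exact ⟨(p.2, p.1), Finset.mem_filter.2 ⟨Finset.mem_univ _, this.1.symm, this.2⟩, rfl⟩
    · rw [Finset.disjoint_left]
      intro p hp hq
      exact lt_asymm (Finset.mem_filter.1 hp).2.2 (Finset.mem_filter.1 hq).2.2
  rw [h1, h2]; ring

/-- the divergence -/
noncomputable def dv (H : SimpleGraph V) : Anti H →ₗ[ℚ] (V → ℚ) where
  toFun z u := ∑ v, (z : V → V → ℚ) u v
  map_add' a b := by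
    funext u
    simp [Finset.sum_add_distrib]
  map_smul' c a := by
    funext u
    simp [Finset.mul_sum]

theorem dv_apply {H : SimpleGraph V} (z : Anti H) (u : V) :
    dv H z u = ∑ v, (z : V → V → ℚ) u v := rfl

theorem rk_eq (H : SimpleGraph V) : rk H = finrank ℚ (LinearMap.ker (dv H)) := by
  unfold rk
  let e : Circ H ≃ₗ[ℚ] LinearMap.ker (dv H) :=
    { toFun := fun z => ⟨⟨z, z.2.1, z.2.2.1⟩, by
        rw [LinearMap.mem_ker]
        funext u
        exact z.2.2.2 u⟩
      map_add' := fun a b => rfl
      map_smul' := fun c a => rfl
      invFun := fun z => ⟨z.1.1, z.1.2.1, z.1.2.2, fun u => by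
        have := z.2
        rw [LinearMap.mem_ker] at this
        exact congrFun this u⟩
      left_inv := fun z => rfl
      right_inv := fun z => rfl }
  exact e.finrank_eq

theorem rk_add (H : SimpleGraph V) :
    finrank ℚ (LinearMap.range (dv H)) + rk H = finrank ℚ (Anti H) := by
  rw [rk_eq]
  exact LinearMap.finrank_range_add_finrank_ker _

/-- a lower bound for the dimension of the space of circulations -/
theorem rk_lower [Nonempty V] (G : SimpleGraph V) : np G + 2 ≤ 2 * rk G + 2 * Fintype.card V := by
  have h1 := rk_add G
  have h2 := finrank_Anti G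
  have h3 : finrank ℚ (LinearMap.range (dv G)) + 1 ≤ Fintype.card V := by
    let S : (V → ℚ) →ₗ[ℚ] ℚ := ∑ v, LinearMap.proj v
    have hS : ∀ f, S f = ∑ v, f v := by
      intro f
      simp [S, LinearMap.sum_apply]
    have hle : LinearMap.range (dv G) ≤ LinearMap.ker S := by
      rintro _ ⟨z, rfl⟩
      rw [LinearMap.mem_ker, hS]
      simp_rw [dv_apply]
      have h4 : ∑ u, ∑ v, (z : V → V → ℚ) u v = - ∑ u, ∑ v, (z : V → V → ℚ) u v := by
        conv_lhs => rw [Finset.sum_comm]
        rw [← Finset.sum_neg_distrib]
        apply Finset.sum_congr rfl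
        intro u _
        rw [← Finset.sum_neg_distrib]
        apply Finset.sum_congr rfl
        intro v _
        exact z.2.1 u v
      linarith
    have h5 := Submodule.finrank_mono hle
    have h6 := LinearMap.finrank_range_add_finrank_ker S
    rw [finrank_fintype_fun_eq_card] at h6
    have h7 : 0 < finrank ℚ (LinearMap.range S) := by
      rw [Module.finrank_pos_iff]
      obtain ⟨v⟩ : Nonempty V := inferInstance
      refine ⟨⟨S (Pi.single v 1), LinearMap.mem_range_self _ _⟩, 0, ?_⟩
      intro h0
      have := congrArg Subtype.val h0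
      simp only [hS, Submodule.coe_zero] at this
      rw [Finset.sum_pi_single'] at this
      simp at this
    omega
  omega

/-- an upper bound for the dimension of the space of circulations -/
theorem rk_upper (H : SimpleGraph V) :
    2 * rk H + 2 * Fintype.card V ≤ np H + 2 * Fintype.card H.ConnectedComponent := by
  have h1 := rk_add H
  have h2 := finrank_Anti H
  have h3 : Fintype.card V ≤ finrank ℚ (LinearMap.range (dv H)) +
      Fintype.card H.ConnectedComponent := by
    let rep : H.ConnectedComponent → V := fun c => c.out
    have hrep : ∀ v, H.Reachable v (rep (H.connectedComponentMk v)) := by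
      intro v
      apply SimpleGraph.ConnectedComponent.exact
      exact (Quot.out_eq (H.connectedComponentMk v)).symm
    let U : Submodule ℚ (V → ℚ) :=
      Submodule.span ℚ (Set.range fun c : H.ConnectedComponent => Pi.single (rep c) 1)
    have htop : LinearMap.range (dv H) ⊔ U = ⊤ := by
      rw [eq_top_iff]
      intro f _
      rw [← Finset.univ_sum_single f]
      apply Submodule.sum_mem
      intro v _
      have hv : (Pi.single v (f v) : V → ℚ) = f v • Pi.single v 1 := by
        rw [← Pi.single_smul, smul_eq_mul, mul_one]
      rw [hv]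
      apply Submodule.smul_mem
      obtain ⟨p⟩ := hrep v
      have h4 : (Pi.single v 1 : V → ℚ) = dv H ⟨wf p, fun a b => wf_antisymm p a b,
          fun a b h => wf_of_notMem p a b fun h' => h (p.adj_of_mem_edges h')⟩ +
            Pi.single (rep (H.connectedComponentMk v)) 1 := by
        funext a
        rw [Pi.add_apply, dv_apply, wf_sum, Pi.single_apply, Pi.single_apply]
        ring
      rw [h4]
      exact Submodule.add_mem_sup (LinearMap.mem_range_self _ _)
        (Submodule.subset_span ⟨_, rfl⟩)
    have h5 : finrank ℚ U ≤ Fintype.card H.ConnectedComponent := finrank_range_le_card _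
    have h6 := Submodule.finrank_add_le_finrank_add_finrank (LinearMap.range (dv H)) U
    rw [htop, finrank_top, finrank_fintype_fun_eq_card] at h6
    omega
  omega

/-- There are as many coordinates as the dimension which determine a circulation. -/
theorem exists_coords (H : SimpleGraph V) : ∃ T : Finset (V × V), T.card ≤ rk H ∧
    ∀ z ∈ Circ H, (∀ t ∈ T, z t.1 t.2 = 0) → z = 0 := by
  let κ : V × V → Dual ℚ (Circ H) := fun t =>
    (LinearMap.proj t.2 : (V → ℚ) →ₗ[ℚ] ℚ) ∘ₗ (LinearMap.proj t.1 : (V → V → ℚ) →ₗ[ℚ] (V → ℚ)) ∘ₗ
      (Circ H).subtype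
  have hκ : ∀ t (z : Circ H), κ t z = (z : V → V → ℚ) t.1 t.2 := fun t z => rfl
  obtain ⟨b, hb1, hb2, hb3⟩ := exists_linearIndependent ℚ (Set.range κ)
  have hfin : b.Finite := (Set.finite_range κ).subset hb1
  have hcard : hfin.toFinset.card ≤ rk H := by
    have hb4 : LinearIndepOn ℚ id (hfin.toFinset : Set (Dual ℚ (Circ H))) := by
      rw [Set.Finite.coe_toFinset]
      exact hb3
    have h5 := LinearIndependent.fintype_card_le_finrank hb4
    rw [Subspace.dual_finrank_eq] at h5
    unfold rk
    simpa using h5
  have hex : ∀ f : hfin.toFinset, ∃ t, κ t = f := by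
    intro f
    have := hb1 (hfin.mem_toFinset.1 f.2)
    exact this
  choose g hg using hex
  refine ⟨Finset.univ.image g, (Finset.card_image_le.trans ?_).trans hcard, ?_⟩
  · simp
  · intro z hz h0
    have hspan : ∀ f ∈ Submodule.span ℚ (Set.range κ), f ⟨z, hz⟩ = 0 := by
      rw [← hb2]
      intro f hf
      induction hf using Submodule.span_induction with
      | mem f hf =>
        have hf' : f ∈ hfin.toFinset := hfin.mem_toFinset.2 hf
        have h6 := hg ⟨f, hf'⟩
        simp only at h6
        rw [← h6, hκ]
        exact h0 _ (Finset.mem_image_of_mem _ (Finset.mem_univ _))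
      | zero => rfl
      | add f f' _ _ h1 h2 => rw [LinearMap.add_apply, h1, h2, add_zero]
      | smul c f _ h1 => rw [LinearMap.smul_apply, h1, smul_zero]
    funext u v
    have := hspan (κ (u, v)) (Submodule.subset_span ⟨_, rfl⟩)
    rw [hκ] at this
    exact this

/-- The coordinates also determine antisymmetric functions with values in any rational vector
space, relative to a subspace. -/
theorem mem_of_coords (H : SimpleGraph V) (T : Finset (V × V))
    (hT : ∀ z ∈ Circ H, (∀ t ∈ T, z t.1 t.2 = 0) → z = 0) {K : Type} [AddCommGroup K] [Module ℚ K]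
    (S : Submodule ℚ K) (x : V → V → K) (h1 : ∀ u v, x v u = - x u v)
    (h2 : ∀ u, ∑ v, (if H.Adj u v then x u v else 0) ∈ S) (h3 : ∀ t ∈ T, H.Adj t.1 t.2 → x t.1 t.2 ∈ S)
    (a b : V) (hab : H.Adj a b) : x a b ∈ S := by
  rw [← Submodule.Quotient.mk_eq_zero]
  rw [← Module.forall_dual_apply_eq_zero_iff ℚ]
  intro f
  let F : K →ₗ[ℚ] ℚ := f ∘ₗ S.mkQ
  have hF : ∀ k ∈ S, F k = 0 := by
    intro k hk
    have : S.mkQ k = 0 := (Submodule.Quotient.mk_eq_zero S).2 hk
    rw [LinearMap.comp_apply, this, map_zero]
  let z : V → V → ℚ := fun u v => if H.Adj u v then F (x u v) else 0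
  have hz : z ∈ Circ H := by
    refine ⟨fun u v => ?_, fun u v h => ?_, fun u => ?_⟩
    · by_cases h : H.Adj u v
      · simp only [z]
        rw [if_pos h, if_pos h.symm, h1, map_neg]
      · simp only [z]
        rw [if_neg h, if_neg fun h' => h h'.symm, neg_zero]
    · simp only [z]
      rw [if_neg h]
    · have h4 := hF _ (h2 u)
      rw [map_sum] at h4
      rw [← h4]
      apply Finset.sum_congr rfl
      intro v _
      simp only [z]
      split_ifs
      · rfl
      · rw [map_zero]
  have h0 := hT z hz (fun t ht => by
    simp only [z]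
    split_ifs with h
    · exact hF _ (h3 t ht h)
    · rfl)
  have h5 := congrFun (congrFun h0 a) b
  simp only [z, Pi.zero_apply] at h5
  rw [if_pos hab] at h5
  exact h5

end Pool.Agent.SAO
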