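import Pool.Agent.SAO.Pot

/-!
# The Jacobian criterion for the products of the generic flow at the vertices
-/

set_option autoImplicit false

namespace Pool.Agent.SAO

open Classical MvPolynomial

variable {V : Type} [Fintype V]

theorem pderiv_aeval {σ τ : Type} [Fintype τ] (f : τ → MvPolynomial σ ℚ) (F : MvPolynomial τ ℚ)
    (i : σ) : pderiv i (aeval f F) = ∑ t, aeval f (pderiv t F) * pderiv i (f t) := by
  induction F using MvPolynomial.induction_on with
  | C a =>
    rw [aeval_C, MvPolynomial.algebraMap_eq, pderiv_C]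
    simp
  | add p q hp hq =>
    rw [map_add, map_add, hp, hq, ← Finset.sum_add_distrib]
    apply Finset.sum_congr rfl
    intro t _
    rw [map_add, map_add]; ring
  | mul_X p t₀ hp =>
    rw [map_mul, aeval_X, pderiv_mul, hp]
    have : ∀ t, aeval f (pderiv t (p * X t₀)) * pderiv i (f t) =
        aeval f (pderiv t p) * pderiv i (f t) * f t₀ +
          (if t = t₀ then aeval f p * pderiv i (f t₀) else 0) := by
      intro t
      rw [pderiv_mul, map_add, map_mul, map_mul, aeval_X]
      by_cases h : t = t₀
      · subst h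
        rw [pderiv_X_self, map_one, if_pos rfl]; ring
      · rw [pderiv_X_of_ne (fun h' => h h'.symm), map_zero, if_neg h]; ring
    simp_rw [this]
    rw [Finset.sum_add_distrib, Finset.sum_ite_eq' Finset.univ t₀, if_pos (Finset.mem_univ _),
      Finset.sum_mul]

theorem pderiv_prod {σ ι : Type} {L : Type} [Field L] [Algebra (MvPolynomial σ ℚ) L]
    (S : Finset ι) (a : ι → MvPolynomial σ ℚ) (ha : ∀ w ∈ S, algebraMap _ L (a w) ≠ 0) (i : σ) :
    algebraMap _ L (pderiv i (∏ w ∈ S, a w)) = algebraMap _ L (∏ w ∈ S, a w) *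
      ∑ w ∈ S, algebraMap _ L (pderiv i (a w)) / algebraMap _ L (a w) := by
  induction S using Finset.induction_on with
  | empty => simp
  | insert w S hw ih =>
    rw [Finset.prod_insert hw, Finset.sum_insert hw, pderiv_mul, map_add, map_mul, map_mul,
      map_mul, ih (fun w' hw' => ha w' (Finset.mem_insert_of_mem hw'))]
    have h1 := ha w (Finset.mem_insert_self w S)
    field_simp
    try ring

theorem pderiv_xr (G : SimpleGraph V) (u v : V) (i : Fin (rk G)) :
    pderiv i (xr G u v) = C ((bas G i : V → V → ℚ) u v) := by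
  unfold xr
  rw [map_sum, Finset.sum_eq_single i]
  · rw [pderiv_C_mul, pderiv_X_self, mul_one]
  · intro j _ hj
    rw [pderiv_C_mul, pderiv_X_of_ne hj, mul_zero]
  · simp

/-- the product of the generic flow over the edges at `v` -/
noncomputable def phr (G : SimpleGraph V) (v : V) : RG G :=
  ∏ w ∈ Finset.univ.filter (fun w => G.Adj v w), xr G v w

theorem exists_relation {σ τ : Type} [Fintype τ] (f : τ → MvPolynomial σ ℚ)
    (h : ¬ AlgebraicIndependent ℚ f) : ∃ F : MvPolynomial τ ℚ, aeval f F = 0 ∧
      ∃ t, aeval f (pderiv t F) ≠ 0 := by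
  rw [algebraicIndependent_iff] at h
  push Not at h
  have hex : ∃ n : ℕ, ∃ F : MvPolynomial τ ℚ, aeval f F = 0 ∧ F ≠ 0 ∧ F.totalDegree = n := by
    obtain ⟨F, h1, h2⟩ := h
    exact ⟨_, F, h1, h2, rfl⟩
  obtain ⟨F, h1, h2, h3⟩ := Nat.find_spec hex
  have hmin : ∀ F' : MvPolynomial τ ℚ, aeval f F' = 0 → F'.totalDegree < F.totalDegree →
      F' = 0 := by
    intro F' h4 h5
    by_contra h6
    rw [h3] at h5
    exact Nat.find_min hex h5 ⟨F', h4, h6, rfl⟩
  refine ⟨F, h1, ?_⟩
  by_contra hall
  push Not at hall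
  -- a monomial which is not constant
  have hm : ∃ m ∈ F.support, m ≠ 0 := by
    by_contra hcon
    push Not at hcon
    have hF : F = C (coeff 0 F) := by
      ext m
      rw [coeff_C]
      by_cases hm : m = 0
      · rw [if_pos hm.symm, hm]
      · rw [if_neg (fun h => hm h.symm)]
        by_contra h
        exact hm (hcon m (mem_support_iff.2 h))
    rw [hF, aeval_C, MvPolynomial.algebraMap_eq, C_eq_zero] at h1
    rw [h1, C_0] at hF
    exact h2 hF
  obtain ⟨m, hm1, hm2⟩ := hm
  obtain ⟨t, ht⟩ : ∃ t, m t ≠ 0 := by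
    by_contra hcon
    push Not at hcon
    exact hm2 (Finsupp.ext hcon)
  have hm' : m = (m - Finsupp.single t 1) + Finsupp.single t 1 := by
    rw [tsub_add_cancel_of_le]
    intro s
    by_cases hs : s = t
    · subst hs
      simp only [Finsupp.single_eq_same]
      omega
    · rw [Finsupp.single_eq_of_ne hs]
      exact Nat.zero_le _
  have hne : pderiv t F ≠ 0 := by
    intro h0
    have h5 := coeff_pderiv (i := t) F (m - Finsupp.single t 1)
    rw [h0, coeff_zero, ← hm'] at h5
    have h6 : coeff m F ≠ 0 := mem_support_iff.1 hm1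
    have h7 : (((m - Finsupp.single t 1 : τ →₀ ℕ) t : ℕ) : ℚ) + 1 ≠ 0 := by positivity
    exact (mul_ne_zero h6 h7) h5.symm
  apply hne
  apply hmin _ (hall t)
  have hdeg : ∀ s ∈ (pderiv t F).support, (s.sum fun _ e => e) < F.totalDegree := by
    intro s hs
    have h5 := mem_support_iff.1 hs
    rw [coeff_pderiv] at h5
    have h6 : s + Finsupp.single t 1 ∈ F.support := mem_support_iff.2 (left_ne_zero_of_mul h5)
    have h7 := le_totalDegree h6
    rw [Finsupp.sum_add_index' (fun _ => rfl) (fun _ _ _ => rfl),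
      Finsupp.sum_single_index rfl] at h7
    omega
  have hpos : 0 < F.totalDegree := by
    obtain ⟨s, hs⟩ := support_nonempty.2 hne
    exact lt_of_le_of_lt (Nat.zero_le _) (hdeg s hs)
  unfold totalDegree
  rw [Finset.sup_lt_iff]
  · exact hdeg
  · exact hpos

/-- If the products of the generic flow at the vertices are algebraically dependent, then there is
a nontrivial kernel vector. -/
theorem exists_kernel (G : SimpleGraph V) (hG : G.Connected)
    (hx : ∀ u v, G.Adj u v → xr G u v ≠ 0) (h : ¬ AlgebraicIndependent ℚ (phr G)) :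
    ∃ p y : V → FractionRing (RG G), y ≠ 0 ∧ ∀ u v, G.Adj u v →
      algebraMap (RG G) (FractionRing (RG G)) (xr G u v) * (p v - p u) = y u + y v := by
  obtain ⟨F, h1, t, ht⟩ := exists_relation (phr G) h
  let K := FractionRing (RG G)
  let ι : RG G →+* K := algebraMap (RG G) K
  have hι : Function.Injective ι := IsFractionRing.injective (RG G) K
  have hx' : ∀ u v, G.Adj u v → ι (xr G u v) ≠ 0 := fun u v huv h0 =>
    hx u v huv (hι (by rw [h0, map_zero]))
  have hph : ∀ v, phr G v ≠ 0 := by
    intro v
    unfold phr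
    rw [Finset.prod_ne_zero_iff]
    intro w hw
    exact hx v w (Finset.mem_filter.1 hw).2
  let y : V → K := fun v => ι (aeval (phr G) (pderiv v F)) * ι (phr G v)
  have hy : y ≠ 0 := by
    intro h0
    have h2 : y t = 0 := by rw [h0]; rfl
    have h3 : ι (aeval (phr G) (pderiv t F) * phr G t) = 0 := by rw [map_mul]; exact h2
    have h4 := hι (h3.trans (map_zero ι).symm)
    exact (mul_ne_zero ht (hph t)) h4
  -- the relation for the basis
  have hrel : ∀ i, ∑ v, ∑ w, (if G.Adj v w then y v / ι (xr G v w) else 0) *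
      algebraMap ℚ K ((bas G i : V → V → ℚ) v w) = 0 := by
    intro i
    have h2 := pderiv_aeval (phr G) F i
    rw [h1, map_zero] at h2
    have h3 := congrArg ι h2
    rw [map_zero, map_sum] at h3
    refine Eq.trans ?_ h3.symm
    apply Finset.sum_congr rfl
    intro v _
    rw [map_mul]
    have h4 := pderiv_prod (L := K) (Finset.univ.filter (fun w => G.Adj v w)) (fun w => xr G v w)
      (fun w hw => hx' v w (Finset.mem_filter.1 hw).2) i
    have h5 : ι (pderiv i (phr G v)) = ι (phr G v) * ∑ w ∈ Finset.univ.filter (fun w => G.Adj v w),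
      ι (pderiv i (xr G v w)) / ι (xr G v w) := h4
    rw [h5, Finset.sum_filter, Finset.mul_sum, Finset.mul_sum]
    apply Finset.sum_congr rfl
    intro w _
    by_cases hvw : G.Adj v w
    · rw [if_pos hvw, if_pos hvw, pderiv_xr]
      have h6 : ι (C ((bas G i : V → V → ℚ) v w)) = algebraMap ℚ K ((bas G i : V → V → ℚ) v w) := by
        rw [← MvPolynomial.algebraMap_eq]
        exact (IsScalarTower.algebraMap_apply ℚ (RG G) K _).symm
      rw [h6]
      simp only [y]
      ring
    · rw [if_neg hvw, if_neg hvw]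
      ring
  -- the relation for all circulations
  have hrel2 : ∀ z ∈ Circ G, ∑ v, ∑ w, (if G.Adj v w then y v / ι (xr G v w) else 0) *
      algebraMap ℚ K (z v w) = 0 := by
    intro z hz
    have hz2 : ∀ v w, z v w = ∑ i, (bas G).repr ⟨z, hz⟩ i * (bas G i : V → V → ℚ) v w := by
      intro v w
      have h2 := congrArg (fun t : Circ G => (t : V → V → ℚ) v w) ((bas G).sum_repr ⟨z, hz⟩)
      simp only [Submodule.coe_sum, Submodule.coe_smul, Finset.sum_apply, Pi.smul_apply,
        smul_eq_mul] at h2
      exact h2.symm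
    have h3 : ∀ v w, (if G.Adj v w then y v / ι (xr G v w) else 0) * algebraMap ℚ K (z v w) =
        ∑ i, algebraMap ℚ K ((bas G).repr ⟨z, hz⟩ i) *
          ((if G.Adj v w then y v / ι (xr G v w) else 0) *
            algebraMap ℚ K ((bas G i : V → V → ℚ) v w)) := by
      intro v w
      rw [hz2 v w, map_sum, Finset.mul_sum]
      apply Finset.sum_congr rfl
      intro i _
      rw [map_mul]; ring
    simp_rw [h3]
    calc ∑ v, ∑ w, ∑ i, algebraMap ℚ K ((bas G).repr ⟨z, hz⟩ i) *
          ((if G.Adj v w then y v / ι (xr G v w) else 0) *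
            algebraMap ℚ K ((bas G i : V → V → ℚ) v w))
        = ∑ v, ∑ i, ∑ w, algebraMap ℚ K ((bas G).repr ⟨z, hz⟩ i) *
          ((if G.Adj v w then y v / ι (xr G v w) else 0) *
            algebraMap ℚ K ((bas G i : V → V → ℚ) v w)) :=
          Finset.sum_congr rfl fun v _ => Finset.sum_comm
      _ = ∑ i, ∑ v, ∑ w, algebraMap ℚ K ((bas G).repr ⟨z, hz⟩ i) *
          ((if G.Adj v w then y v / ι (xr G v w) else 0) *
            algebraMap ℚ K ((bas G i : V → V → ℚ) v w)) := Finset.sum_comm
      _ = 0 := by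
        apply Finset.sum_eq_zero
        intro i _
        simp_rw [← Finset.mul_sum]
        rw [hrel i, mul_zero]
  let g : V → V → K := fun u v => if G.Adj u v then (y u + y v) / ι (xr G u v) else 0
  have hanti : ∀ u v, g v u = - g u v := by
    intro u v
    by_cases huv : G.Adj u v
    · simp only [g]
      rw [if_pos huv, if_pos huv.symm, xr_antisymm G u v, map_neg, div_neg, add_comm]
    · simp only [g]
      rw [if_neg huv, if_neg (fun h => huv h.symm), neg_zero]
  have horth : ∀ z ∈ Circ G, ∑ u, ∑ v, g u v * algebraMap ℚ K (z u v) = 0 := by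
    intro z hz
    have h2 : ∀ u v, g u v * algebraMap ℚ K (z u v) =
        (if G.Adj u v then y u / ι (xr G u v) else 0) * algebraMap ℚ K (z u v) +
        (if G.Adj v u then y v / ι (xr G v u) else 0) * algebraMap ℚ K (z v u) := by
      intro u v
      by_cases huv : G.Adj u v
      · simp only [g]
        rw [if_pos huv, if_pos huv, if_pos huv.symm, xr_antisymm G u v, map_neg, hz.1 u v,
          map_neg, div_neg]
        ring
      · simp only [g]
        rw [if_neg huv, if_neg huv, if_neg (fun h => huv h.symm)]; ring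
    simp_rw [h2, Finset.sum_add_distrib]
    rw [hrel2 z hz, zero_add, Finset.sum_comm]
    exact hrel2 z hz
  obtain ⟨P, hP⟩ := exists_potential hG g hanti horth
  refine ⟨P, y, hy, fun u v huv => ?_⟩
  rw [hP u v huv]
  simp only [g]
  rw [if_pos huv]
  exact mul_div_cancel₀ _ (hx' u v huv)

end Pool.Agent.SAO
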