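import Pool.Agent.SAO.Main5
import Pool.Agent.SAO.Jac

/-!
# The products of the generic flow are algebraically independent
-/

set_option autoImplicit false

namespace Pool.Agent.SAO

open Classical MvPolynomial

variable {V : Type} [Fintype V]

theorem card_of_X_mem {n : ℕ} {K : Type} [Field K] [Algebra ℚ K] [Algebra (MvPolynomial (Fin n) ℚ) K]
    [IsScalarTower ℚ (MvPolynomial (Fin n) ℚ) K] [IsFractionRing (MvPolynomial (Fin n) ℚ) K]
    (t : Finset K) (hX : ∀ i, algebraMap (MvPolynomial (Fin n) ℚ) K (X i) ∈
      IntermediateField.adjoin ℚ (t : Set K)) : n ≤ t.card := by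
  let S : IntermediateField ℚ K := IntermediateField.adjoin ℚ (t : Set K)
  have hC : ∀ c : ℚ, algebraMap (MvPolynomial (Fin n) ℚ) K (C c) ∈ S := by
    intro c
    rw [← MvPolynomial.algebraMap_eq, ← IsScalarTower.algebraMap_apply ℚ _ K]
    exact S.algebraMap_mem c
  have hR : ∀ p : MvPolynomial (Fin n) ℚ, algebraMap (MvPolynomial (Fin n) ℚ) K p ∈ S := by
    intro p
    induction p using MvPolynomial.induction_on with
    | C a => exact hC a
    | add p q hp hq => rw [map_add]; exact S.add_mem hp hq
    | mul_X p i hp => rw [map_mul]; exact S.mul_mem hp (hX i)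
  have hall : ∀ z : K, z ∈ S := by
    intro z
    obtain ⟨a, b, -, hab⟩ := IsFractionRing.div_surjective (A := MvPolynomial (Fin n) ℚ) z
    rw [← hab]
    exact S.div_mem (hR a) (hR b)
  have halg0 : Algebra.IsAlgebraic (IntermediateField.adjoin ℚ (t : Set K)) K :=
    ⟨fun z => isAlgebraic_algebraMap (⟨z, hall z⟩ : IntermediateField.adjoin ℚ (t : Set K))⟩
  have halg : Algebra.IsAlgebraic (Algebra.adjoin ℚ (t : Set K)) K :=
    IntermediateField.isAlgebraic_adjoin_iff_top.1 halg0
  have h1 : Algebra.trdeg ℚ K ≤ Cardinal.mk (t : Set K) :=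
    Algebra.IsAlgebraic.trdeg_le_cardinalMk ℚ (t : Set K)
  have h2 : AlgebraicIndependent ℚ
      (fun i : Fin n => algebraMap (MvPolynomial (Fin n) ℚ) K (X i)) := by
    have h3 := MvPolynomial.algebraicIndependent_X (Fin n) ℚ
    have h4 := h3.map' (f := IsScalarTower.toAlgHom ℚ (MvPolynomial (Fin n) ℚ) K)
      (IsFractionRing.injective (MvPolynomial (Fin n) ℚ) K)
    exact h4
  have h5 := h2.cardinalMk_le_trdeg
  have h6 := h5.trans h1
  rw [Cardinal.mk_fin] at h6
  have h8 : Cardinal.mk (t : Set K) = (t.card : Cardinal) := Cardinal.mk_coe_finset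
  rw [h8] at h6
  exact_mod_cast h6

/-- The generic flow does not lie in a field with few generators. -/
theorem not_few (G : SimpleGraph V) (t : Finset (FractionRing (RG G))) (ht : t.card < rk G)
    (h : ∀ S : IntermediateField ℚ (FractionRing (RG G)), (t : Set (FractionRing (RG G))) ⊆ S →
      ∀ u v, algebraMap (RG G) (FractionRing (RG G)) (xr G u v) ∈ S) : False := by
  have hx := h (IntermediateField.adjoin ℚ (t : Set (FractionRing (RG G))))
    (IntermediateField.subset_adjoin ℚ _)
  have h7 := card_of_X_mem t (fun i => by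
    obtain ⟨c, hc⟩ := X_eq_form G i
    rw [hc, map_sum]
    apply IntermediateField.sum_mem
    intro u _
    rw [map_sum]
    apply IntermediateField.sum_mem
    intro v _
    rw [map_mul]
    apply IntermediateField.mul_mem _ _ (hx u v)
    rw [← MvPolynomial.algebraMap_eq, ← IsScalarTower.algebraMap_apply ℚ (RG G)
      (FractionRing (RG G))]
    exact IntermediateField.algebraMap_mem _ _)
  omega

theorem IsEdgeConnected.conn {G : SimpleGraph V} [Nonempty V] (h5 : G.IsEdgeConnected 5) :
    G.Connected := by
  refine ⟨fun u v => ?_⟩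
  have := h5 u v (s := ∅) (by simp)
  simpa using this

theorem xr_hgen {G : SimpleGraph V} (h5 : G.IsEdgeConnected 5) (c : V → V → ℚ)
    (A : Finset (Sym2 V)) (hA : A.card ≤ 4) (hc : ∀ u v, c u v ≠ 0 → s(u, v) ∈ A)
    (h : ∑ u, ∑ v, algebraMap ℚ (FractionRing (RG G)) (c u v) *
      algebraMap (RG G) (FractionRing (RG G)) (xr G u v) = 0) (a b : V) (hab : G.Adj a b) :
    c a b = c b a := by
  apply form_eq_zero h5 c A hA hc _ a b hab
  intro z hz
  apply xr_generic G c _ z hz
  apply IsFractionRing.injective (RG G) (FractionRing (RG G))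
  rw [map_zero, ← h, map_sum]
  apply Finset.sum_congr rfl
  intro u _
  rw [map_sum]
  apply Finset.sum_congr rfl
  intro v _
  rw [map_mul, ← MvPolynomial.algebraMap_eq,
    ← IsScalarTower.algebraMap_apply ℚ (RG G) (FractionRing (RG G))]

theorem xr_ne_zero {G : SimpleGraph V} (h5 : G.IsEdgeConnected 5) (a b : V) (hab : G.Adj a b) :
    xr G a b ≠ 0 := by
  intro h0
  have h1 := xr_hgen h5 (fun u v => if u = a ∧ v = b then 1 else 0) {s(a, b)} (by simp) (by
    intro u v huv
    by_contra hcon
    apply huv
    rw [if_neg]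
    rintro ⟨rfl, rfl⟩
    exact hcon (Finset.mem_singleton_self _)) (by
    apply Finset.sum_eq_zero
    intro u _
    apply Finset.sum_eq_zero
    intro v _
    by_cases huv : u = a ∧ v = b
    · rw [huv.1, huv.2, h0, map_zero, mul_zero]
    · rw [if_neg huv, map_zero, zero_mul]) a b hab
  beta_reduce at h1
  rw [if_pos ⟨rfl, rfl⟩, if_neg fun hh => hab.ne hh.2] at h1
  exact one_ne_zero h1

/-- The products of the generic flow at the vertices of a five-edge-connected graph which is not
bipartite are algebraically independent. -/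
theorem algInd_of_five {G : SimpleGraph V} [Nonempty V] (h5 : G.IsEdgeConnected 5)
    (hb : ¬ G.IsBipartite) : AlgebraicIndependent ℚ (phr G) := by
  by_contra hind
  obtain ⟨P, y, hy, hker⟩ := exists_kernel G (IsEdgeConnected.conn h5)
    (fun u v huv => xr_ne_zero h5 u v huv) hind
  have hK : KHyp G (fun u v => algebraMap (RG G) (FractionRing (RG G)) (xr G u v)) P y := by
    refine ⟨fun u v => ?_, fun u v huv => ?_, fun u => ?_, fun c A hA hc h a b hab => ?_, hker, h5⟩
    · rw [xr_antisymm, map_neg]
    · rw [xr_of_not_adj G huv, map_zero]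
    · rw [← map_sum, xr_sum, map_zero]
    · exact xr_hgen h5 c A hA hc h a b hab
  by_cases hnt : Nontrivial (lv G P).ConnectedComponent
  · obtain ⟨t, ht1, ht2⟩ := hK.few
    exact not_few G t ht1 ht2
  · rw [not_nontrivial_iff_subsingleton] at hnt
    apply hb
    obtain ⟨r⟩ : Nonempty V := inferInstance
    let c₀ := (lv G P).connectedComponentMk r
    have hc : ∀ v, (lv G P).connectedComponentMk v = c₀ := fun v => Subsingleton.elim _ _
    have hY : Yc G P y c₀ ≠ 0 := by
      intro h0
      apply hy
      funext v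
      rw [hK.y_eq v, hc v, h0, mul_zero]
      rfl
    have hPconst : ∀ u v, P u = P v := by
      intro u v
      rw [hK.P_eq u, hK.P_eq v, hc u, hc v]
    have hs : ∀ u v, G.Adj u v → sg G P y u ≠ sg G P y v := by
      intro u v huv he
      have h1 := hker u v huv
      rw [hPconst u v, sub_self, mul_zero, hK.y_eq u, hK.y_eq v, hc u, hc v, he, ← two_mul] at h1
      have : CharZero (FractionRing (RG G)) := algebraRat.charZero _
      have h2 := (mul_eq_zero.1 h1.symm).resolve_left two_ne_zero
      have h3 := (mul_eq_zero.1 h2).resolve_right hY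
      rw [map_eq_zero] at h3
      rcases sg_cases G P y v with h4 | h4 <;> rw [h4] at h3 <;> norm_num at h3
    refine ⟨SimpleGraph.Coloring.mk (fun v => if sg G P y v = 1 then 0 else 1) ?_⟩
    intro u v huv he
    apply hs u v huv
    rcases sg_cases G P y u with h1 | h1 <;> rcases sg_cases G P y v with h2 | h2 <;>
      rw [h1, h2] at he ⊢ <;> norm_num at he

end Pool.Agent.SAO
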