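import Pool.Agent.SAO.Val2
import Pool.Agent.SAO.Trd

/-!
# Five-edge-connected graphs
-/

set_option autoImplicit false

namespace Pool.Agent.SAO

open Classical

variable {V : Type} [Fintype V]

theorem good_of_five {G : SimpleGraph V} [Nonempty V] (h5 : G.IsEdgeConnected 5)
    (hb : ¬ G.IsBipartite) : Good G ⊤ := by
  have hinj : Function.Injective (algebraMap (RG G) (FractionRing (RG G))) :=
    IsFractionRing.injective (RG G) (FractionRing (RG G))
  apply good_of_algebraicIndependent G
    (fun u v => algebraMap (RG G) (FractionRing (RG G)) (xr G u v))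
  · intro u v
    rw [xr_antisymm, map_neg]
  · intro u v
    constructor
    · intro h
      by_contra hcon
      apply h
      rw [xr_of_not_adj G hcon, map_zero]
    · intro huv h0
      exact xr_ne_zero h5 u v huv (hinj (by rw [h0, map_zero]))
  · intro u
    rw [← map_sum, xr_sum, map_zero]
  · have h1 := (algInd_of_five h5 hb).map'
      (f := IsScalarTower.toAlgHom ℚ (RG G) (FractionRing (RG G))) hinj
    have h2 : (fun v => ∏ w ∈ Finset.univ.filter (fun w => G.Adj v w),
        algebraMap (RG G) (FractionRing (RG G)) (xr G v w)) =
        ⇑(IsScalarTower.toAlgHom ℚ (RG G) (FractionRing (RG G))) ∘ phr G := by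
      funext v
      rw [Function.comp_apply]
      unfold phr
      rw [map_prod]
      rfl
    rw [h2]
    exact h1

/-- A five-edge-connected graph with more than one vertex has an orientation which is both strong
and antistrong if and only if it is not bipartite. -/
theorem five_iff [Nontrivial V] {G : SimpleGraph V} (hG : G.IsEdgeConnected 5) :
    (∃ D : V → V → Prop, IsOrientation G D ∧ IsStrong D ∧ IsAntistrong D) ↔ ¬ G.IsBipartite := by
  constructor
  · rintro ⟨D, h1, -, h3⟩ hb
    exact not_antistrong_of_bipartite hb h1 h3
  · intro hb
    apply Good.sa _ (IsEdgeConnected.conn hG) (good_of_five hG hb)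
    obtain ⟨u⟩ : Nonempty V := inferInstance
    have hdeg := SimpleGraph.IsEdgeConnected.le_degree (u := u) hG
    have := G.degree_lt_card_verts u
    omega

end Pool.Agent.SAO
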