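import Pool.Agent.SAO.Six

/-!
# Definitions for the five-edge-connected case
-/

set_option autoImplicit false

namespace Pool.Agent.SAO

open Classical

variable {V : Type}

/-- every cut which has an arc leaving has an arc entering -/
def CutCyclic (D : V → V → Prop) : Prop :=
  ∀ X : Set V, (∃ u ∈ X, ∃ v ∉ X, D u v) → ∃ u ∉ X, ∃ v ∈ X, D u v

/-- the kernel of the orientation is trivial on `N` -/
def KerTriv (D : V → V → Prop) (N : Submodule ℚ (V → ℚ)) : Prop :=
  ∀ y ∈ N, ∀ p : V → ℚ, (∀ u v, D u v → p v - p u = y u + y v) → y = 0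

/-- the sum of `deg_H u * y u` over all vertices -/
noncomputable def dg [Fintype V] (H : SimpleGraph V) : (V → ℚ) →ₗ[ℚ] ℚ :=
  ∑ u : V, ∑ v : V, if H.Adj u v then LinearMap.proj u else 0

/-- there is a totally cyclic orientation whose kernel is trivial on `N` -/
def Good (H : SimpleGraph V) (N : Submodule ℚ (V → ℚ)) : Prop :=
  ∃ D : V → V → Prop, IsOrientation H D ∧ CutCyclic D ∧ KerTriv D N

/-
Targets.

theorem Good.step [Fintype V] {H' H : SimpleGraph V} (hle : H' ≤ H) (hb : Bridgeless H)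
    (N : Submodule ℚ (V → ℚ)) (hg : Good H' (N ⊓ LinearMap.ker (dg H - dg H'))) : Good H N

theorem Good.sa [Fintype V] {G : SimpleGraph V} (hV : 3 ≤ Fintype.card V) (hc : G.Connected)
    (h : Good G ⊤) : ∃ D : V → V → Prop, IsOrientation G D ∧ IsStrong D ∧ IsAntistrong D

theorem good_of_algebraicIndependent [Fintype V] (G : SimpleGraph V) {L : Type} [Field L]
    [Algebra ℚ L] (x : V → V → L) (h1 : ∀ u v, x v u = - x u v)
    (h2 : ∀ u v, x u v ≠ 0 ↔ G.Adj u v) (h3 : ∀ u, ∑ v, x u v = 0)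
    (h4 : AlgebraicIndependent ℚ (fun v => ∏ w ∈ Finset.univ.filter (fun w => G.Adj v w), x v w)) :
    Good G ⊤
-/

end Pool.Agent.SAO
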