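import Pool.Agent.SAO.FiveDefs

/-!
# Circulations and the generic circulation
-/

set_option autoImplicit false

namespace Pool.Agent.SAO

open Classical

variable {V : Type} [Fintype V]

/-- the space of circulations of `G` over the rationals -/
def Circ (G : SimpleGraph V) : Submodule ℚ (V → V → ℚ) where
  carrier := {z | (∀ u v, z v u = - z u v) ∧ (∀ u v, ¬ G.Adj u v → z u v = 0) ∧
    ∀ u, ∑ v, z u v = 0}
  zero_mem' := by simp
  add_mem' := by
    rintro a b ⟨h1, h2, h3⟩ ⟨k1, k2, k3⟩
    refine ⟨fun u v => ?_, fun u v h => ?_, fun u => ?_⟩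
    · simp only [Pi.add_apply]
      rw [h1, k1]; ring
    · simp only [Pi.add_apply]
      rw [h2 u v h, k2 u v h]; ring
    · simp only [Pi.add_apply]
      rw [Finset.sum_add_distrib, h3, k3]; ring
  smul_mem' := by
    rintro c a ⟨h1, h2, h3⟩
    refine ⟨fun u v => ?_, fun u v h => ?_, fun u => ?_⟩
    · simp only [Pi.smul_apply, smul_eq_mul]
      rw [h1]; ring
    · simp only [Pi.smul_apply, smul_eq_mul]
      rw [h2 u v h]; ring
    · simp only [Pi.smul_apply, smul_eq_mul]
      rw [← Finset.mul_sum, h3]; ring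

theorem mem_Circ {G : SimpleGraph V} {z : V → V → ℚ} : z ∈ Circ G ↔
    (∀ u v, z v u = - z u v) ∧ (∀ u v, ¬ G.Adj u v → z u v = 0) ∧ ∀ u, ∑ v, z u v = 0 :=
  Iff.rfl

/-- the flow of a walk -/
noncomputable def wf {G : SimpleGraph V} {u v : V} : G.Walk u v → V → V → ℚ
  | SimpleGraph.Walk.nil => fun _ _ => 0
  | @SimpleGraph.Walk.cons _ _ u' v' _ _ p => fun a b =>
      (if a = u' ∧ b = v' then 1 else 0) - (if a = v' ∧ b = u' then 1 else 0) + wf p a b

theorem wf_antisymm {G : SimpleGraph V} {u v : V} (p : G.Walk u v) (a b : V) :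
    wf p b a = - wf p a b := by
  induction p with
  | nil => simp [wf]
  | cons h p ih =>
    simp only [wf]
    rw [ih]
    have : ∀ c d : V, (if b = c ∧ a = d then (1 : ℚ) else 0) = if a = d ∧ b = c then 1 else 0 :=
      fun c d => if_congr and_comm rfl rfl
    rw [this, this]
    ring

theorem wf_sum {G : SimpleGraph V} {u v : V} (p : G.Walk u v) (a : V) :
    ∑ b, wf p a b = (if a = u then 1 else 0) - (if a = v then 1 else 0) := by
  induction p with
  | nil => simp [wf]
  | @cons u' v' w' h p ih =>
    simp only [wf]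
    rw [Finset.sum_add_distrib, ih, Finset.sum_sub_distrib]
    have : ∀ c d : V, ∑ b, (if a = c ∧ b = d then (1 : ℚ) else 0) = if a = c then 1 else 0 := by
      intro c d
      by_cases h : a = c
      · simp [h]
      · simp [h]
    rw [this, this]
    ring

theorem wf_of_notMem {G : SimpleGraph V} {u v : V} (p : G.Walk u v) (a b : V)
    (h : s(a, b) ∉ p.edges) : wf p a b = 0 := by
  induction p with
  | nil => rfl
  | @cons u' v' w' hh p ih =>
    simp only [wf]
    rw [SimpleGraph.Walk.edges_cons, List.mem_cons] at h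
    push Not at h
    rw [ih h.2, if_neg, if_neg]
    · ring
    · rintro ⟨rfl, rfl⟩
      exact h.1 Sym2.eq_swap
    · rintro ⟨rfl, rfl⟩
      exact h.1 rfl

theorem wf_mem_Circ {G H : SimpleGraph V} {u : V} (p : H.Walk u u) (hH : H ≤ G) : wf p ∈ Circ G := by
  refine ⟨fun a b => wf_antisymm p a b, fun a b h => wf_of_notMem p a b fun h' => ?_, fun a => ?_⟩
  · exact h (hH (p.adj_of_mem_edges h'))
  · rw [wf_sum]; ring

/-- A linear form with at most four coefficients which vanishes on all circulations of a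
five-edge-connected graph is zero. -/
theorem form_eq_zero {G : SimpleGraph V} (hG : G.IsEdgeConnected 5) (c : V → V → ℚ)
    (A : Finset (Sym2 V)) (hA : A.card ≤ 4) (hc : ∀ u v, c u v ≠ 0 → s(u, v) ∈ A)
    (h : ∀ z ∈ Circ G, ∑ u, ∑ v, c u v * z u v = 0) (a b : V) (hab : G.Adj a b) :
    c a b = c b a := by
  by_contra hne
  have hmem : s(a, b) ∈ A := by
    by_contra h'
    apply hne
    have h1 : c a b = 0 := by
      by_contra h2
      exact h' (hc _ _ h2)
    have h3 : c b a = 0 := by
      by_contra h2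
      exact h' (by rw [Sym2.eq_swap]; exact hc _ _ h2)
    rw [h1, h3]
  have hr := hG b a (s := (A : Set (Sym2 V))) (by
    rw [Set.encard_coe_eq_coe_finsetCard]
    have : A.card < 5 := by omega
    exact_mod_cast this)
  obtain ⟨p⟩ := hr
  have hle : G.deleteEdges (A : Set (Sym2 V)) ≤ G := SimpleGraph.deleteEdges_le _
  let p' : G.Walk b a := p.mapLe hle
  have hp' : ∀ e ∈ p'.edges, e ∉ A := by
    intro e he
    have he' : e ∈ p.edges := by simpa [p'] using he
    have := p.edges_subset_edgeSet he'
    rw [SimpleGraph.edgeSet_deleteEdges] at this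
    exact this.2
  have hz := h (wf (SimpleGraph.Walk.cons hab p')) (wf_mem_Circ _ le_rfl)
  have hval : ∀ u v, c u v * wf (SimpleGraph.Walk.cons hab p') u v =
      c u v * ((if u = a ∧ v = b then 1 else 0) - (if u = b ∧ v = a then 1 else 0)) := by
    intro u v
    by_cases hcu : c u v = 0
    · rw [hcu]; ring
    · have : wf p' u v = 0 := wf_of_notMem p' u v fun h1 => hp' _ h1 (hc u v hcu)
      simp only [wf]
      rw [this]; ring
  simp_rw [hval, mul_sub] at hz
  simp_rw [Finset.sum_sub_distrib] at hz
  have hs : ∀ x y : V, ∑ u, ∑ v, c u v * (if u = x ∧ v = y then (1 : ℚ) else 0) = c x y := by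
    intro x y
    rw [Finset.sum_eq_single x, Finset.sum_eq_single y]
    · simp
    · intro v _ hv
      simp [hv]
    · simp
    · intro u _ hu
      simp [hu]
    · simp
  rw [hs, hs] at hz
  exact hne (by linarith)

end Pool.Agent.SAO
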