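import Pool.Agent.SAO.Defs

/-!
# Orientations of mixed graphs
-/

set_option autoImplicit false

namespace Pool.Agent.SAO

variable {V : Type}

/-- every nonempty proper set has an exit -/
def CutStrong (D : V → V → Prop) : Prop :=
  ∀ X : Set V, X.Nonempty → X ≠ Set.univ → ∃ u ∈ X, ∃ v ∉ X, D u v

theorem CutStrong.isStrong {D : V → V → Prop} (h : CutStrong D) : IsStrong D := by
  intro x
  by_contra hne
  push Not at hne
  obtain ⟨y, hy⟩ := hne
  obtain ⟨u, hu, v, hv, huv⟩ := h {z | Relation.ReflTransGen D x z} ⟨x, Relation.ReflTransGen.refl⟩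
    (fun h => hy (by have : y ∈ {z | Relation.ReflTransGen D x z} := h ▸ Set.mem_univ y
                     exact this))
  exact hv (Relation.ReflTransGen.tail hu huv)

/-- every edge in a cut is accompanied by another edge in this cut -/
def Bridgeless (G : SimpleGraph V) : Prop :=
  ∀ X : Set V, ∀ u ∈ X, ∀ v ∉ X, G.Adj u v → ∃ a ∈ X, ∃ b ∉ X, G.Adj a b ∧ (a, b) ≠ (u, v)

/-- A strongly connected mixed graph without bridges has a strong orientation. -/
theorem orient [Finite V] (G : SimpleGraph V) (hG : Bridgeless G) :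
    ∀ (n : ℕ) (M : V → V → Prop), {p : V × V | M p.1 p.2 ∧ M p.2 p.1}.ncard ≤ n →
    (∀ u v, M u v → G.Adj u v) → (∀ u v, G.Adj u v → M u v ∨ M v u) → CutStrong M →
    ∃ D : V → V → Prop, (∀ u v, D u v → M u v) ∧ IsOrientation G D ∧ CutStrong D := by
  intro n
  induction n with
  | zero =>
    intro M hn h1 h2 h3
    have hemp : {p : V × V | M p.1 p.2 ∧ M p.2 p.1} = ∅ := by
      rw [← Set.ncard_eq_zero (Set.toFinite _)]; omega
    refine ⟨M, fun u v h => h, ⟨h1, fun u v huv => ⟨fun hM hM' => ?_, fun hM => ?_⟩⟩, h3⟩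
    · have : (u, v) ∈ {p : V × V | M p.1 p.2 ∧ M p.2 p.1} := ⟨hM, hM'⟩
      rw [hemp] at this
      exact this
    · exact (h2 u v huv).resolve_right hM
  | succ n ih =>
    intro M hn h1 h2 h3
    by_cases hex : ∃ u v, M u v ∧ M v u
    · obtain ⟨u, v, huv, hvu⟩ := hex
      have hne : u ≠ v := (h1 u v huv).ne
      -- remove one direction
      have key : ∀ a b : V, M a b → M b a → a ≠ b →
          CutStrong (fun x y => M x y ∧ (x, y) ≠ (a, b)) →
          ∃ D : V → V → Prop, (∀ u v, D u v → M u v) ∧ IsOrientation G D ∧ CutStrong D := by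
        intro a b hab hba hne' hcut
        have g1 : {p : V × V | (M p.1 p.2 ∧ (p.1, p.2) ≠ (a, b)) ∧
              (M p.2 p.1 ∧ (p.2, p.1) ≠ (a, b))}.ncard ≤ n := by
          have hsub : {p : V × V | (M p.1 p.2 ∧ (p.1, p.2) ≠ (a, b)) ∧
              (M p.2 p.1 ∧ (p.2, p.1) ≠ (a, b))} ⊆
              {p : V × V | M p.1 p.2 ∧ M p.2 p.1} \ {(a, b)} := by
            rintro ⟨x, y⟩ ⟨⟨p1, p2⟩, p3, p4⟩
            exact ⟨⟨p1, p3⟩, p2⟩
          have hle := Set.ncard_le_ncard hsub (Set.toFinite _)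
          have hmem : (a, b) ∈ {p : V × V | M p.1 p.2 ∧ M p.2 p.1} := ⟨hab, hba⟩
          have := Set.ncard_diff_singleton_add_one hmem (Set.toFinite _)
          omega
        have g2 : ∀ x y : V, G.Adj x y →
            (M x y ∧ (x, y) ≠ (a, b)) ∨ (M y x ∧ (y, x) ≠ (a, b)) := by
          intro x y hxy
          by_cases e1 : (x, y) = (a, b)
          · right
            simp only [Prod.mk.injEq] at e1
            obtain ⟨rfl, rfl⟩ := e1
            refine ⟨hba, fun e => ?_⟩
            simp only [Prod.mk.injEq] at e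
            exact hne' e.1.symm
          · by_cases e2 : (y, x) = (a, b)
            · left
              simp only [Prod.mk.injEq] at e2
              obtain ⟨rfl, rfl⟩ := e2
              exact ⟨hba, e1⟩
            · rcases h2 x y hxy with h | h
              · exact Or.inl ⟨h, e1⟩
              · exact Or.inr ⟨h, e2⟩
        obtain ⟨D, hD1, hD2, hD3⟩ := ih (fun x y => M x y ∧ (x, y) ≠ (a, b)) g1
          (fun x y h => h1 x y h.1) g2 hcut
        exact ⟨D, fun x y h => (hD1 x y h).1, hD2, hD3⟩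
      by_cases c1 : CutStrong (fun x y => M x y ∧ (x, y) ≠ (u, v))
      · exact key u v huv hvu hne c1
      by_cases c2 : CutStrong (fun x y => M x y ∧ (x, y) ≠ (v, u))
      · exact key v u hvu huv hne.symm c2
      exfalso
      unfold CutStrong at c1 c2
      push Not at c1 c2
      obtain ⟨X, hXn, hXu, hX⟩ := c1
      obtain ⟨Y, hYn, hYu, hY⟩ := c2
      -- the only exit of `X` is `(u, v)`
      have eX : ∀ a ∈ X, ∀ b ∉ X, M a b → a = u ∧ b = v := by
        intro a ha b hb hab
        by_contra hcon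
        have e := hX a ha b hb hab
        exact hcon (by simpa [Prod.mk.injEq] using e)
      have eY : ∀ a ∈ Y, ∀ b ∉ Y, M a b → a = v ∧ b = u := by
        intro a ha b hb hab
        by_contra hcon
        have e := hY a ha b hb hab
        exact hcon (by simpa [Prod.mk.injEq] using e)
      obtain ⟨a₁, ha₁, b₁, hb₁, h₁⟩ := h3 X hXn hXu
      have e₁ := eX a₁ ha₁ b₁ hb₁ h₁
      rw [e₁.1] at ha₁ h₁
      rw [e₁.2] at hb₁ h₁
      obtain ⟨a₂, ha₂, b₂, hb₂, h₂⟩ := h3 Y hYn hYu
      have e₂ := eY a₂ ha₂ b₂ hb₂ h₂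
      rw [e₂.1] at ha₂
      rw [e₂.2] at hb₂
      -- now `u ∈ X`, `v ∉ X`, `v ∈ Y`, `u ∉ Y`
      have hI : X ∩ Y = ∅ := by
        by_contra hne'
        obtain ⟨a, ⟨ha, ha'⟩, b, hb, hab⟩ := h3 (X ∩ Y) (Set.nonempty_iff_ne_empty.2 hne')
          (fun h => hb₁ ((h ▸ Set.mem_univ v : v ∈ X ∩ Y)).1)
        by_cases hbX : b ∈ X
        · have hbY : b ∉ Y := fun h => hb ⟨hbX, h⟩
          exact hb₁ ((eY a ha' b hbY hab).1 ▸ ha)
        · exact hb₂ ((eX a ha b hbX hab).1 ▸ ha')
      have hU : X ∪ Y = Set.univ := by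
        by_contra hne'
        obtain ⟨a, ha, b, hb, hab⟩ := h3 (X ∪ Y) ⟨u, Or.inl ha₁⟩ hne'
        have hbX : b ∉ X := fun h => hb (Or.inl h)
        have hbY : b ∉ Y := fun h => hb (Or.inr h)
        rcases ha with ha | ha
        · exact hbY ((eX a ha b hbX hab).2 ▸ ha₂)
        · exact hbX ((eY a ha b hbY hab).2 ▸ ha₁)
      obtain ⟨a, ha, b, hb, hadj, hneq⟩ := hG X u ha₁ v hb₁ (h1 _ _ h₁)
      have hbY : b ∈ Y := by
        have : b ∈ X ∪ Y := hU ▸ Set.mem_univ b
        exact this.resolve_left hb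
      have haY : a ∉ Y := fun h => by
        have : a ∈ X ∩ Y := ⟨ha, h⟩
        rw [hI] at this
        exact this
      rcases h2 a b hadj with h | h
      · obtain ⟨rfl, rfl⟩ := eX a ha b hb h
        exact hneq rfl
      · obtain ⟨rfl, rfl⟩ := eY b hbY a haY h
        exact hneq rfl
    · refine ih M ?_ h1 h2 h3
      have hemp : {p : V × V | M p.1 p.2 ∧ M p.2 p.1} = ∅ := by
        ext ⟨x, y⟩
        simp only [Set.mem_ofPred_eq, Set.mem_empty_iff_false, iff_false]
        exact fun h => hex ⟨x, y, h⟩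
      rw [hemp]
      simp

end Pool.Agent.SAO
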