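import Pool.Agent.SAO.Defs

/-!
# Antidirected trails and the bipartite representation
-/

set_option autoImplicit false

namespace Pool.Agent.SAO

variable {V : Type}

/-- the bipartite representation is connected -/
def BConn (D : V → V → Prop) : Prop :=
  ∀ A B : Set V, (∀ u v, D u v → (u ∈ A ↔ v ∈ B)) → A.Nonempty → B = Set.univ

/-- the bipartite representation -/
def BG (D : V → V → Prop) : SimpleGraph (V ⊕ V) where
  Adj p q := (∃ u v, p = Sum.inl u ∧ q = Sum.inr v ∧ D u v) ∨
    ∃ u v, q = Sum.inl u ∧ p = Sum.inr v ∧ D u v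
  symm := ⟨fun p q h => h.symm⟩
  loopless := ⟨by
    rintro p (⟨u, v, h1, h2, -⟩ | ⟨u, v, h1, h2, -⟩) <;> rw [h1] at h2 <;> cases h2⟩

/-- the vertex of a copy -/
def vtx : V ⊕ V → V
  | Sum.inl u => u
  | Sum.inr u => u

theorem antistrong_of_BConn [Fintype V] {D : V → V → Prop} (hV : 3 ≤ Fintype.card V)
    (h : BConn D) : IsAntistrong D := by
  refine ⟨hV, fun x y _ => ?_⟩
  have hr : (BG D).Reachable (Sum.inl x) (Sum.inr y) := by
    have := h {u | (BG D).Reachable (Sum.inl x) (Sum.inl u)}
      {v | (BG D).Reachable (Sum.inl x) (Sum.inr v)} (fun u v huv => ?_) ⟨x, by simp⟩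
    · have hy : y ∈ {v | (BG D).Reachable (Sum.inl x) (Sum.inr v)} := this ▸ Set.mem_univ y
      exact hy
    · have hadj : (BG D).Adj (Sum.inl u) (Sum.inr v) := Or.inl ⟨u, v, rfl, rfl, huv⟩
      exact ⟨fun h => h.trans hadj.reachable, fun h => h.trans hadj.symm.reachable⟩
  obtain ⟨p, hp⟩ := hr.exists_isPath
  -- the parity of the copies
  have hpar : ∀ i ≤ p.length, (Even i → ∃ u, p.getVert i = Sum.inl u) ∧
      (¬ Even i → ∃ u, p.getVert i = Sum.inr u) := by
    intro i
    induction i with
    | zero => exact fun _ => ⟨fun _ => ⟨x, by simp⟩, fun h => absurd Even.zero h⟩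
    | succ i ih =>
      intro hi
      obtain ⟨h1, h2⟩ := ih (by omega)
      have hadj := p.adj_getVert_succ (show i < p.length by omega)
      refine ⟨fun he => ?_, fun he => ?_⟩
      · have : ¬ Even i := by rw [Nat.even_add_one] at he; exact he
        obtain ⟨u, hu⟩ := h2 this
        rcases hadj with ⟨a, b, h3, h4, -⟩ | ⟨a, b, h3, h4, -⟩
        · rw [hu] at h3; cases h3
        · exact ⟨a, h3⟩
      · have : Even i := by rw [Nat.even_add_one, not_not] at he; exact he
        obtain ⟨u, hu⟩ := h1 this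
        rcases hadj with ⟨a, b, h3, h4, -⟩ | ⟨a, b, h3, h4, -⟩
        · exact ⟨b, h4⟩
        · rw [hu] at h4; cases h4
  have hlen : ¬ Even p.length := by
    intro he
    obtain ⟨u, hu⟩ := (hpar p.length le_rfl).1 he
    rw [p.getVert_length] at hu
    cases hu
  obtain ⟨m, hm⟩ : ∃ m, p.length = 2 * m + 1 := by
    rw [Nat.not_even_iff_odd] at hlen
    exact hlen
  -- the arcs
  have harc : ∀ i ≤ 2 * m, ∃ a b : V, arc (fun j => vtx (p.getVert j)) i = (a, b) ∧ D a b ∧
      p.getVert (if Even i then i else i + 1) = Sum.inl a ∧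
      p.getVert (if Even i then i + 1 else i) = Sum.inr b := by
    intro i hi
    have hadj := p.adj_getVert_succ (show i < p.length by omega)
    by_cases he : Even i
    · obtain ⟨u, hu⟩ := (hpar i (by omega)).1 he
      rcases hadj with ⟨a, b, h3, h4, h5⟩ | ⟨a, b, h3, h4, h5⟩
      · refine ⟨a, b, ?_, h5, ?_, ?_⟩
        · simp only [arc, if_pos he, h3, h4, vtx]
        · rw [if_pos he, h3]
        · rw [if_pos he, h4]
      · rw [hu] at h4; cases h4
    · obtain ⟨u, hu⟩ := (hpar i (by omega)).2 he
      rcases hadj with ⟨a, b, h3, h4, h5⟩ | ⟨a, b, h3, h4, h5⟩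
      · rw [hu] at h3; cases h3
      · refine ⟨a, b, ?_, h5, ?_, ?_⟩
        · simp only [arc, if_neg he, h3, h4, vtx]
        · rw [if_neg he, h3]
        · rw [if_neg he, h4]
  refine ⟨fun j => vtx (p.getVert j), m, by simp [vtx], ?_, ?_, ?_⟩
  · have : p.getVert (2 * m + 1) = Sum.inr y := by rw [← hm]; exact p.getVert_length
    simp only [this, vtx]
  · intro i hi
    obtain ⟨a, b, h1, h2, -, -⟩ := harc i hi
    rw [h1]
    exact h2
  · intro i hi j hj hij
    obtain ⟨a, b, h1, -, h3, h4⟩ := harc i hi
    obtain ⟨a', b', h1', -, h3', h4'⟩ := harc j hj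
    rw [h1, h1', Prod.mk.injEq] at hij
    obtain ⟨rfl, rfl⟩ := hij
    have hinj := hp.getVert_injOn
    have e1 : (if Even i then i else i + 1) = if Even j then j else j + 1 := by
      apply hinj
      · simp only [Set.mem_ofPred_eq]; split_ifs <;> omega
      · simp only [Set.mem_ofPred_eq]; split_ifs <;> omega
      · rw [h3, h3']
    have e2 : (if Even i then i + 1 else i) = if Even j then j + 1 else j := by
      apply hinj
      · simp only [Set.mem_ofPred_eq]; split_ifs <;> omega
      · simp only [Set.mem_ofPred_eq]; split_ifs <;> omega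
      · rw [h4, h4']
    split_ifs at e1 e2 <;> omega

/-- A bipartite graph has no antistrong orientation. -/
theorem not_antistrong_of_bipartite [Fintype V] {G : SimpleGraph V} (hG : G.IsBipartite)
    {D : V → V → Prop} (hD : IsOrientation G D) : ¬ IsAntistrong D := by
  rintro ⟨hV, h⟩
  obtain ⟨C⟩ := hG
  -- two vertices with the same colour
  obtain ⟨x, y, hxy, hc⟩ : ∃ x y : V, x ≠ y ∧ C x = C y := by
    by_contra hcon
    push Not at hcon
    have hinj : Function.Injective C := fun x y hxy => by
      by_contra hne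
      exact hcon x y hne hxy
    have := Fintype.card_le_of_injective C hinj
    simp at this
    omega
  obtain ⟨v, m, h0, h1, h2, -⟩ := h x y hxy
  have hadj : ∀ i ≤ 2 * m, G.Adj (v i) (v (i + 1)) := by
    intro i hi
    have := h2 i hi
    unfold arc at this
    split_ifs at this with he
    · exact hD.adj _ _ this
    · exact (hD.adj _ _ this).symm
  have hne : ∀ i ≤ 2 * m, C (v i) ≠ C (v (i + 1)) := fun i hi => C.valid (hadj i hi)
  have hfin : ∀ a b c : Fin 2, a ≠ b → b ≠ c → a = c := by decide
  have hkey : ∀ i ≤ m, C (v (2 * i + 1)) ≠ C (v 0) := by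
    intro i
    induction i with
    | zero => exact fun _ => (hne 0 (by omega)).symm
    | succ i ih =>
      intro hi
      have a1 := hne (2 * i + 1) (by omega)
      have a2 := hne (2 * i + 2) (by omega)
      have a3 := hfin _ _ _ a1 a2
      have : 2 * (i + 1) + 1 = 2 * i + 2 + 1 := by ring
      rw [this, ← a3]
      exact ih (by omega)
  apply hkey m le_rfl
  rw [h0, h1, hc]

end Pool.Agent.SAO
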