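import Pool.Agent.SAO.Rank
import Pool.Agent.SAO.Orient
import Pool.Agent.SAO.Trail

/-!
# Graphs with an orientation which is both strong and antistrong
-/

set_option autoImplicit false

namespace Pool.Agent.SAO

open Module Classical

variable {V : Type} [Fintype V]

/-- the functional with given values -/
noncomputable def Phi (x a b : V → ZMod 2) : Dual (ZMod 2) (WW V) where
  toFun w := ∑ u, w.1 u * x u + (∑ u, w.2.1 u * a u + ∑ u, w.2.2 u * b u)
  map_add' w w' := by
    simp only [Prod.fst_add, Prod.snd_add, Pi.add_apply, add_mul, Finset.sum_add_distrib]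
    ring
  map_smul' r w := by
    simp only [Prod.smul_fst, Prod.smul_snd, Pi.smul_apply, smul_eq_mul, mul_assoc,
      ← Finset.mul_sum, RingHom.id_apply]
    ring

theorem fx_Phi (x a b : V → ZMod 2) (u : V) : fx (Phi x a b) u = x u := by
  simp [fx, Phi, Pi.single_apply]

theorem fa_Phi (x a b : V → ZMod 2) (u : V) : fa (Phi x a b) u = a u := by
  simp [fa, Phi, Pi.single_apply]

theorem fb_Phi (x a b : V → ZMod 2) (u : V) : fb (Phi x a b) u = b u := by
  simp [fb, Phi, Pi.single_apply]

/-- the space of functionals that vanish on the vectors of `I` -/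
noncomputable def ann (I : Finset (El V)) : Submodule (ZMod 2) (Dual (ZMod 2) (WW V)) :=
  (Submodule.span (ZMod 2) (vec '' (I : Set (El V)))).dualAnnihilator

theorem mem_ann {I : Finset (El V)} {φ : Dual (ZMod 2) (WW V)} :
    φ ∈ ann I ↔ ∀ z ∈ I, φ (vec z) = 0 := by
  unfold ann
  rw [Submodule.mem_dualAnnihilator]
  constructor
  · exact fun h z hz => h _ (Submodule.subset_span ⟨z, hz, rfl⟩)
  · intro h w hw
    have hle : Submodule.span (ZMod 2) (vec '' (I : Set (El V))) ≤ LinearMap.ker φ := by
      rw [Submodule.span_le]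
      rintro _ ⟨z, hz, rfl⟩
      exact h z hz
    exact hle hw

theorem Phi_mem_ann {I : Finset (El V)} {x a b : V → ZMod 2}
    (hx : ∀ u v, Sum.inl s(u, v) ∈ I → x u = x v) (hab : ∀ u v, Sum.inr (u, v) ∈ I → a u = b v) :
    Phi x a b ∈ ann I := by
  rw [mem_ann]
  have hz : ∀ t : ZMod 2, t + t = 0 := by decide
  rintro (e | ⟨u, v⟩) hz'
  · induction e using Sym2.ind with
    | h u v =>
      rw [phi_inl, fx_Phi, fx_Phi, hx u v hz']
      exact hz _
  · rw [phi_inr, fa_Phi, fb_Phi, hab u v hz']
    exact hz _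

/-- If the space of functionals has dimension two, then the solutions are constant. -/
theorem const_of_finrank [Nonempty V] {I : Finset (El V)} (hI : finrank (ZMod 2) (ann I) = 2)
    {x a b : V → ZMod 2} (hx : ∀ u v, Sum.inl s(u, v) ∈ I → x u = x v)
    (hab : ∀ u v, Sum.inr (u, v) ∈ I → a u = b v) :
    (∃ c, ∀ u, x u = c) ∧ ∃ c, ∀ u, a u = c ∧ b u = c := by
  let φ₁ : Dual (ZMod 2) (WW V) := Phi (fun _ => 1) (fun _ => 0) (fun _ => 0)
  let φ₂ : Dual (ZMod 2) (WW V) := Phi (fun _ => 0) (fun _ => 1) (fun _ => 1)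
  have h1 : φ₁ ∈ ann I := Phi_mem_ann (fun _ _ _ => rfl) (fun _ _ _ => rfl)
  have h2 : φ₂ ∈ ann I := Phi_mem_ann (fun _ _ _ => rfl) (fun _ _ _ => rfl)
  have hfx : ∀ (r s : ZMod 2) (u : V), fx (r • φ₁ + s • φ₂) u = r := by
    intro r s u
    have e1 := fx_Phi (fun _ : V => (1 : ZMod 2)) (fun _ => 0) (fun _ => 0) u
    have e2 := fx_Phi (fun _ : V => (0 : ZMod 2)) (fun _ => 1) (fun _ => 1) u
    unfold fx at e1 e2 ⊢
    simp only [LinearMap.add_apply, LinearMap.smul_apply, φ₁, φ₂, e1, e2, smul_eq_mul]
    ring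
  have hfa : ∀ (r s : ZMod 2) (u : V), fa (r • φ₁ + s • φ₂) u = s := by
    intro r s u
    have e1 := fa_Phi (fun _ : V => (1 : ZMod 2)) (fun _ => 0) (fun _ => 0) u
    have e2 := fa_Phi (fun _ : V => (0 : ZMod 2)) (fun _ => 1) (fun _ => 1) u
    unfold fa at e1 e2 ⊢
    simp only [LinearMap.add_apply, LinearMap.smul_apply, φ₁, φ₂, e1, e2, smul_eq_mul]
    ring
  have hfb : ∀ (r s : ZMod 2) (u : V), fb (r • φ₁ + s • φ₂) u = s := by
    intro r s u
    have e1 := fb_Phi (fun _ : V => (1 : ZMod 2)) (fun _ => 0) (fun _ => 0) u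
    have e2 := fb_Phi (fun _ : V => (0 : ZMod 2)) (fun _ => 1) (fun _ => 1) u
    unfold fb at e1 e2 ⊢
    simp only [LinearMap.add_apply, LinearMap.smul_apply, φ₁, φ₂, e1, e2, smul_eq_mul]
    ring
  have hli : LinearIndependent (ZMod 2) ![φ₁, φ₂] := by
    rw [LinearIndependent.pair_iff]
    intro r s hrs
    obtain ⟨u⟩ := ‹Nonempty V›
    have g1 := hfx r s u
    have g2 := hfa r s u
    rw [hrs] at g1 g2
    unfold fx at g1
    unfold fa at g2
    simp only [LinearMap.zero_apply] at g1 g2
    exact ⟨g1.symm, g2.symm⟩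
  have hspan : Submodule.span (ZMod 2) (Set.range ![φ₁, φ₂]) = ann I := by
    apply Submodule.eq_of_le_of_finrank_eq
    · rw [Submodule.span_le]
      rintro _ ⟨i, rfl⟩
      fin_cases i
      · exact h1
      · exact h2
    · rw [finrank_span_eq_card hli, hI]
      simp
  have hmem := Phi_mem_ann hx hab
  rw [← hspan, Matrix.range_cons, Matrix.range_cons, Matrix.range_empty, Set.union_empty,
    Set.singleton_union, Submodule.mem_span_pair] at hmem
  obtain ⟨r, s, hrs⟩ := hmem
  refine ⟨⟨r, fun u => ?_⟩, ⟨s, fun u => ⟨?_, ?_⟩⟩⟩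
  · rw [← fx_Phi x a b u, ← hrs, hfx]
  · rw [← fa_Phi x a b u, ← hrs, hfa]
  · rw [← fb_Phi x a b u, ← hrs, hfb]

/-- The condition. -/
def Rich (G : SimpleGraph V) : Prop :=
  ∀ H ≤ G, 2 * numComp H + numBip H ≤ (G.edgeSet \ H.edgeSet).ncard + 2

/-- The tree and the antistrong part, by the matroid intersection theorem. -/
theorem exists_I [Nonempty V] {G : SimpleGraph V} (hG : Rich G) :
    ∃ I : Finset (El V), (∀ z ∈ I, edg z ∈ G.edgeSet) ∧ Set.InjOn edg (I : Set (El V)) ∧
      finrank (ZMod 2) (ann I) = 2 := by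
  let E : Finset (El V) := Finset.univ.filter (fun z => edg z ∈ G.edgeSet)
  have hn : 0 < Fintype.card V := Fintype.card_pos
  obtain ⟨I, hIE, hc, h1, h2⟩ := intersection E (vrk (K := ZMod 2) vec)
    (fun A => (A.image edg).card) (3 * Fintype.card V - 2) (vrk_rankFn _) (card_image_rankFn _) (by
      intro A hA
      let H : SimpleGraph V :=
        { Adj := fun u v => G.Adj u v ∧ Sum.inl s(u, v) ∈ A ∧ Sum.inr (u, v) ∈ A ∧
            Sum.inr (v, u) ∈ A
          symm := ⟨fun u v h => ⟨h.1.symm, by rw [Sym2.eq_swap]; exact h.2.1, h.2.2.2, h.2.2.1⟩⟩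
          loopless := ⟨fun u h => G.loopless.irrefl u h.1⟩ }
      have hHG : H ≤ G := fun u v h => h.1
      have hr1 := vrk_add (K := ZMod 2) (vec (V := V)) A
      rw [finrank_WW] at hr1
      have hann : finrank (ZMod 2)
          (Submodule.span (ZMod 2) (vec '' (A : Set (El V)))).dualAnnihilator ≤
          2 * numComp H + numBip H := by
        apply finrank_ann_le H
        · intro φ hφ u v huv
          rw [← phi_inl]
          exact (mem_ann (I := A)).1 hφ _ huv.2.1
        · intro φ hφ u v huv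
          rw [← phi_inr]
          exact (mem_ann (I := A)).1 hφ _ huv.2.2.1
      have hr2 : (G.edgeSet \ H.edgeSet).ncard ≤ ((E \ A).image edg).card := by
        rw [← Set.ncard_coe_finset]
        apply Set.ncard_le_ncard _ (Set.toFinite _)
        rintro e ⟨he1, he2⟩
        induction e using Sym2.ind with
        | h u v =>
          rw [SimpleGraph.mem_edgeSet] at he1 he2
          have hE : ∀ z : El V, edg z = s(u, v) → z ∉ A → s(u, v) ∈ ((E \ A).image edg) := by
            intro z hz hzA
            rw [Finset.mem_image]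
            refine ⟨z, ?_, hz⟩
            rw [Finset.mem_sdiff]
            refine ⟨?_, hzA⟩
            simp only [E, Finset.mem_filter, Finset.mem_univ, true_and]
            rw [hz, SimpleGraph.mem_edgeSet]
            exact he1
          rw [Finset.mem_coe]
          by_cases t1 : Sum.inl s(u, v) ∈ A
          · by_cases t2 : Sum.inr (u, v) ∈ A
            · by_cases t3 : Sum.inr (v, u) ∈ A
              · exact absurd ⟨he1, t1, t2, t3⟩ he2
              · exact hE _ (by simp [edg, Sym2.eq_swap]) t3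
            · exact hE _ (by simp [edg]) t2
          · exact hE _ (by simp [edg]) t1
      have hcond := hG H hHG
      show 3 * Fintype.card V - 2 ≤ vrk (K := ZMod 2) vec A + ((E \ A).image edg).card
      omega)
  refine ⟨I, ?_, ?_, ?_⟩
  · intro z hz
    have := hIE hz
    simp only [E, Finset.mem_filter, Finset.mem_univ, true_and] at this
    exact this
  · rw [← Finset.card_image_iff]
    exact h2.trans hc.symm
  · have hr1 := vrk_add (K := ZMod 2) (vec (V := V)) I
    rw [finrank_WW, h1] at hr1
    unfold ann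
    omega

theorem Rich.bridgeless {G : SimpleGraph V} (hG : Rich G) : Bridgeless G := by
  intro X u hu v hv huv
  by_contra hcon
  push Not at hcon
  let H := G.deleteEdges {s(u, v)}
  have hcl : ∀ w z, H.Reachable w z → w ∈ X → z ∈ X := by
    rintro w z ⟨p⟩
    induction p with
    | nil => exact id
    | @cons a b c hadj p ih =>
      intro ha
      apply ih
      by_contra hb
      have h1 : G.Adj a b ∧ s(a, b) ∉ ({s(u, v)} : Set (Sym2 V)) := by
        simpa [H, SimpleGraph.deleteEdges_adj] using hadj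
      have h2 := hcon a ha b hb h1.1
      rw [Prod.mk.injEq] at h2
      apply h1.2
      rw [h2.1, h2.2]
      rfl
  have hne : H.connectedComponentMk u ≠ H.connectedComponentMk v := fun h =>
    hv (hcl u v (SimpleGraph.ConnectedComponent.exact h) hu)
  have hc : 2 ≤ numComp H := by
    have : Nontrivial H.ConnectedComponent := ⟨_, _, hne⟩
    exact Finite.one_lt_card
  have hd : (G.edgeSet \ H.edgeSet).ncard ≤ 1 := by
    have hsub : G.edgeSet \ H.edgeSet ⊆ {s(u, v)} := by
      rintro e ⟨h1, h2⟩
      by_contra h3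
      apply h2
      rw [SimpleGraph.edgeSet_deleteEdges]
      exact ⟨h1, h3⟩
    have := Set.ncard_le_ncard hsub (Set.toFinite _)
    simpa using this
  have := hG H (SimpleGraph.deleteEdges_le _)
  omega

/-- A rich graph has an orientation which is both strong and antistrong. -/
theorem Rich.exists_orientation {G : SimpleGraph V} (hV : 3 ≤ Fintype.card V) (hG : Rich G) :
    ∃ D : V → V → Prop, IsOrientation G D ∧ IsStrong D ∧ IsAntistrong D := by
  have : Nonempty V := Fintype.card_pos_iff.1 (by omega)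
  obtain ⟨I, hI1, hI2, hI3⟩ := exists_I hG
  have hadjr : ∀ u v, Sum.inr (u, v) ∈ I → G.Adj u v := fun u v h => by
    have := hI1 _ h
    simpa [edg] using this
  have hadjl : ∀ u v, Sum.inl s(u, v) ∈ I → G.Adj u v := fun u v h => by
    have := hI1 _ h
    simpa [edg] using this
  have hrr : ∀ u v, Sum.inr (u, v) ∈ I → Sum.inr (v, u) ∈ I → False := by
    intro u v h1 h2
    have := hI2 h1 h2 (by simp [edg, Sym2.eq_swap])
    have h3 := Sum.inr_injective this
    rw [Prod.mk.injEq] at h3
    exact (hadjr u v h1).ne h3.1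
  have hlr : ∀ u v, Sum.inl s(u, v) ∈ I → Sum.inr (u, v) ∉ I ∧ Sum.inr (v, u) ∉ I := by
    intro u v h1
    constructor
    · intro h2
      have := hI2 h1 h2 (by simp [edg])
      cases this
    · intro h2
      have := hI2 h1 h2 (by simp [edg, Sym2.eq_swap])
      cases this
  let M : V → V → Prop := fun u v => G.Adj u v ∧ Sum.inr (v, u) ∉ I
  have hM1 : ∀ u v, M u v → G.Adj u v := fun u v h => h.1
  have hM2 : ∀ u v, G.Adj u v → M u v ∨ M v u := by
    intro u v huv
    by_cases h : Sum.inr (v, u) ∈ I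
    · exact Or.inr ⟨huv.symm, fun h' => hrr u v h' h⟩
    · exact Or.inl ⟨huv, h⟩
  have hM3 : CutStrong M := by
    intro X hXn hXu
    by_contra hcon
    push Not at hcon
    obtain ⟨⟨c, hc⟩, -⟩ := const_of_finrank hI3 (x := fun u => if u ∈ X then 1 else 0)
      (a := fun _ => 0) (b := fun _ => 0) (fun u v huv => by
        have g1 := hadjl u v huv
        have g2 := hlr u v huv
        by_cases h1 : u ∈ X
        · by_cases h2 : v ∈ X
          · simp [h1, h2]
          · exact absurd ⟨g1, g2.2⟩ (hcon u h1 v h2)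
        · by_cases h2 : v ∈ X
          · exact absurd ⟨g1.symm, g2.1⟩ (hcon v h2 u h1)
          · simp [h1, h2]) (fun _ _ _ => rfl)
    obtain ⟨u, hu⟩ := hXn
    obtain ⟨v, hv⟩ := (Set.ne_univ_iff_exists_notMem X).1 hXu
    have e1 := hc u
    have e2 := hc v
    simp only [if_pos hu, if_neg hv] at e1 e2
    rw [← e1] at e2
    exact zero_ne_one e2
  obtain ⟨D, hD1, hD2, hD3⟩ := orient G hG.bridgeless _ M le_rfl hM1 hM2 hM3
  refine ⟨D, hD2, hD3.isStrong, antistrong_of_BConn hV ?_⟩
  intro A B hAB hA
  have hDI : ∀ u v, Sum.inr (u, v) ∈ I → D u v := by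
    intro u v h
    have huv := hadjr u v h
    by_contra hno
    have h2 : D v u := by
      by_contra h3
      exact hno ((hD2.one u v huv).2 h3)
    exact (hD1 v u h2).2 h
  obtain ⟨-, ⟨c, hc⟩⟩ := const_of_finrank hI3 (x := fun _ => 0)
    (a := fun u => if u ∈ A then 1 else 0) (b := fun u => if u ∈ B then 1 else 0)
    (fun _ _ _ => rfl) (fun u v huv => by
      have := hAB u v (hDI u v huv)
      by_cases h1 : u ∈ A
      · simp [h1, this.1 h1]
      · have h2 : v ∉ B := fun h => h1 (this.2 h)
        simp [h1, h2])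
  obtain ⟨u, hu⟩ := hA
  have hc1 : c = 1 := by
    have := (hc u).1
    simp only [if_pos hu] at this
    exact this.symm
  ext v
  simp only [Set.mem_univ, iff_true]
  by_contra hv
  have := (hc v).2
  simp only [if_neg hv] at this
  rw [hc1] at this
  exact zero_ne_one this

end Pool.Agent.SAO
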