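import Pool.Agent.SAO.Quot

/-!
# There is no kernel vector
-/

set_option autoImplicit false

namespace Pool.Agent.SAO

open Classical

variable {V : Type} [Fintype V]

section

variable {K : Type} [Field K] [Algebra ℚ K] {G : SimpleGraph V} {x : V → V → K} {P y : V → K}

theorem KHyp.connected (h : KHyp G x P y) [Nonempty V] : G.Connected := by
  refine ⟨fun u v => ?_⟩
  have := h.h5 u v (s := ∅) (by simp)
  simpa using this

theorem KHyp.ne_of_bt (h : KHyp G x P y) {i j : (lv G P).ConnectedComponent} (hij : i ≠ j)
    {p : V × V} (hp : p ∈ bt G P i j) : Pc G P i ≠ Pc G P j := by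
  intro h0
  rw [mem_bt] at hp
  have h4 := h.P_eq p.1
  have h5 := h.P_eq p.2
  rw [hp.1] at h4
  rw [hp.2.1] at h5
  have h6 : P p.1 = P p.2 := by rw [h4, h5]; exact h0
  have h7 : (lv G P).Adj p.1 p.2 := ⟨hp.2.2, h6⟩
  apply hij
  rw [← hp.1, ← hp.2.1]
  exact SimpleGraph.ConnectedComponent.sound h7.reachable

theorem sum_mc (G : SimpleGraph V) (P : V → K) :
    ∑ i, ∑ j, mc G P i j + np (lv G P) = np G := by
  have h1 : ∑ i, ∑ j, mc G P i j = (Finset.univ.filter fun p : V × V => G.Adj p.1 p.2 ∧
      (lv G P).connectedComponentMk p.1 ≠ (lv G P).connectedComponentMk p.2).card := by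
    rw [← Fintype.sum_prod_type' (fun i j => mc G P i j)]
    rw [Finset.card_eq_sum_card_fiberwise (t := Finset.univ) (f := fun p : V × V =>
      ((lv G P).connectedComponentMk p.1, (lv G P).connectedComponentMk p.2))
      (fun _ _ => Finset.mem_coe.2 (Finset.mem_univ _))]
    apply Finset.sum_congr rfl
    intro q _
    unfold mc
    by_cases hq : q.1 = q.2
    · rw [if_pos hq]
      symm
      rw [Finset.card_eq_zero, Finset.filter_eq_empty_iff]
      intro p hp hpq
      rw [Finset.mem_filter] at hp
      apply hp.2.2
      rw [Prod.ext_iff] at hpq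
      exact hpq.1.trans (hq.trans hpq.2.symm)
    · rw [if_neg hq]
      congr 1
      ext p
      rw [mem_bt, Finset.mem_filter, Finset.mem_filter, Prod.ext_iff]
      constructor
      · rintro ⟨k1, k2, k3⟩
        refine ⟨⟨Finset.mem_univ _, k3, ?_⟩, k1, k2⟩
        rw [k1, k2]
        exact hq
      · rintro ⟨⟨-, k3, -⟩, k1, k2⟩
        exact ⟨k1, k2, k3⟩
  rw [h1]
  unfold np
  rw [← Finset.card_union_of_disjoint]
  · congr 1
    ext p
    simp only [Finset.mem_union, Finset.mem_filter, Finset.mem_univ, true_and]
    constructor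
    · rintro (h | h)
      · exact h.1
      · exact h.1
    · intro hp
      by_cases hP : P p.1 = P p.2
      · exact Or.inr ⟨hp, hP⟩
      · left
        refine ⟨hp, fun h0 => hP ?_⟩
        have h2 : (lv G P).Reachable p.1 p.2 := SimpleGraph.ConnectedComponent.exact h0
        obtain ⟨w⟩ := h2
        clear hP hp h0
        generalize p.1 = a at w
        generalize p.2 = b at w
        induction w with
        | nil => rfl
        | cons hab _ ih => exact hab.2.trans ih
  · rw [Finset.disjoint_left]
    intro p hp hq
    rw [Finset.mem_filter] at hp hq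
    apply hp.2.2
    exact SimpleGraph.ConnectedComponent.sound (SimpleGraph.Adj.reachable hq.2)

theorem KHyp.qhyp (h : KHyp G x P y) [Nontrivial (lv G P).ConnectedComponent] :
    QHyp (Pc G P) (Yc G P y) (Xc G x P) (Ac G P y) (mc G P) := by
  have : CharZero K := algebraRat.charZero K
  have hne : Nonempty V := by
    obtain ⟨c⟩ : Nonempty (lv G P).ConnectedComponent := inferInstance
    exact ⟨c.out⟩
  have hm : ∀ i j, mc G P i j = mc G P j i := by
    intro i j
    unfold mc
    by_cases hij : i = j
    · rw [if_pos hij, if_pos hij.symm]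
    · rw [if_neg hij, if_neg fun hh => hij hh.symm, card_bt_swap]
  have hX0 : ∀ i j, mc G P i j = 0 → Xc G x P i j = 0 := by
    intro i j hij
    unfold mc at hij
    by_cases he : i = j
    · subst he
      -- the flow inside a component cancels
      have h1 : Xc G x P i i = - Xc G x P i i := by
        conv_lhs => unfold Xc
        rw [Xc, ← Finset.sum_neg_distrib]
        apply Finset.sum_bij (fun p _ => (p.2, p.1))
        · intro p hp
          rw [mem_bt] at hp ⊢
          exact ⟨hp.2.1, hp.1, hp.2.2.symm⟩
        · intro p _ q _ hpq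
          rw [Prod.mk.injEq] at hpq
          exact Prod.ext hpq.2 hpq.1
        · intro p hp
          rw [mem_bt] at hp
          exact ⟨(p.2, p.1), mem_bt.2 ⟨hp.2.1, hp.1, hp.2.2.symm⟩, rfl⟩
        · intro p _
          rw [h.h1 p.1 p.2, neg_neg]
      have h2 : (2 : K) * Xc G x P i i = 0 := by
        rw [two_mul]
        nth_rewrite 1 [h1]
        ring
      exact (mul_eq_zero.1 h2).resolve_left two_ne_zero
    · rw [if_neg he, Finset.card_eq_zero] at hij
      unfold Xc
      rw [hij, Finset.sum_empty]
  have hcons : ∀ i, ∑ j, Xc G x P i j = 0 := by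
    intro i
    have h1 : ∑ j, Xc G x P i j = ∑ p ∈ Finset.univ.filter (fun p : V × V =>
        (lv G P).connectedComponentMk p.1 = i ∧ G.Adj p.1 p.2), x p.1 p.2 := by
      rw [← Finset.sum_fiberwise_of_maps_to (t := Finset.univ)
        (g := fun p : V × V => (lv G P).connectedComponentMk p.2) (fun _ _ => Finset.mem_univ _)]
      apply Finset.sum_congr rfl
      intro j _
      unfold Xc
      apply Finset.sum_congr _ fun _ _ => rfl
      ext p
      rw [mem_bt, Finset.mem_filter, Finset.mem_filter]
      constructor
      · rintro ⟨k1, k2, k3⟩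
        exact ⟨⟨Finset.mem_univ _, k1, k3⟩, k2⟩
      · rintro ⟨⟨-, k1, k3⟩, k2⟩
        exact ⟨k1, k2, k3⟩
    rw [h1]
    have h2 : ∑ p ∈ Finset.univ.filter (fun p : V × V =>
        (lv G P).connectedComponentMk p.1 = i ∧ G.Adj p.1 p.2), x p.1 p.2 =
        ∑ u, ∑ v, if (lv G P).connectedComponentMk u = i then x u v else 0 := by
      rw [← Fintype.sum_prod_type' (fun u v => if (lv G P).connectedComponentMk u = i then
        x u v else 0), Finset.sum_filter]
      apply Finset.sum_congr rfl
      intro p _
      by_cases hp : G.Adj p.1 p.2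
      · simp [hp]
      · rw [h.h2 _ _ hp]
        simp
    rw [h2]
    apply Finset.sum_eq_zero
    intro u _
    by_cases hu : (lv G P).connectedComponentMk u = i
    · simp_rw [if_pos hu]
      exact h.h3 u
    · simp_rw [if_neg hu]
      exact Finset.sum_const_zero
  have hE : ∀ i j, i ≠ j → Xc G x P i j * (Pc G P j - Pc G P i) =
      algebraMap ℚ K (Ac G P y i j) * Yc G P y i + algebraMap ℚ K (Ac G P y j i) * Yc G P y j := by
    intro i j _
    have h1 : Ac G P y j i = ∑ p ∈ bt G P i j, sg G P y p.2 := by
      unfold Ac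
      symm
      apply Finset.sum_bij (fun p _ => (p.2, p.1))
      · intro p hp
        rw [mem_bt] at hp ⊢
        exact ⟨hp.2.1, hp.1, hp.2.2.symm⟩
      · intro p _ q _ hpq
        rw [Prod.mk.injEq] at hpq
        exact Prod.ext hpq.2 hpq.1
      · intro p hp
        rw [mem_bt] at hp
        exact ⟨(p.2, p.1), mem_bt.2 ⟨hp.2.1, hp.1, hp.2.2.symm⟩, rfl⟩
      · intro p _
        rfl
    rw [h1]
    unfold Xc Ac
    rw [Finset.sum_mul, map_sum, map_sum, Finset.sum_mul, Finset.sum_mul,
      ← Finset.sum_add_distrib]
    apply Finset.sum_congr rfl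
    intro p hp
    rw [mem_bt] at hp
    have h4 := h.hker p.1 p.2 hp.2.2
    rw [h.P_eq p.1, h.P_eq p.2, h.y_eq p.1, h.y_eq p.2, hp.1, hp.2.1] at h4
    exact h4
  refine ⟨?_, hm, hX0, hcons, ?_, hE, ?_, ?_, ?_, ?_, ?_⟩
  · intro i
    unfold mc
    rw [if_pos rfl]
  · intro i j hij
    have h1 := (mc_ne hij).1
    unfold mc at hij
    rw [if_neg h1] at hij
    obtain ⟨p, hp⟩ := Finset.card_pos.1 (Nat.pos_of_ne_zero hij)
    exact h.ne_of_bt h1 hp
  · intro i j hij h0
    have h1 := h.indep (i := i) (i' := i) (u := j) (mc_ne hij).1 (mc_ne hij).1 1 0 (Or.inr rfl) hij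
      (by rw [h0]; ring)
    exact one_ne_zero h1
  · intro i i' u hii hi hi' hA h0
    have h1 := h.indep (mc_ne hi).1 (mc_ne hi').1 (Ac G P y u i') (- Ac G P y u i) (Or.inl hii) hi
      (by rw [map_neg, ← h0]; ring)
    have h2 := h.indep (mc_ne hi').1 (mc_ne hi).1 (- Ac G P y u i) (Ac G P y u i')
      (Or.inl hii.symm) hi' (by rw [map_neg, ← h0]; ring)
    rcases hA with hA | hA
    · exact hA (neg_eq_zero.1 h2)
    · exact hA h1
  · intro i j hij h0
    have h1 := (mc_ne (by rw [hij]; exact one_ne_zero : mc G P i j ≠ 0)).1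
    unfold mc at hij
    rw [if_neg h1, Finset.card_eq_one] at hij
    obtain ⟨p, hp⟩ := hij
    unfold Ac at h0
    rw [hp, Finset.sum_singleton] at h0
    rcases sg_cases G P y p.1 with h2 | h2 <;> rw [h2] at h0 <;> norm_num at h0
  · intro i
    obtain ⟨j, hj⟩ := exists_ne i
    by_contra hlt
    push Not at hlt
    let B : Finset (V × V) := Finset.univ.filter fun p => G.Adj p.1 p.2 ∧
      (lv G P).connectedComponentMk p.1 = i ∧ (lv G P).connectedComponentMk p.2 ≠ i
    have hB : B.card = ∑ j, mc G P i j := by
      rw [Finset.card_eq_sum_card_fiberwise (t := Finset.univ) (f := fun p : V × V =>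
        (lv G P).connectedComponentMk p.2) (fun _ _ => Finset.mem_coe.2 (Finset.mem_univ _))]
      apply Finset.sum_congr rfl
      intro j _
      unfold mc
      by_cases hij : i = j
      · rw [if_pos hij, Finset.card_eq_zero, Finset.filter_eq_empty_iff]
        intro p hp hpj
        rw [Finset.mem_filter] at hp
        exact hp.2.2.2 (hpj.trans hij.symm)
      · rw [if_neg hij]
        congr 1
        ext p
        rw [mem_bt, Finset.mem_filter, Finset.mem_filter]
        constructor
        · rintro ⟨⟨-, k1, k2, k3⟩, k4⟩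
          exact ⟨k2, k4, k1⟩
        · rintro ⟨k1, k2, k3⟩
          exact ⟨⟨Finset.mem_univ _, k3, k1, fun hh => hij (hh.symm.trans k2)⟩, k2⟩
    let s : Finset (Sym2 V) := B.image fun p => s(p.1, p.2)
    have hs : s.card < 5 := lt_of_le_of_lt Finset.card_image_le (by rw [hB]; exact hlt)
    have hr := h.h5 i.out j.out (s := (s : Set (Sym2 V))) (by
      rw [Set.encard_coe_eq_coe_finsetCard]
      exact_mod_cast hs)
    have hcl : ∀ w z, (G.deleteEdges (s : Set (Sym2 V))).Reachable w z →
        (lv G P).connectedComponentMk w = i → (lv G P).connectedComponentMk z = i := by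
      rintro w z ⟨p⟩
      induction p with
      | nil => exact id
      | @cons a b d hadj p ih =>
        intro ha
        apply ih
        by_contra hb
        rw [SimpleGraph.deleteEdges_adj] at hadj
        apply hadj.2
        rw [Finset.mem_coe]
        exact Finset.mem_image_of_mem (fun p : V × V => s(p.1, p.2))
          (Finset.mem_filter.2 ⟨Finset.mem_univ (a, b), hadj.1, ha, hb⟩)
    have h6 := hcl _ _ hr (Quot.out_eq i)
    exact hj (((Quot.out_eq j).symm.trans h6))
  · intro S hS hS'
    have hG := h.connected
    obtain ⟨i, hi⟩ := hS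
    obtain ⟨j, hj⟩ : ∃ j, j ∉ S := by
      by_contra hcon
      push Not at hcon
      exact hS' (Finset.eq_univ_of_forall hcon)
    by_contra hcon
    push Not at hcon
    have hcl : ∀ w z, G.Reachable w z →
        (lv G P).connectedComponentMk w ∈ S → (lv G P).connectedComponentMk z ∈ S := by
      rintro w z ⟨p⟩
      induction p with
      | nil => exact id
      | @cons a b d hadj p ih =>
        intro ha
        apply ih
        by_contra hb
        have h1 := hcon _ ha _ hb
        have hne' : (lv G P).connectedComponentMk a ≠ (lv G P).connectedComponentMk b :=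
          fun he => hb (he ▸ ha)
        unfold mc at h1
        rw [if_neg hne', Finset.card_eq_zero] at h1
        have h2 : (a, b) ∈ bt G P ((lv G P).connectedComponentMk a)
            ((lv G P).connectedComponentMk b) := mem_bt.2 ⟨rfl, rfl, hadj⟩
        rw [h1] at h2
        exact absurd h2 (Finset.notMem_empty _)
    have h6 := hcl i.out j.out (hG.preconnected _ _) (by
      have : (lv G P).connectedComponentMk i.out = i := Quot.out_eq i
      rw [this]; exact hi)
    apply hj
    have : (lv G P).connectedComponentMk j.out = j := Quot.out_eq j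
    rw [← this]
    exact h6

/-- The flow lies in a field with few generators. -/
theorem KHyp.few (h : KHyp G x P y) [Nontrivial (lv G P).ConnectedComponent] :
    ∃ t : Finset K, t.card < rk G ∧ ∀ S : IntermediateField ℚ K, (t : Set K) ⊆ S →
      ∀ u v, x u v ∈ S := by
  have hne : Nonempty V := by
    obtain ⟨c⟩ : Nonempty (lv G P).ConnectedComponent := inferInstance
    exact ⟨c.out⟩
  obtain ⟨s, hs1, hs2⟩ := h.qhyp.count
  obtain ⟨T, hT1, hT2⟩ := exists_coords (lv G P)
  refine ⟨s ∪ T.image fun p => x p.1 p.2, ?_, ?_⟩
  · have h1 := Finset.card_union_le s (T.image fun p => x p.1 p.2)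
    have h2 : (T.image fun p => x p.1 p.2).card ≤ T.card := Finset.card_image_le
    have h3 := rk_lower G
    have h4 := rk_upper (lv G P)
    have h5 := sum_mc G P
    omega
  · intro S hS
    rw [Finset.coe_union, Set.union_subset_iff] at hS
    obtain ⟨hS1, hS2⟩ := hs2 S hS.1
    have hout : ∀ u v, ¬ (lv G P).Adj u v → x u v ∈ S := by
      intro u v huv
      by_cases hadj : G.Adj u v
      · have hP : P v - P u ≠ 0 := by
          intro h0
          exact huv ⟨hadj, (sub_eq_zero.1 h0).symm⟩
        have h1 := h.hker u v hadj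
        rw [← eq_div_iff hP] at h1
        rw [h1]
        apply S.div_mem
        · rw [h.y_eq u, h.y_eq v]
          apply S.add_mem
          · exact S.mul_mem (S.algebraMap_mem _) (hS2 _ (Finset.notMem_empty _))
          · exact S.mul_mem (S.algebraMap_mem _) (hS2 _ (Finset.notMem_empty _))
        · rw [h.P_eq u, h.P_eq v]
          exact hS1 _ (Finset.notMem_empty _) _ (Finset.notMem_empty _)
      · rw [h.h2 u v hadj]
        exact S.zero_mem
    intro u v
    by_cases huv : (lv G P).Adj u v
    · apply mem_of_coords (lv G P) T hT2 (Subalgebra.toSubmodule S.toSubalgebra) x h.h1 _ _ u v huv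
      · intro u
        have h1 : ∑ v, (if (lv G P).Adj u v then x u v else 0) =
            - ∑ v, (if (lv G P).Adj u v then 0 else x u v) := by
          rw [eq_neg_iff_add_eq_zero, ← Finset.sum_add_distrib]
          refine Eq.trans ?_ (h.h3 u)
          apply Finset.sum_congr rfl
          intro v _
          split_ifs
          · rw [add_zero]
          · rw [zero_add]
        rw [h1]
        apply Submodule.neg_mem
        apply Submodule.sum_mem
        intro v _
        split_ifs with h2
        · exact Submodule.zero_mem _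
        · exact hout u v h2
      · intro t ht _
        have h1 : x t.1 t.2 ∈ ((T.image fun p => x p.1 p.2 : Finset K) : Set K) :=
          Finset.mem_coe.2 (Finset.mem_image_of_mem (fun p : V × V => x p.1 p.2) ht)
        exact hS.2 h1
    · exact hout u v huv

end

end Pool.Agent.SAO
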