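import Mathlib

/-!
# The matroid intersection theorem, for rank functions on finite sets
-/

set_option autoImplicit false

namespace Pool.Agent.SAO

open Finset

variable {α : Type} [DecidableEq α]

/-- Rank functions of matroids. -/
structure RankFn (r : Finset α → ℕ) : Prop where
  empty : r ∅ = 0
  mono : ∀ A B, A ⊆ B → r A ≤ r B
  unit : ∀ A e, r (insert e A) ≤ r A + 1
  sub : ∀ A B, r (A ∪ B) + r (A ∩ B) ≤ r A + r B

theorem RankFn.contract {r : Finset α → ℕ} (h : RankFn r) (e : α) (he : r {e} = 1) :
    RankFn (fun A => r (insert e A) - 1) := by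
  have hpos : ∀ A, 1 ≤ r (insert e A) := fun A => by
    have := h.mono {e} (insert e A) (by simp)
    omega
  refine ⟨by simp [he], fun A B hAB => ?_, fun A f => ?_, fun A B => ?_⟩
  · have := h.mono (insert e A) (insert e B) (insert_subset_insert e hAB)
    omega
  · have h1 := h.unit (insert e A) f
    rw [Finset.insert_comm] at h1
    have := hpos A
    omega
  · have h1 := h.sub (insert e A) (insert e B)
    have h2 : insert e A ∪ insert e B = insert e (A ∪ B) := by
      ext x; simp only [mem_union, mem_insert]; tauto
    have h3 : insert e A ∩ insert e B = insert e (A ∩ B) := by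
      ext x; simp only [mem_inter, mem_insert]; tauto
    rw [h2, h3] at h1
    have := hpos A
    have := hpos B
    have := hpos (A ∪ B)
    have := hpos (A ∩ B)
    omega

theorem RankFn.card_le {r : Finset α → ℕ} (h : RankFn r) (A : Finset α) : r A ≤ A.card := by
  induction A using Finset.induction_on with
  | empty => simp [h.empty]
  | insert e A he ih =>
    have := h.unit A e
    rw [card_insert_of_notMem he]
    omega

/-- The matroid intersection theorem. -/
theorem intersection (E : Finset α) : ∀ (r₁ r₂ : Finset α → ℕ) (k : ℕ), RankFn r₁ → RankFn r₂ →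
    (∀ A ⊆ E, k ≤ r₁ A + r₂ (E \ A)) → ∃ I ⊆ E, I.card = k ∧ r₁ I = k ∧ r₂ I = k := by
  induction E using Finset.induction_on with
  | empty =>
    intro r₁ r₂ k h₁ h₂ h
    have := h ∅ (by simp)
    simp only [h₁.empty, Finset.empty_sdiff, h₂.empty] at this
    obtain rfl : k = 0 := by omega
    exact ⟨∅, by simp, by simp, h₁.empty, h₂.empty⟩
  | insert e E he ih =>
    intro r₁ r₂ k h₁ h₂ h
    rcases Nat.eq_zero_or_pos k with rfl | hk
    · exact ⟨∅, by simp, by simp, h₁.empty, h₂.empty⟩
    by_cases hdel : ∀ A ⊆ E, k ≤ r₁ A + r₂ (E \ A)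
    · obtain ⟨I, hI, h'⟩ := ih r₁ r₂ k h₁ h₂ hdel
      exact ⟨I, hI.trans (subset_insert _ _), h'⟩
    push Not at hdel
    obtain ⟨A, hA, hAk⟩ := hdel
    have heA : e ∉ A := fun h => he (hA h)
    -- `e` is not a loop
    have hl₁ : r₁ {e} = 1 := by
      have h0 := h₁.unit ∅ e
      simp only [h₁.empty, insert_empty_eq, Nat.zero_add] at h0
      by_contra hne
      have h0' : r₁ {e} = 0 := by omega
      have h1 := h (insert e A) (insert_subset_insert e hA)
      have h2 : insert e E \ insert e A = E \ A := by
        ext x; simp only [mem_sdiff, mem_insert]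
        constructor
        · rintro ⟨h3, h4⟩
          push Not at h4
          exact ⟨h3.resolve_left h4.1, h4.2⟩
        · rintro ⟨h3, h4⟩
          refine ⟨Or.inr h3, ?_⟩
          rintro (rfl | h5)
          · exact he h3
          · exact h4 h5
      have h3 := h₁.sub A {e}
      have h4 : A ∪ {e} = insert e A := by ext x; simp [or_comm]
      rw [h4] at h3
      rw [h2] at h1
      omega
    have hl₂ : r₂ {e} = 1 := by
      have h0 := h₂.unit ∅ e
      simp only [h₂.empty, insert_empty_eq, Nat.zero_add] at h0
      by_contra hne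
      have h0' : r₂ {e} = 0 := by omega
      have h1 := h A (hA.trans (subset_insert _ _))
      have h2 : insert e E \ A = E \ A ∪ {e} := by
        ext x; simp only [mem_sdiff, mem_insert, mem_union, mem_singleton]
        constructor
        · rintro ⟨h3 | h3, h4⟩
          · exact Or.inr h3
          · exact Or.inl ⟨h3, h4⟩
        · rintro (⟨h3, h4⟩ | rfl)
          · exact ⟨Or.inr h3, h4⟩
          · exact ⟨Or.inl rfl, heA⟩
      have h3 := h₂.sub (E \ A) {e}
      rw [h2] at h1
      omega
    -- contraction
    have hcon : ∀ B ⊆ E, k - 1 ≤ (r₁ (insert e B) - 1) + (r₂ (insert e (E \ B)) - 1) := by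
      intro B hB
      by_contra hlt
      push Not at hlt
      have p1 : 1 ≤ r₁ (insert e B) := by
        have := h₁.mono {e} (insert e B) (by simp); omega
      have p2 : 1 ≤ r₂ (insert e (E \ B)) := by
        have := h₂.mono {e} (insert e (E \ B)) (by simp); omega
      have heB : e ∉ B := fun h => he (hB h)
      have s1 := h₁.sub A (insert e B)
      have s2 := h₂.sub (E \ A) (insert e (E \ B))
      have e1 : A ∪ insert e B = insert e (A ∪ B) := by
        ext x; simp only [mem_union, mem_insert]; tauto
      have e2 : A ∩ insert e B = A ∩ B := by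
        ext x; simp only [mem_inter, mem_insert]
        constructor
        · rintro ⟨h1, rfl | h2⟩
          · exact absurd h1 heA
          · exact ⟨h1, h2⟩
        · rintro ⟨h1, h2⟩
          exact ⟨h1, Or.inr h2⟩
      have e3 : E \ A ∪ insert e (E \ B) = insert e E \ (A ∩ B) := by
        ext x; simp only [mem_union, mem_sdiff, mem_insert, mem_inter]
        constructor
        · rintro (⟨h1, h2⟩ | rfl | ⟨h1, h2⟩)
          · exact ⟨Or.inr h1, fun h => h2 h.1⟩
          · exact ⟨Or.inl rfl, fun h => heA h.1⟩
          · exact ⟨Or.inr h1, fun h => h2 h.2⟩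
        · rintro ⟨rfl | h1, h2⟩
          · exact Or.inr (Or.inl rfl)
          · by_cases h3 : x ∈ A
            · exact Or.inr (Or.inr ⟨h1, fun h => h2 ⟨h3, h⟩⟩)
            · exact Or.inl ⟨h1, h3⟩
      have e4 : (E \ A) ∩ insert e (E \ B) = insert e E \ insert e (A ∪ B) := by
        ext x; simp only [mem_union, mem_sdiff, mem_insert, mem_inter]
        constructor
        · rintro ⟨⟨h1, h2⟩, rfl | ⟨h3, h4⟩⟩
          · exact absurd h1 he
          · refine ⟨Or.inr h1, ?_⟩
            rintro (rfl | h5 | h5)
            · exact he h1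
            · exact h2 h5
            · exact h4 h5
        · rintro ⟨h1, h2⟩
          push Not at h2
          have h3 := h1.resolve_left h2.1
          exact ⟨⟨h3, h2.2.1⟩, Or.inr ⟨h3, h2.2.2⟩⟩
      rw [e1, e2] at s1
      rw [e3, e4] at s2
      have t1 := h (A ∩ B) ((inter_subset_left.trans hA).trans (subset_insert _ _))
      have t2 := h (insert e (A ∪ B)) (insert_subset_insert e (union_subset hA hB))
      omega
    obtain ⟨I, hI, hc, i1, i2⟩ := ih _ _ (k - 1) (h₁.contract e hl₁) (h₂.contract e hl₂) hcon
    have heI : e ∉ I := fun h => he (hI h)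
    refine ⟨insert e I, insert_subset_insert e hI, ?_, ?_, ?_⟩
    · rw [card_insert_of_notMem heI]; omega
    · have : 1 ≤ r₁ (insert e I) := by
        have := h₁.mono {e} (insert e I) (by simp); omega
      omega
    · have : 1 ≤ r₂ (insert e I) := by
        have := h₂.mono {e} (insert e I) (by simp); omega
      omega

end Pool.Agent.SAO
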