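import Pool.Agent.SAO.Gen

/-!
# The generic circulation, and potentials
-/

set_option autoImplicit false

namespace Pool.Agent.SAO

open Classical

variable {V : Type} [Fintype V]

/-- the dimension of the space of circulations -/
noncomputable def rk (G : SimpleGraph V) : ℕ := Module.finrank ℚ (Circ G)

/-- a basis of the space of circulations -/
noncomputable def bas (G : SimpleGraph V) : Module.Basis (Fin (rk G)) ℚ (Circ G) :=
  Module.finBasis ℚ (Circ G)

/-- the polynomial ring -/
abbrev RG (G : SimpleGraph V) : Type := MvPolynomial (Fin (rk G)) ℚ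

/-- the generic circulation -/
noncomputable def xr (G : SimpleGraph V) (u v : V) : RG G :=
  ∑ i, MvPolynomial.C ((bas G i : V → V → ℚ) u v) * MvPolynomial.X i

theorem xr_antisymm (G : SimpleGraph V) (u v : V) : xr G v u = - xr G u v := by
  unfold xr
  rw [← Finset.sum_neg_distrib]
  apply Finset.sum_congr rfl
  intro i _
  rw [(bas G i).2.1 u v, map_neg]; ring

theorem xr_of_not_adj (G : SimpleGraph V) {u v : V} (h : ¬ G.Adj u v) : xr G u v = 0 := by
  unfold xr
  apply Finset.sum_eq_zero
  intro i _
  rw [(bas G i).2.2.1 u v h, map_zero, zero_mul]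

theorem xr_sum (G : SimpleGraph V) (u : V) : ∑ v, xr G u v = 0 := by
  unfold xr
  rw [Finset.sum_comm]
  apply Finset.sum_eq_zero
  intro i _
  rw [← Finset.sum_mul, ← map_sum, (bas G i).2.2.2 u, map_zero, zero_mul]

theorem xr_form (G : SimpleGraph V) (c : V → V → ℚ) :
    ∑ u, ∑ v, MvPolynomial.C (c u v) * xr G u v =
      ∑ i, MvPolynomial.C (∑ u, ∑ v, c u v * (bas G i : V → V → ℚ) u v) * MvPolynomial.X i := by
  unfold xr
  simp_rw [Finset.mul_sum]
  calc ∑ u, ∑ v, ∑ i, MvPolynomial.C (c u v) * (MvPolynomial.C ((bas G i : V → V → ℚ) u v) *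
          MvPolynomial.X i)
      = ∑ u, ∑ i, ∑ v, MvPolynomial.C (c u v) * (MvPolynomial.C ((bas G i : V → V → ℚ) u v) *
          MvPolynomial.X i) := Finset.sum_congr rfl fun u _ => Finset.sum_comm
    _ = ∑ i, ∑ u, ∑ v, MvPolynomial.C (c u v) * (MvPolynomial.C ((bas G i : V → V → ℚ) u v) *
          MvPolynomial.X i) := Finset.sum_comm
    _ = _ := by
      apply Finset.sum_congr rfl
      intro i _
      rw [map_sum, Finset.sum_mul]
      apply Finset.sum_congr rfl
      intro u _
      rw [map_sum, Finset.sum_mul]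
      apply Finset.sum_congr rfl
      intro v _
      rw [map_mul]; ring

theorem coeff_lin {n : ℕ} (a : Fin n → ℚ) (j : Fin n) :
    MvPolynomial.coeff (Finsupp.single j 1) (∑ i, MvPolynomial.C (a i) *
      (MvPolynomial.X i : MvPolynomial (Fin n) ℚ)) = a j := by
  rw [MvPolynomial.coeff_sum]
  simp_rw [MvPolynomial.coeff_C_mul]
  rw [Finset.sum_eq_single j]
  · simp
  · intro i _ hij
    rw [MvPolynomial.coeff_X', if_neg, mul_zero]
    intro h
    exact hij (Finsupp.single_left_injective one_ne_zero h)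
  · simp

/-- A linear form which vanishes at the generic circulation vanishes at all circulations. -/
theorem xr_generic (G : SimpleGraph V) (c : V → V → ℚ)
    (h : ∑ u, ∑ v, MvPolynomial.C (c u v) * xr G u v = 0) (z : V → V → ℚ) (hz : z ∈ Circ G) :
    ∑ u, ∑ v, c u v * z u v = 0 := by
  rw [xr_form] at h
  have h1 : ∀ i, ∑ u, ∑ v, c u v * (bas G i : V → V → ℚ) u v = 0 := by
    intro i
    rw [← coeff_lin (fun i => ∑ u, ∑ v, c u v * (bas G i : V → V → ℚ) u v) i, h]
    simp
  let F : (V → V → ℚ) →ₗ[ℚ] ℚ := ∑ u, ∑ v, c u v •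
    ((LinearMap.proj v : (V → ℚ) →ₗ[ℚ] ℚ) ∘ₗ (LinearMap.proj u : (V → V → ℚ) →ₗ[ℚ] (V → ℚ)))
  have hF : ∀ z, F z = ∑ u, ∑ v, c u v * z u v := by
    intro z
    simp [F, LinearMap.sum_apply]
  rw [← hF]
  have h2 : F ∘ₗ (Circ G).subtype = 0 := by
    apply (bas G).ext
    intro i
    rw [LinearMap.comp_apply, Submodule.subtype_apply, hF, h1]
    rfl
  exact LinearMap.congr_fun h2 ⟨z, hz⟩

/-- The variables are linear forms in the generic circulation. -/
theorem X_eq_form (G : SimpleGraph V) (i : Fin (rk G)) :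
    ∃ c : V → V → ℚ, (MvPolynomial.X i : RG G) = ∑ u, ∑ v, MvPolynomial.C (c u v) * xr G u v := by
  obtain ⟨F, hF⟩ : ∃ F : (V → V → ℚ) →ₗ[ℚ] ℚ, F ∘ₗ (Circ G).subtype = (bas G).coord i :=
    LinearMap.exists_extend _
  refine ⟨fun u v => F (Pi.single u (Pi.single v 1)), ?_⟩
  rw [xr_form]
  have hF2 : ∀ z : V → V → ℚ, F z = ∑ u, ∑ v, F (Pi.single u (Pi.single v 1)) * z u v := by
    intro z
    conv_lhs => rw [← Finset.univ_sum_single z]
    rw [map_sum]
    apply Finset.sum_congr rfl
    intro u _
    conv_lhs => rw [← Finset.univ_sum_single (z u)]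
    have h1 : (Pi.single u (∑ v, Pi.single v (z u v)) : V → V → ℚ) =
        ∑ v, (z u v) • Pi.single u (Pi.single v 1) := by
      ext a b
      rw [Finset.sum_apply, Finset.sum_apply]
      by_cases ha : a = u
      · subst ha
        simp [Finset.sum_apply, Pi.single_apply]
      · simp [Pi.single_eq_of_ne ha]
    rw [h1, map_sum]
    apply Finset.sum_congr rfl
    intro v _
    rw [map_smul, smul_eq_mul, mul_comm]
  have h3 : ∀ j, ∑ u, ∑ v, F (Pi.single u (Pi.single v 1)) * (bas G j : V → V → ℚ) u v =
      if j = i then 1 else 0 := by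
    intro j
    rw [← hF2]
    have := LinearMap.congr_fun hF (bas G j)
    rw [LinearMap.comp_apply, Submodule.subtype_apply] at this
    rw [this, Module.Basis.coord_apply, Module.Basis.repr_self, Finsupp.single_apply]
  simp_rw [h3]
  rw [Finset.sum_eq_single i]
  · simp
  · intro j _ hj
    rw [if_neg hj, map_zero, zero_mul]
  · simp

/-- the sum of `g` over the darts of a walk -/
def gs {L : Type} [AddCommGroup L] (g : V → V → L) {G : SimpleGraph V} {u v : V} : G.Walk u v → L
  | SimpleGraph.Walk.nil => 0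
  | @SimpleGraph.Walk.cons _ _ u' v' _ _ p => g u' v' + gs g p

omit [Fintype V] in
theorem gs_append {L : Type} [AddCommGroup L] (g : V → V → L) {G : SimpleGraph V} {u v w : V}
    (p : G.Walk u v) (q : G.Walk v w) : gs g (p.append q) = gs g p + gs g q := by
  induction p with
  | nil => simp [gs]
  | cons h p ih => simp only [SimpleGraph.Walk.cons_append, gs]; rw [ih]; abel

omit [Fintype V] in
theorem gs_reverse {L : Type} [AddCommGroup L] (g : V → V → L) (hg : ∀ u v, g v u = - g u v)
    {G : SimpleGraph V} {u v : V} (p : G.Walk u v) : gs g p.reverse = - gs g p := by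
  induction p with
  | nil => simp [gs]
  | cons h p ih =>
    rw [SimpleGraph.Walk.reverse_cons, gs_append, ih]
    simp only [gs]
    rw [hg]; abel

theorem sum_wf {L : Type} [Field L] [Algebra ℚ L] (g : V → V → L) (hg : ∀ u v, g v u = - g u v)
    {G : SimpleGraph V} {u v : V} (p : G.Walk u v) :
    ∑ a, ∑ b, g a b * algebraMap ℚ L (wf p a b) = 2 * gs g p := by
  induction p with
  | nil => simp [wf, gs]
  | @cons u' v' w' h p ih =>
    simp only [wf, gs]
    simp_rw [map_add, mul_add, Finset.sum_add_distrib]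
    rw [ih]
    have hs : ∀ x y : V, ∑ a, ∑ b, g a b * algebraMap ℚ L (if a = x ∧ b = y then (1 : ℚ) else 0)
        = g x y := by
      intro x y
      rw [Finset.sum_eq_single x, Finset.sum_eq_single y]
      · simp
      · intro v _ hv
        simp [hv]
      · simp
      · intro u _ hu
        simp [hu]
      · simp
    simp_rw [map_sub, mul_sub, Finset.sum_sub_distrib]
    rw [hs, hs, hg u' v']
    ring

/-- A function on the edges which is orthogonal to all circulations is a gradient. -/
theorem exists_potential {G : SimpleGraph V} (hG : G.Connected) {L : Type} [Field L] [Algebra ℚ L]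
    (g : V → V → L) (hg : ∀ u v, g v u = - g u v)
    (h : ∀ z ∈ Circ G, ∑ u, ∑ v, g u v * algebraMap ℚ L (z u v) = 0) :
    ∃ P : V → L, ∀ u v, G.Adj u v → P v - P u = g u v := by
  have : CharZero L := algebraRat.charZero L
  have hclosed : ∀ (u : V) (p : G.Walk u u), gs g p = 0 := by
    intro u p
    have h1 := h (wf p) (wf_mem_Circ p le_rfl)
    rw [sum_wf g hg] at h1
    exact (mul_eq_zero.1 h1).resolve_left two_ne_zero
  obtain ⟨r⟩ := hG.nonempty
  have hw : ∀ v, ∃ _ : G.Walk r v, True := fun v => ⟨(hG.preconnected r v).some, trivial⟩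
  choose w _ using hw
  refine ⟨fun v => gs g (w v), fun u v huv => ?_⟩
  have h1 := hclosed r (((w u).append (SimpleGraph.Walk.cons huv SimpleGraph.Walk.nil)).append
    (w v).reverse)
  rw [gs_append, gs_append, gs_reverse g hg] at h1
  simp only [gs] at h1
  rw [add_zero] at h1
  have := eq_neg_of_add_eq_zero_left h1
  rw [neg_neg] at this
  show gs g (w v) - gs g (w u) = g u v
  rw [← this]; ring

end Pool.Agent.SAO
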