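import Pool.Agent.SAO.Dim
import Pool.Agent.SAO.Count

/-!
# The quotient by the level graph of a kernel vector
-/

set_option autoImplicit false

namespace Pool.Agent.SAO

open Classical

variable {V : Type} [Fintype V]

/-- the hypotheses on a generic circulation `x` and a kernel vector `(P, y)` -/
structure KHyp {K : Type} [Field K] [Algebra ℚ K] (G : SimpleGraph V) (x : V → V → K)
    (P y : V → K) : Prop where
  h1 : ∀ u v, x v u = - x u v
  h2 : ∀ u v, ¬ G.Adj u v → x u v = 0
  h3 : ∀ u, ∑ v, x u v = 0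
  hgen : ∀ (c : V → V → ℚ) (A : Finset (Sym2 V)), A.card ≤ 4 → (∀ u v, c u v ≠ 0 → s(u, v) ∈ A) →
    ∑ u, ∑ v, algebraMap ℚ K (c u v) * x u v = 0 → ∀ a b, G.Adj a b → c a b = c b a
  hker : ∀ u v, G.Adj u v → x u v * (P v - P u) = y u + y v
  h5 : G.IsEdgeConnected 5

/-- the level graph -/
def lv {K : Type} (G : SimpleGraph V) (P : V → K) : SimpleGraph V where
  Adj u v := G.Adj u v ∧ P u = P v
  symm := ⟨fun _ _ h => ⟨h.1.symm, h.2.symm⟩⟩
  loopless := ⟨fun u h => G.loopless.irrefl u h.1⟩

section

variable {K : Type} [Field K] [Algebra ℚ K] {G : SimpleGraph V} {x : V → V → K} {P y : V → K}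

/-- the pairs of adjacent vertices between two components -/
noncomputable def bt (G : SimpleGraph V) (P : V → K) (i j : (lv G P).ConnectedComponent) :
    Finset (V × V) :=
  Finset.univ.filter fun p => (lv G P).connectedComponentMk p.1 = i ∧
    (lv G P).connectedComponentMk p.2 = j ∧ G.Adj p.1 p.2

omit [Field K] [Algebra ℚ K] in
theorem mem_bt {i j : (lv G P).ConnectedComponent} {p : V × V} : p ∈ bt G P i j ↔
    (lv G P).connectedComponentMk p.1 = i ∧ (lv G P).connectedComponentMk p.2 = j ∧
      G.Adj p.1 p.2 := by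
  unfold bt
  rw [Finset.mem_filter]
  simp

theorem KHyp.reach (h : KHyp G x P y) {u v : V} (huv : (lv G P).Reachable u v) :
    P u = P v ∧ (y u = y v ∨ y u = - y v) := by
  obtain ⟨p⟩ := huv
  induction p with
  | nil => exact ⟨rfl, Or.inl rfl⟩
  | @cons a b c hab p ih =>
    refine ⟨hab.2.trans ih.1, ?_⟩
    have h1 := h.hker a b hab.1
    rw [hab.2, sub_self, mul_zero] at h1
    have h2 : y a = - y b := eq_neg_of_add_eq_zero_left h1.symm
    rcases ih.2 with h3 | h3
    · right; rw [h2, h3]
    · left; rw [h2, h3, neg_neg]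

/-- the value of `P` on a component -/
noncomputable def Pc (G : SimpleGraph V) (P : V → K) (i : (lv G P).ConnectedComponent) : K := P i.out

/-- the value of `y` at the representative of a component -/
noncomputable def Yc (G : SimpleGraph V) (P y : V → K) (i : (lv G P).ConnectedComponent) : K :=
  y i.out

/-- the sign of a vertex -/
noncomputable def sg (G : SimpleGraph V) (P y : V → K) (v : V) : ℚ :=
  if y v = Yc G P y ((lv G P).connectedComponentMk v) then 1 else -1

theorem sg_cases (G : SimpleGraph V) (P y : V → K) (v : V) : sg G P y v = 1 ∨ sg G P y v = -1 := by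
  unfold sg
  split_ifs
  · exact Or.inl rfl
  · exact Or.inr rfl

theorem KHyp.P_eq (h : KHyp G x P y) (v : V) :
    P v = Pc G P ((lv G P).connectedComponentMk v) := by
  unfold Pc
  apply (h.reach _).1
  apply SimpleGraph.ConnectedComponent.exact
  exact (Quot.out_eq ((lv G P).connectedComponentMk v)).symm

theorem KHyp.y_eq (h : KHyp G x P y) (v : V) :
    y v = algebraMap ℚ K (sg G P y v) * Yc G P y ((lv G P).connectedComponentMk v) := by
  have h1 : (lv G P).Reachable v ((lv G P).connectedComponentMk v).out := by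
    apply SimpleGraph.ConnectedComponent.exact
    exact (Quot.out_eq ((lv G P).connectedComponentMk v)).symm
  unfold sg
  split_ifs with h2
  · rw [map_one, one_mul]; exact h2
  · rcases (h.reach h1).2 with h3 | h3
    · exact absurd h3 h2
    · rw [map_neg, map_one]
      unfold Yc
      rw [h3]; ring

/-- the total flow between two components -/
noncomputable def Xc (G : SimpleGraph V) (x : V → V → K) (P : V → K)
    (i j : (lv G P).ConnectedComponent) : K :=
  ∑ p ∈ bt G P i j, x p.1 p.2

/-- the sum of the signs -/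
noncomputable def Ac (G : SimpleGraph V) (P y : V → K) (i j : (lv G P).ConnectedComponent) : ℚ :=
  ∑ p ∈ bt G P i j, sg G P y p.1

/-- the multiplicity -/
noncomputable def mc (G : SimpleGraph V) (P : V → K) (i j : (lv G P).ConnectedComponent) : ℕ :=
  if i = j then 0 else (bt G P i j).card

omit [Field K] [Algebra ℚ K] in
theorem mc_ne {i j : (lv G P).ConnectedComponent} (h : mc G P i j ≠ 0) :
    i ≠ j ∧ ∃ u v, G.Adj u v ∧ (lv G P).connectedComponentMk u = i ∧
      (lv G P).connectedComponentMk v = j := by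
  unfold mc at h
  by_cases hij : i = j
  · rw [if_pos hij] at h
    exact absurd rfl h
  · rw [if_neg hij] at h
    obtain ⟨p, hp⟩ := Finset.card_pos.1 (Nat.pos_of_ne_zero h)
    rw [mem_bt] at hp
    exact ⟨hij, p.1, p.2, hp.2.2, hp.1, hp.2.1⟩

omit [Field K] [Algebra ℚ K] in
theorem card_bt_swap (i j : (lv G P).ConnectedComponent) :
    (bt G P i j).card = (bt G P j i).card := by
  apply Finset.card_bij (fun p _ => (p.2, p.1))
  · intro p hp
    rw [mem_bt] at hp ⊢
    exact ⟨hp.2.1, hp.1, hp.2.2.symm⟩
  · intro p _ q _ hpq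
    rw [Prod.mk.injEq] at hpq
    exact Prod.ext hpq.2 hpq.1
  · intro p hp
    rw [mem_bt] at hp
    exact ⟨(p.2, p.1), mem_bt.2 ⟨hp.2.1, hp.1, hp.2.2.symm⟩, rfl⟩

/-- There are at most two edges between two components. -/
theorem KHyp.card_le_two (h : KHyp G x P y) {i j : (lv G P).ConnectedComponent} (hij : i ≠ j) :
    (bt G P i j).card ≤ 2 := by
  by_contra hlt
  push Not at hlt
  have hP : ∀ p ∈ bt G P i j, Pc G P j - Pc G P i ≠ 0 := by
    intro p hp h0
    rw [mem_bt] at hp
    have h4 := h.P_eq p.1
    have h5 := h.P_eq p.2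
    rw [hp.1] at h4
    rw [hp.2.1] at h5
    have h6 : P p.1 = P p.2 := by rw [h4, h5]; exact (sub_eq_zero.1 h0).symm
    have h7 : (lv G P).Adj p.1 p.2 := ⟨hp.2.2, h6⟩
    apply hij
    rw [← hp.1, ← hp.2.1]
    exact SimpleGraph.ConnectedComponent.sound h7.reachable
  obtain ⟨p, hp, q, hq, hpq, hs⟩ := Finset.exists_ne_map_eq_of_card_lt_of_maps_to
    (s := bt G P i j) (t := ({1, -1} : Finset ℚ)) (f := fun p => sg G P y p.1 * sg G P y p.2)
    (lt_of_le_of_lt Finset.card_le_two hlt) (by
      intro p _
      rcases sg_cases G P y p.1 with h1 | h1 <;> rcases sg_cases G P y p.2 with h2 | h2 <;>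
        simp [h1, h2])
  -- the two flows are equal up to sign
  have hx : ∀ p ∈ bt G P i j, x p.1 p.2 * (Pc G P j - Pc G P i) =
      algebraMap ℚ K (sg G P y p.1) * Yc G P y i + algebraMap ℚ K (sg G P y p.2) * Yc G P y j := by
    intro p hp
    have hp' := hp
    rw [mem_bt] at hp'
    have h4 := h.hker p.1 p.2 hp'.2.2
    rw [h.P_eq p.1, h.P_eq p.2, h.y_eq p.1, h.y_eq p.2, hp'.1, hp'.2.1] at h4
    exact h4
  have hxp := hx p hp
  have hxq := hx q hq
  have hD := hP p hp
  let κ : ℚ := sg G P y p.1 * sg G P y q.1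
  have hκ : x p.1 p.2 = algebraMap ℚ K κ * x q.1 q.2 := by
    apply mul_right_cancel₀ hD
    rw [mul_assoc, hxp, hxq, mul_add, ← mul_assoc, ← mul_assoc, ← map_mul, ← map_mul]
    have e1 : κ * sg G P y q.1 = sg G P y p.1 := by
      simp only [κ]
      rcases sg_cases G P y q.1 with h1 | h1 <;> rw [h1] <;> ring
    have e2 : κ * sg G P y q.2 = sg G P y p.2 := by
      simp only [κ]
      rw [mul_assoc, ← hs, ← mul_assoc]
      rcases sg_cases G P y p.1 with h1 | h1 <;> rw [h1] <;> ring
    rw [e1, e2]
  have hp' := mem_bt.1 hp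
  have hq' := mem_bt.1 hq
  have h6 := h.hgen (fun u v => (if u = p.1 ∧ v = p.2 then 1 else 0) -
      κ * (if u = q.1 ∧ v = q.2 then 1 else 0)) {s(p.1, p.2), s(q.1, q.2)}
    (Finset.card_le_two.trans (by norm_num)) (by
      intro u v huv
      rw [Finset.mem_insert, Finset.mem_singleton]
      by_contra hcon
      push Not at hcon
      apply huv
      rw [if_neg, if_neg]
      · ring
      · rintro ⟨rfl, rfl⟩
        exact hcon.2 rfl
      · rintro ⟨rfl, rfl⟩
        exact hcon.1 rfl) (by
      simp_rw [map_sub, map_mul, sub_mul, Finset.sum_sub_distrib]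
      have hsum : ∀ (c : K) (a b : V), ∑ u, ∑ v, c * algebraMap ℚ K (if u = a ∧ v = b then 1 else 0) *
          x u v = c * x a b := by
        intro c a b
        rw [Finset.sum_eq_single a, Finset.sum_eq_single b]
        · simp
        · intro v _ hv
          simp [hv]
        · simp
        · intro u _ hu
          simp [hu]
        · simp
      have h7 := hsum 1 p.1 p.2
      simp_rw [one_mul] at h7
      rw [h7, hsum, hκ, sub_self]) p.1 p.2 hp'.2.2
  beta_reduce at h6
  have hji : ¬ (p.2 = p.1 ∧ p.1 = p.2) := fun hh => hp'.2.2.ne hh.2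
  have hq1 : ¬ (p.2 = q.1 ∧ p.1 = q.2) := by
    rintro ⟨hh, -⟩
    apply hij
    rw [← hq'.1, ← hh, hp'.2.1]
  have hpq' : ¬ (p.1 = q.1 ∧ p.2 = q.2) := fun hh => hpq (Prod.ext hh.1 hh.2)
  rw [if_pos ⟨rfl, rfl⟩, if_neg hpq', if_neg hji, if_neg hq1] at h6
  norm_num at h6

/-- the linear independence of the flows -/
theorem KHyp.indep (h : KHyp G x P y) {i i' u : (lv G P).ConnectedComponent} (hi : i ≠ u)
    (hi' : i' ≠ u) (α α' : ℚ) (hii : i ≠ i' ∨ α' = 0) (hm : mc G P i u ≠ 0)
    (h0 : algebraMap ℚ K α * Xc G x P i u + algebraMap ℚ K α' * Xc G x P i' u = 0) : α = 0 := by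
  obtain ⟨-, a, b, hab, ha, hb⟩ := mc_ne hm
  have h6 := h.hgen (fun v w => (if (v, w) ∈ bt G P i u then α else 0) +
      (if (v, w) ∈ bt G P i' u then α' else 0))
    ((bt G P i u ∪ bt G P i' u).image fun p => s(p.1, p.2)) (by
      refine Finset.card_image_le.trans ((Finset.card_union_le _ _).trans ?_)
      have h7 := h.card_le_two hi
      have h8 := h.card_le_two hi'
      omega) (by
      intro v w hvw
      by_contra hcon
      apply hvw
      rw [if_neg, if_neg]
      · ring
      · intro hh
        exact hcon (Finset.mem_image_of_mem (fun p : V × V => s(p.1, p.2))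
          (Finset.mem_union_right _ hh))
      · intro hh
        exact hcon (Finset.mem_image_of_mem (fun p : V × V => s(p.1, p.2))
          (Finset.mem_union_left _ hh))) (by
      simp_rw [map_add, add_mul, Finset.sum_add_distrib]
      have hsum : ∀ (c : ℚ) (i : (lv G P).ConnectedComponent), ∑ v, ∑ w,
          algebraMap ℚ K (if (v, w) ∈ bt G P i u then c else 0) * x v w =
            algebraMap ℚ K c * Xc G x P i u := by
        intro c i
        unfold Xc
        rw [← Fintype.sum_prod_type'
          (fun v w => algebraMap ℚ K (if (v, w) ∈ bt G P i u then c else 0) * x v w),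
          Finset.mul_sum]
        symm
        apply Finset.sum_subset_zero_on_sdiff (Finset.subset_univ _)
        · intro p hp
          rw [if_neg (Finset.mem_sdiff.1 hp).2, map_zero, zero_mul]
        · intro p hp
          rw [if_pos hp]
      rw [hsum, hsum, h0]) a b hab
  beta_reduce at h6
  have h7 : (a, b) ∈ bt G P i u := mem_bt.2 ⟨ha, hb, hab⟩
  have h8 : (b, a) ∉ bt G P i u := by
    intro hh
    rw [mem_bt] at hh
    exact hi (hh.1.symm.trans hb)
  have h9 : (b, a) ∉ bt G P i' u := by
    intro hh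
    rw [mem_bt] at hh
    exact hi' (hh.1.symm.trans hb)
  rw [if_pos h7, if_neg h8, if_neg h9] at h6
  rcases hii with hii | hii
  · have h10 : (a, b) ∉ bt G P i' u := by
      intro hh
      rw [mem_bt] at hh
      exact hii (ha.symm.trans hh.1)
    rw [if_neg h10] at h6
    linarith
  · rw [hii, ite_self] at h6
    linarith

end

end Pool.Agent.SAO
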