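import Pool.Agent.SAO.Mint
import Pool.Agent.SAO.Defs

/-!
# The two rank functions
-/

set_option autoImplicit false

namespace Pool.Agent.SAO

open Module

section gen

variable {α K W : Type} [DecidableEq α] [Field K] [AddCommGroup W] [Module K W] [FiniteDimensional K W]

omit [DecidableEq α] [FiniteDimensional K W] in
/-- the rank function of a family of vectors -/
noncomputable def vrk (vec : α → W) (A : Finset α) : ℕ :=
  finrank K (Submodule.span K (vec '' (A : Set α)))

theorem vrk_rankFn (vec : α → W) : RankFn (vrk (K := K) vec) := by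
  refine ⟨by simp [vrk], fun A B hAB => ?_, fun A e => ?_, fun A B => ?_⟩
  · exact Submodule.finrank_mono (Submodule.span_mono (Set.image_mono (by exact_mod_cast hAB)))
  · unfold vrk
    rw [Finset.coe_insert, Set.image_insert_eq, Submodule.span_insert]
    have h1 := Submodule.finrank_add_le_finrank_add_finrank (Submodule.span K {vec e})
      (Submodule.span K (vec '' (A : Set α)))
    have h2 : finrank K (Submodule.span K {vec e}) ≤ 1 := by
      exact (finrank_span_le_card {vec e}).trans (by simp)
    omega
  · unfold vrk
    have h1 := Submodule.finrank_sup_add_finrank_inf_eq (Submodule.span K (vec '' (A : Set α)))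
      (Submodule.span K (vec '' (B : Set α)))
    have h2 : finrank K (Submodule.span K (vec '' ((A ∩ B : Finset α) : Set α))) ≤
        finrank K ↥(Submodule.span K (vec '' (A : Set α)) ⊓ Submodule.span K (vec '' (B : Set α))) := by
      apply Submodule.finrank_mono
      rw [le_inf_iff]
      constructor
      · exact Submodule.span_mono (Set.image_mono (by intro x; simp; tauto))
      · exact Submodule.span_mono (Set.image_mono (by intro x; simp))
    rw [Finset.coe_union, Set.image_union, Submodule.span_union]
    omega

theorem card_image_rankFn {β : Type} [DecidableEq β] (π : α → β) : RankFn (fun A : Finset α => (A.image π).card) := by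
  refine ⟨by simp, fun A B hAB => Finset.card_le_card (Finset.image_subset_image hAB),
    fun A e => ?_, fun A B => ?_⟩
  · rw [Finset.image_insert]
    exact Finset.card_insert_le _ _
  · rw [Finset.image_union]
    have h1 := Finset.card_union_add_card_inter (A.image π) (B.image π)
    have h2 : ((A ∩ B).image π).card ≤ (A.image π ∩ B.image π).card :=
      Finset.card_le_card (Finset.image_inter_subset _ _ _)
    omega

omit [DecidableEq α] in
/-- the rank from the functionals that vanish on the vectors -/
theorem vrk_add (vec : α → W) (A : Finset α) :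
    vrk (K := K) vec A + finrank K (Submodule.span K (vec '' (A : Set α))).dualAnnihilator =
      finrank K W :=
  Subspace.finrank_add_finrank_dualAnnihilator_eq _

end gen

open Classical

variable {V : Type} [Fintype V]

/-- the space -/
abbrev WW (V : Type) : Type := (V → ZMod 2) × (V → ZMod 2) × (V → ZMod 2)

/-- the elements: edges (for the tree) and arcs (for the antistrong part) -/
abbrev El (V : Type) : Type := Sym2 V ⊕ (V × V)

/-- the vectors -/
noncomputable def vec : El V → WW V
  | Sum.inl e => (Sym2.lift ⟨fun u v => (Pi.single u 1 + Pi.single v 1 : V → ZMod 2),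
      fun _ _ => add_comm _ _⟩ e, 0, 0)
  | Sum.inr p => (0, Pi.single p.1 1, Pi.single p.2 1)

/-- the edge of an element -/
def edg : El V → Sym2 V
  | Sum.inl e => e
  | Sum.inr p => s(p.1, p.2)

/-- the three families of values of a functional -/
noncomputable def fx (φ : Dual (ZMod 2) (WW V)) (u : V) : ZMod 2 := φ (Pi.single u 1, 0, 0)
noncomputable def fa (φ : Dual (ZMod 2) (WW V)) (u : V) : ZMod 2 := φ (0, Pi.single u 1, 0)
noncomputable def fb (φ : Dual (ZMod 2) (WW V)) (u : V) : ZMod 2 := φ (0, 0, Pi.single u 1)

theorem phi_inl (φ : Dual (ZMod 2) (WW V)) (u v : V) :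
    φ (vec (Sum.inl s(u, v))) = fx φ u + fx φ v := by
  unfold fx
  rw [← map_add]
  simp [vec]

theorem phi_inr (φ : Dual (ZMod 2) (WW V)) (u v : V) :
    φ (vec (Sum.inr (u, v))) = fa φ u + fb φ v := by
  unfold fa fb
  rw [← map_add]
  congr 1
  simp [vec]

theorem phi_eq_zero (φ : Dual (ZMod 2) (WW V)) (h1 : ∀ u, fx φ u = 0) (h2 : ∀ u, fa φ u = 0)
    (h3 : ∀ u, fb φ u = 0) : φ = 0 := by
  have e1 : φ ∘ₗ LinearMap.inl (ZMod 2) (V → ZMod 2) ((V → ZMod 2) × (V → ZMod 2)) = 0 := by
    apply LinearMap.pi_ext'
    intro u
    ext
    have := h1 u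
    unfold fx at this
    simp only [LinearMap.comp_apply, LinearMap.inl_apply, LinearMap.zero_apply,
      LinearMap.single_apply]
    exact this
  have e2 : φ ∘ₗ LinearMap.inr (ZMod 2) (V → ZMod 2) ((V → ZMod 2) × (V → ZMod 2)) ∘ₗ
      LinearMap.inl (ZMod 2) (V → ZMod 2) (V → ZMod 2) = 0 := by
    apply LinearMap.pi_ext'
    intro u
    ext
    simpa [fa] using h2 u
  have e3 : φ ∘ₗ LinearMap.inr (ZMod 2) (V → ZMod 2) ((V → ZMod 2) × (V → ZMod 2)) ∘ₗ
      LinearMap.inr (ZMod 2) (V → ZMod 2) (V → ZMod 2) = 0 := by
    apply LinearMap.pi_ext'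
    intro u
    ext
    simpa [fb] using h3 u
  apply LinearMap.ext
  rintro ⟨x, a, b⟩
  have hsplit : ((x, a, b) : WW V) = (x, 0, 0) + ((0, a, 0) + (0, 0, b)) := by simp
  rw [hsplit, map_add, map_add]
  have g1 := LinearMap.congr_fun e1 x
  have g2 := LinearMap.congr_fun e2 a
  have g3 := LinearMap.congr_fun e3 b
  simp only [LinearMap.comp_apply, LinearMap.inl_apply, LinearMap.inr_apply,
    LinearMap.zero_apply] at g1 g2 g3
  have z : (0 : (V → ZMod 2) × (V → ZMod 2)) = (0, 0) := rfl
  rw [z] at g1
  rw [g1, g2, g3]
  simp

theorem finrank_WW : finrank (ZMod 2) (WW V) = 3 * Fintype.card V := by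
  rw [Module.finrank_prod, Module.finrank_prod, Module.finrank_fintype_fun_eq_card]
  ring

/-- two elements of `ZMod 2` -/
theorem z2_cases (a : ZMod 2) : a = 0 ∨ a = 1 := by
  revert a; decide

theorem z2_add_eq_zero {a b : ZMod 2} (h : a + b = 0) : a = b := by
  revert a b; decide

/-- The dimension of the space of functionals that vanish on all lifts of the edges of `H`. -/
theorem finrank_ann_le (H : SimpleGraph V) (U : Submodule (ZMod 2) (Dual (ZMod 2) (WW V)))
    (hx : ∀ φ ∈ U, ∀ u v, H.Adj u v → fx φ u + fx φ v = 0)
    (hab : ∀ φ ∈ U, ∀ u v, H.Adj u v → fa φ u + fb φ v = 0) :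
    finrank (ZMod 2) U ≤ 2 * numComp H + numBip H := by
  let C := H.ConnectedComponent
  let Cb := {c : H.ConnectedComponent // (H.induce c.supp).IsBipartite}
  have : Finite C := inferInstance
  letI : Fintype C := Fintype.ofFinite C
  letI : Fintype Cb := Fintype.ofFinite Cb
  let rep : C → V := fun c => Quot.out c
  have hrep : ∀ u : V, H.Reachable (rep (H.connectedComponentMk u)) u := fun u =>
    SimpleGraph.ConnectedComponent.exact (Quot.out_eq (H.connectedComponentMk u))
  let Θ : U →ₗ[ZMod 2] (C → ZMod 2) × (C → ZMod 2) × (Cb → ZMod 2) :=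
    { toFun := fun φ => (fun c => fx φ.1 (rep c), fun c => fa φ.1 (rep c),
        fun c => fb φ.1 (rep c.1))
      map_add' := fun φ ψ => rfl
      map_smul' := fun r φ => rfl }
  have hinj : Function.Injective Θ := by
    rw [← LinearMap.ker_eq_bot, LinearMap.ker_eq_bot']
    rintro ⟨φ, hφ⟩ h0
    have h1 : ∀ c : C, fx φ (rep c) = 0 := fun c => congrFun (congrArg Prod.fst h0) c
    have h2 : ∀ c : C, fa φ (rep c) = 0 := fun c =>
      congrFun (congrArg (fun z => z.2.1) h0) c
    have h3 : ∀ c : Cb, fb φ (rep c.1) = 0 := fun c =>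
      congrFun (congrArg (fun z => z.2.2) h0) c
    have x0 : ∀ u, fx φ u = 0 := by
      intro u
      have hstep : ∀ w z, H.Reachable w z → fx φ w = 0 → fx φ z = 0 := by
        rintro w z ⟨p⟩
        induction p with
        | nil => exact id
        | cons hadj p ih =>
          intro hw
          apply ih
          have := hx φ hφ _ _ hadj
          rw [hw, zero_add] at this
          exact this
      exact hstep _ _ (hrep u) (h1 _)
    have b0 : ∀ c : C, fb φ (rep c) = 0 := by
      intro c
      by_cases hc : (H.induce c.supp).IsBipartite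
      · exact h3 ⟨c, hc⟩
      rcases z2_cases (fb φ (rep c)) with h | h
      · exact h
      exfalso
      apply hc
      have hstep : ∀ w z, H.Reachable w z → fa φ w + fb φ w = 1 → fa φ z + fb φ z = 1 := by
        rintro w z ⟨p⟩
        induction p with
        | nil => exact id
        | @cons u v w hadj p ih =>
          intro hw
          apply ih
          have e1 := z2_add_eq_zero (hab φ hφ _ _ hadj)
          have e2 := z2_add_eq_zero (hab φ hφ _ _ hadj.symm)
          rw [e2, ← e1, add_comm]
          exact hw
      have hcol : ∀ u, u ∈ c.supp → fa φ u + fb φ u = 1 := by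
        intro u hu
        have hmk : H.connectedComponentMk u = c := hu
        have hr := hrep u
        rw [hmk] at hr
        apply hstep _ _ hr
        rw [h2 c, h, zero_add]
      have col : (H.induce c.supp).Coloring (ZMod 2) := by
        refine SimpleGraph.Coloring.mk (fun u => fa φ u.1) ?_
        rintro ⟨u, hu⟩ ⟨v, hv⟩ hadj
        have hadj' : H.Adj u v := hadj
        have e2 := z2_add_eq_zero (hab φ hφ _ _ hadj'.symm)
        have e3 := hcol u hu
        simp only
        rw [e2]
        intro e4
        rw [e4] at e3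
        have : ∀ t : ZMod 2, t + t ≠ 1 := by decide
        exact this _ e3
      have := col.colorable
      rwa [ZMod.card] at this
    have ab0 : ∀ u, fa φ u = 0 ∧ fb φ u = 0 := by
      intro u
      have hstep : ∀ w z, H.Reachable w z → fa φ w = 0 ∧ fb φ w = 0 →
          fa φ z = 0 ∧ fb φ z = 0 := by
        rintro w z ⟨p⟩
        induction p with
        | nil => exact id
        | @cons u v w hadj p ih =>
          intro hw
          apply ih
          have e1 := z2_add_eq_zero (hab φ hφ _ _ hadj)
          have e2 := z2_add_eq_zero (hab φ hφ _ _ hadj.symm)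
          exact ⟨e2.trans hw.2, e1.symm.trans hw.1⟩
      exact hstep _ _ (hrep u) ⟨h2 _, b0 _⟩
    have : φ = 0 := phi_eq_zero φ x0 (fun u => (ab0 u).1) (fun u => (ab0 u).2)
    exact Subtype.ext this
  have hle := LinearMap.finrank_le_finrank_of_injective hinj
  rw [Module.finrank_prod, Module.finrank_prod, Module.finrank_fintype_fun_eq_card,
    Module.finrank_fintype_fun_eq_card] at hle
  have e1 : numComp H = Fintype.card C := Nat.card_eq_fintype_card
  have e2 : numBip H = Fintype.card Cb := Nat.card_eq_fintype_card
  omega

end Pool.Agent.SAO
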