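import Pool.Agent.SAO.Main

/-!
# Six-edge-connected graphs
-/

set_option autoImplicit false

namespace Pool.Agent.SAO

open Classical

variable {V : Type} [Fintype V]

/-- the edges of `G` which leave the component `c` of `H` -/
noncomputable def bd (G H : SimpleGraph V) (c : H.ConnectedComponent) : Finset (Sym2 V) :=
  Finset.univ.filter fun e => e ∈ G.edgeSet ∧ (∃ u ∈ e, u ∈ c.supp) ∧ ∃ v ∈ e, v ∉ c.supp

theorem card_bd {G H : SimpleGraph V} (hG : G.IsEdgeConnected 6) (c : H.ConnectedComponent)
    (hc : ∃ v, v ∉ c.supp) : 6 ≤ (bd G H c).card := by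
  by_contra hlt
  push Not at hlt
  obtain ⟨v, hv⟩ := hc
  obtain ⟨u, hu⟩ := c.nonempty_supp
  have hr := hG u v (s := (bd G H c : Set (Sym2 V))) (by
    rw [Set.encard_coe_eq_coe_finsetCard]
    exact_mod_cast hlt)
  have hcl : ∀ w z, (G.deleteEdges (bd G H c : Set (Sym2 V))).Reachable w z → w ∈ c.supp →
      z ∈ c.supp := by
    rintro w z ⟨p⟩
    induction p with
    | nil => exact id
    | @cons a b d hadj p ih =>
      intro ha
      apply ih
      by_contra hb
      rw [SimpleGraph.deleteEdges_adj] at hadj
      apply hadj.2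
      rw [Finset.mem_coe]
      unfold bd
      rw [Finset.mem_filter]
      exact ⟨Finset.mem_univ _, hadj.1, ⟨a, Sym2.mem_mk_left a b, ha⟩,
        ⟨b, Sym2.mem_mk_right a b, hb⟩⟩
  exact hv (hcl u v hr hu)

theorem three_mul_numComp_le {G H : SimpleGraph V} (hG : G.IsEdgeConnected 6) (hH : H ≤ G)
    (h2 : 2 ≤ numComp H) : 3 * numComp H ≤ (G.edgeSet \ H.edgeSet).ncard := by
  have : Finite H.ConnectedComponent := inferInstance
  let : Fintype H.ConnectedComponent := Fintype.ofFinite _
  have hnc : numComp H = Fintype.card H.ConnectedComponent := Nat.card_eq_fintype_card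
  have hnt : Nontrivial H.ConnectedComponent := by
    rw [← Fintype.one_lt_card_iff_nontrivial]; omega
  let K : Finset (Sym2 V) := Finset.univ.filter fun e => e ∈ G.edgeSet \ H.edgeSet
  have hK : (G.edgeSet \ H.edgeSet).ncard = K.card := by
    rw [← Set.ncard_coe_finset]
    congr 1
    ext e
    simp [K]
  -- the boundaries
  have hbd : ∀ c : H.ConnectedComponent, 6 ≤ (bd G H c).card := by
    intro c
    apply card_bd hG
    obtain ⟨d, hd⟩ := exists_ne c
    obtain ⟨v, hv⟩ := d.nonempty_supp
    refine ⟨v, fun h => hd ?_⟩
    have e1 : H.connectedComponentMk v = d := hv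
    have e2 : H.connectedComponentMk v = c := h
    rw [← e1, e2]
  have hsub : ∀ c : H.ConnectedComponent, bd G H c ⊆ K := by
    intro c e he
    unfold bd at he
    rw [Finset.mem_filter] at he
    obtain ⟨-, h1, ⟨u, hu, hu'⟩, v, hv, hv'⟩ := he
    rw [Finset.mem_filter]
    refine ⟨Finset.mem_univ _, h1, fun h3 => ?_⟩
    have huv : u ≠ v := fun h => hv' (h ▸ hu')
    have he : e = s(u, v) := by
      rw [← Sym2.mem_and_mem_iff huv]
      exact ⟨hu, hv⟩
    rw [he, SimpleGraph.mem_edgeSet] at h3
    apply hv'
    have e1 : H.connectedComponentMk u = c := hu'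
    have e2 : H.connectedComponentMk v = H.connectedComponentMk u :=
      SimpleGraph.ConnectedComponent.sound h3.symm.reachable
    exact e2.trans e1
  -- double counting
  have hcount : ∑ c : H.ConnectedComponent, (bd G H c).card ≤ ∑ e ∈ K, 2 := by
    have h1 : ∀ c : H.ConnectedComponent, (bd G H c).card =
        ∑ e ∈ K, if e ∈ bd G H c then 1 else 0 := by
      intro c
      rw [Finset.sum_boole, Finset.filter_mem_eq_inter, Finset.inter_eq_right.2 (hsub c)]
      simp
    rw [Finset.sum_congr rfl fun c _ => h1 c, Finset.sum_comm]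
    apply Finset.sum_le_sum
    intro e _
    rw [Finset.sum_boole, Nat.cast_id]
    induction e using Sym2.ind with
    | h u v =>
      have : (Finset.univ.filter fun c : H.ConnectedComponent => s(u, v) ∈ bd G H c) ⊆
          {H.connectedComponentMk u, H.connectedComponentMk v} := by
        intro c hc
        rw [Finset.mem_filter] at hc
        have hc2 := hc.2
        unfold bd at hc2
        rw [Finset.mem_filter] at hc2
        obtain ⟨-, -, ⟨w, hw, hw'⟩, -⟩ := hc2
        rw [Sym2.mem_iff] at hw
        have e1 : H.connectedComponentMk w = c := hw'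
        rcases hw with rfl | rfl
        · simp [e1]
        · simp [e1]
      exact (Finset.card_le_card this).trans Finset.card_le_two
  have h6 : ∑ c : H.ConnectedComponent, 6 ≤ ∑ c : H.ConnectedComponent, (bd G H c).card :=
    Finset.sum_le_sum fun c _ => hbd c
  rw [Finset.sum_const, smul_eq_mul, Finset.card_univ, ← hnc] at h6
  rw [Finset.sum_const, smul_eq_mul, ← hK] at hcount
  omega

theorem numBip_le (H : SimpleGraph V) : numBip H ≤ numComp H := by
  unfold numBip numComp
  exact Nat.card_le_card_of_injective _ Subtype.val_injective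

theorem Rich.of_six {G : SimpleGraph V} (hG : G.IsEdgeConnected 6) [Nonempty V]
    (hb : ¬ G.IsBipartite) : Rich G := by
  intro H hH
  have hpos : 0 < numComp H := by
    have : Nonempty H.ConnectedComponent := ⟨H.connectedComponentMk (Classical.arbitrary V)⟩
    exact Nat.card_pos
  have hble := numBip_le H
  by_cases h2 : 2 ≤ numComp H
  · have := three_mul_numComp_le hG hH h2
    omega
  have h1 : numComp H = 1 := by omega
  by_cases h0 : numBip H = 0
  · omega
  -- a connected bipartite subgraph is not everything
  have hne : (G.edgeSet \ H.edgeSet).Nonempty := by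
    rw [Set.nonempty_iff_ne_empty]
    intro hemp
    rw [Set.sdiff_eq_empty, SimpleGraph.edgeSet_subset_edgeSet] at hemp
    have hGH : G = H := le_antisymm hemp hH
    apply hb
    rw [hGH]
    unfold numBip at h0
    have hpos' : 0 < Nat.card {c : H.ConnectedComponent // (H.induce c.supp).IsBipartite} := by
      omega
    obtain ⟨⟨⟨c, hc⟩⟩, -⟩ := Nat.card_pos_iff.1 hpos'
    have hall : ∀ v, v ∈ c.supp := by
      intro v
      have hsub : Subsingleton H.ConnectedComponent := by
        rw [← Finite.card_le_one_iff_subsingleton]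
        exact h1.le
      exact Subsingleton.elim _ _
    obtain ⟨C⟩ := hc
    exact ⟨SimpleGraph.Coloring.mk (fun v => C ⟨v, hall v⟩) (fun {u v} huv => C.valid (by exact huv))⟩
  have : 0 < (G.edgeSet \ H.edgeSet).ncard := (Set.ncard_pos (Set.toFinite _)).2 hne
  omega

/-- A six-edge-connected graph with more than one vertex has an orientation which is both strong
and antistrong if and only if it is not bipartite. -/
theorem six_iff [Nontrivial V] {G : SimpleGraph V} (hG : G.IsEdgeConnected 6) :
    (∃ D : V → V → Prop, IsOrientation G D ∧ IsStrong D ∧ IsAntistrong D) ↔ ¬ G.IsBipartite := by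
  constructor
  · rintro ⟨D, h1, -, h3⟩ hb
    exact not_antistrong_of_bipartite hb h1 h3
  · intro hb
    apply (Rich.of_six hG hb).exists_orientation
    obtain ⟨u⟩ : Nonempty V := inferInstance
    have hdeg := SimpleGraph.IsEdgeConnected.le_degree (u := u) hG
    have := G.degree_lt_card_verts u
    omega

end Pool.Agent.SAO
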