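import Pool.Agent.SAO.Val

/-!
# From algebraic independence to an orientation
-/

set_option autoImplicit false

namespace Pool.Agent.SAO

open Classical

section

variable {V : Type} [Fintype V] {K : Type} [Field K] {Γ : Type} [LinearOrderedCommGroupWithZero Γ]

/-- the edges of value at least `g` -/
def hg (G : SimpleGraph V) (x : V → V → K) (v : Valuation K Γ) (h1 : ∀ u v, x v u = - x u v)
    (g : Γ) : SimpleGraph V where
  Adj a b := G.Adj a b ∧ g ≤ v (x a b)
  symm := ⟨fun a b h => ⟨h.1.symm, by rw [h1 a b, Valuation.map_neg]; exact h.2⟩⟩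
  loopless := ⟨fun a h => G.loopless.irrefl a h.1⟩

/-- the linear form of a level -/
noncomputable def lf (G : SimpleGraph V) (x : V → V → K) (v : Valuation K Γ) (g : Γ) :
    (V → ℚ) →ₗ[ℚ] ℚ :=
  ∑ a : V, ∑ b : V, if G.Adj a b ∧ v (x a b) = g then LinearMap.proj a else 0

theorem lf_apply (G : SimpleGraph V) (x : V → V → K) (v : Valuation K Γ) (g : Γ) (y : V → ℚ) :
    lf G x v g y = ∑ a, ∑ b, if G.Adj a b ∧ v (x a b) = g then y a else 0 := by
  unfold lf
  simp only [LinearMap.sum_apply]
  apply Finset.sum_congr rfl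
  intro a _
  apply Finset.sum_congr rfl
  intro b _
  split_ifs
  · rfl
  · rfl

/-- the total net flow out of a set is zero -/
theorem cut_sum {x : V → V → K} (hx1 : ∀ u v, x v u = - x u v) (hx3 : ∀ u, ∑ v, x u v = 0)
    [CharZero K] (X : Set V) :
    ∑ p ∈ Finset.univ.filter (fun p : V × V => p.1 ∈ X ∧ p.2 ∉ X), x p.1 p.2 = 0 := by
  have h1 : ∑ a, ∑ b, (if a ∈ X then x a b else 0) = 0 := by
    apply Finset.sum_eq_zero
    intro a _
    by_cases ha : a ∈ X
    · simp_rw [if_pos ha]; exact hx3 a
    · simp_rw [if_neg ha]; exact Finset.sum_const_zero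
  have h2 : ∑ a, ∑ b, (if a ∈ X ∧ b ∈ X then x a b else 0) = 0 := by
    have h3 : ∑ a, ∑ b, (if a ∈ X ∧ b ∈ X then x a b else 0) =
        - ∑ a, ∑ b, (if a ∈ X ∧ b ∈ X then x a b else 0) := by
      conv_lhs => rw [Finset.sum_comm]
      rw [← Finset.sum_neg_distrib]
      apply Finset.sum_congr rfl
      intro a _
      rw [← Finset.sum_neg_distrib]
      apply Finset.sum_congr rfl
      intro b _
      by_cases hab : a ∈ X ∧ b ∈ X
      · rw [if_pos hab, if_pos hab.symm]
        exact hx1 a b
      · rw [if_neg hab, if_neg fun h => hab h.symm, neg_zero]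
    have h4 : (2 : K) * ∑ a, ∑ b, (if a ∈ X ∧ b ∈ X then x a b else 0) = 0 := by
      rw [two_mul]
      nth_rewrite 1 [h3]
      ring
    exact (mul_eq_zero.1 h4).resolve_left two_ne_zero
  have h5 : ∑ a, ∑ b, (if a ∈ X ∧ b ∉ X then x a b else 0) =
      ∑ a, ∑ b, (if a ∈ X then x a b else 0) - ∑ a, ∑ b, (if a ∈ X ∧ b ∈ X then x a b else 0) := by
    rw [← Finset.sum_sub_distrib]
    apply Finset.sum_congr rfl
    intro a _
    rw [← Finset.sum_sub_distrib]
    apply Finset.sum_congr rfl
    intro b _
    by_cases ha : a ∈ X <;> by_cases hb : b ∈ X <;> simp [ha, hb]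
  rw [Finset.sum_filter, Fintype.sum_prod_type]
  refine Eq.trans ?_ (h5.trans (by rw [h1, h2, sub_zero]))
  rfl

theorem hg_bridgeless {G : SimpleGraph V} {x : V → V → K} (v : Valuation K Γ)
    (hx1 : ∀ u v, x v u = - x u v) (hx2 : ∀ a b, ¬ G.Adj a b → x a b = 0)
    (hx3 : ∀ u, ∑ v, x u v = 0) [CharZero K] {g : Γ} (hg0 : 0 < g) :
    Bridgeless (hg G x v hx1 g) := by
  intro X a ha b hb hab
  by_contra hcon
  push Not at hcon
  have h1 := cut_sum hx1 hx3 X
  have hmem : (a, b) ∈ Finset.univ.filter (fun p : V × V => p.1 ∈ X ∧ p.2 ∉ X) :=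
    Finset.mem_filter.2 ⟨Finset.mem_univ _, ha, hb⟩
  rw [← Finset.add_sum_erase _ _ hmem] at h1
  have h2 : x a b = - ∑ p ∈ (Finset.univ.filter (fun p : V × V => p.1 ∈ X ∧ p.2 ∉ X)).erase (a, b),
      x p.1 p.2 := eq_neg_of_add_eq_zero_left h1
  have h3 : v (x a b) < g := by
    rw [h2, Valuation.map_neg]
    apply Valuation.map_sum_lt v hg0.ne'
    intro p hp
    rw [Finset.mem_erase, Finset.mem_filter] at hp
    by_cases hadj : G.Adj p.1 p.2
    · by_contra hge
      push Not at hge
      exact hp.1 (hcon p.1 hp.2.2.1 p.2 hp.2.2.2 ⟨hadj, hge⟩)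
    · rw [hx2 _ _ hadj, map_zero]
      exact hg0
  exact absurd hab.2 (not_le.2 h3)

/-- the values -/
noncomputable def vals (G : SimpleGraph V) (x : V → V → K) (v : Valuation K Γ) : Finset Γ :=
  (Finset.univ.filter fun p : V × V => G.Adj p.1 p.2).image fun p => v (x p.1 p.2)

/-- the vectors killed by the lower levels -/
noncomputable def nl (G : SimpleGraph V) (x : V → V → K) (v : Valuation K Γ) (g : Γ) :
    Submodule ℚ (V → ℚ) :=
  ⨅ g' ∈ (vals G x v).filter fun g' => g' < g, LinearMap.ker (lf G x v g')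

theorem mem_nl {G : SimpleGraph V} {x : V → V → K} {v : Valuation K Γ} {g : Γ} {y : V → ℚ} :
    y ∈ nl G x v g ↔ ∀ g' ∈ vals G x v, g' < g → lf G x v g' y = 0 := by
  unfold nl
  simp only [Submodule.mem_iInf, LinearMap.mem_ker, Finset.mem_filter]
  constructor
  · intro h g' h1 h2
    exact h g' ⟨h1, h2⟩
  · intro h g' h1
    exact h g' h1.1 h1.2

theorem good_levels {G : SimpleGraph V} {x : V → V → K} (v : Valuation K Γ)
    (hx1 : ∀ u v, x v u = - x u v) (hx2 : ∀ a b, x a b ≠ 0 ↔ G.Adj a b)
    (hx3 : ∀ u, ∑ v, x u v = 0) [CharZero K]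
    (hz : ∀ y : V → ℚ, (∀ g ∈ vals G x v, lf G x v g y = 0) → y = 0) :
    ∀ (n : ℕ) (g : Γ), g ∈ vals G x v → ((vals G x v).filter fun g' => g < g').card = n →
      Good (hg G x v hx1 g) (nl G x v g) := by
  intro n
  induction n using Nat.strong_induction_on with
  | _ n ih =>
    intro g hgv hn
    have hg0 : 0 < g := by
      obtain ⟨p, hp, rfl⟩ := Finset.mem_image.1 hgv
      have h1 := (hx2 p.1 p.2).2 (Finset.mem_filter.1 hp).2
      exact zero_lt_iff.2 ((Valuation.ne_zero_iff v).2 h1)
    have hval : ∀ a b, G.Adj a b → v (x a b) ∈ vals G x v := fun a b hab =>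
      Finset.mem_image.2 ⟨(a, b), Finset.mem_filter.2 ⟨Finset.mem_univ _, hab⟩, rfl⟩
    by_cases hemp : ((vals G x v).filter fun g' => g < g') = ∅
    · -- the top level
      apply Good.step (H' := ⊥) bot_le (hg_bridgeless v hx1
        (fun a b h => by by_contra h'; exact h ((hx2 a b).1 h')) hx3 hg0)
      refine ⟨fun _ _ => False, ⟨fun _ _ h => h.elim, fun u w h => ?_⟩, ?_, ?_⟩
      · exact absurd h (by simp)
      · rintro X ⟨u, _, w, _, h⟩
        exact h.elim
      · rintro y ⟨hy1, hy2⟩ p -
        apply hz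
        intro g' hg'
        rcases lt_trichotomy g' g with h1 | h1 | h1
        · exact (mem_nl.1 hy1) g' hg' h1
        · subst h1
          have h2 : dg (⊥ : SimpleGraph V) y = 0 := by
            rw [dg_apply]
            apply Finset.sum_eq_zero
            intro u _
            apply Finset.sum_eq_zero
            intro w _
            exact if_neg fun h => h
          rw [SetLike.mem_coe, LinearMap.mem_ker, LinearMap.sub_apply, h2, sub_zero,
            dg_apply] at hy2
          rw [lf_apply]
          refine Eq.trans ?_ hy2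
          apply Finset.sum_congr rfl
          intro a _
          apply Finset.sum_congr rfl
          intro b _
          apply if_congr _ rfl rfl
          constructor
          · rintro ⟨k1, k2⟩
            exact ⟨k1, k2.ge⟩
          · rintro ⟨k1, k2⟩
            refine ⟨k1, ?_⟩
            by_contra hne
            have h3 : v (x a b) ∈ (vals G x v).filter fun g'' => g' < g'' :=
              Finset.mem_filter.2 ⟨hval a b k1, lt_of_le_of_ne k2 (Ne.symm hne)⟩
            rw [hemp] at h3
            exact absurd h3 (Finset.notMem_empty _)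
        · have h3 : g' ∈ (vals G x v).filter fun g'' => g < g'' := Finset.mem_filter.2 ⟨hg', h1⟩
          rw [hemp] at h3
          exact absurd h3 (Finset.notMem_empty _)
    · -- the next level
      have hne := Finset.nonempty_iff_ne_empty.2 hemp
      let g₁ := ((vals G x v).filter fun g' => g < g').min' hne
      have hg₁ := Finset.min'_mem _ hne
      have hg₁' : g₁ ∈ vals G x v ∧ g < g₁ := by
        have := Finset.mem_filter.1 hg₁
        exact this
      have hbet : ∀ g' ∈ vals G x v, g < g' → g₁ ≤ g' := fun g' k1 k2 =>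
        Finset.min'_le _ _ (Finset.mem_filter.2 ⟨k1, k2⟩)
      have hlt : ((vals G x v).filter fun g' => g₁ < g').card < n := by
        rw [← hn]
        apply Finset.card_lt_card
        rw [Finset.ssubset_iff_of_subset]
        · refine ⟨g₁, hg₁, ?_⟩
          intro h
          exact lt_irrefl _ (Finset.mem_filter.1 h).2
        · intro g' hg'
          have := Finset.mem_filter.1 hg'
          exact Finset.mem_filter.2 ⟨this.1, hg₁'.2.trans this.2⟩
      have hG := ih _ hlt g₁ hg₁'.1 rfl
      have hle : hg G x v hx1 g₁ ≤ hg G x v hx1 g := by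
        intro a b hab
        exact ⟨hab.1, hg₁'.2.le.trans hab.2⟩
      apply Good.step hle (hg_bridgeless v hx1
        (fun a b h => by by_contra h'; exact h ((hx2 a b).1 h')) hx3 hg0)
      obtain ⟨D, hD1, hD2, hD3⟩ := hG
      refine ⟨D, hD1, hD2, ?_⟩
      rintro y ⟨hy1, hy2⟩ p hp
      apply hD3 y _ p hp
      rw [mem_nl]
      intro g' hg' hg'lt
      rcases lt_trichotomy g' g with h1 | h1 | h1
      · exact (mem_nl.1 hy1) g' hg' h1
      · subst h1
        rw [SetLike.mem_coe, LinearMap.mem_ker, LinearMap.sub_apply, dg_apply, dg_apply,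
          ← Finset.sum_sub_distrib] at hy2
        rw [lf_apply]
        refine Eq.trans ?_ hy2
        apply Finset.sum_congr rfl
        intro a _
        rw [← Finset.sum_sub_distrib]
        apply Finset.sum_congr rfl
        intro b _
        have e1 : (hg G x v hx1 g').Adj a b ↔ G.Adj a b ∧ g' ≤ v (x a b) := Iff.rfl
        have e2 : (hg G x v hx1 g₁).Adj a b ↔ G.Adj a b ∧ g₁ ≤ v (x a b) := Iff.rfl
        by_cases hab : G.Adj a b
        · rcases lt_trichotomy (v (x a b)) g' with k | k | k
          · rw [if_neg fun h => k.ne h.2, if_neg fun h => (e1.1 h).2.not_gt k,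
              if_neg fun h => (e2.1 h).2.not_gt (k.trans hg₁'.2), sub_zero]
          · rw [if_pos ⟨hab, k⟩, if_pos (e1.2 ⟨hab, k.ge⟩),
              if_neg fun h => (e2.1 h).2.not_gt (k ▸ hg₁'.2), sub_zero]
          · rw [if_neg fun h => k.ne' h.2, if_pos (e1.2 ⟨hab, k.le⟩),
              if_pos (e2.2 ⟨hab, hbet _ (hval a b hab) k⟩), sub_self]
        · rw [if_neg fun h => hab h.1, if_neg fun h => hab (e1.1 h).1,
            if_neg fun h => hab (e2.1 h).1, sub_zero]
      · exact absurd (hbet g' hg' h1) (not_le.2 hg'lt)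

/-- A vector which is killed by all levels is zero. -/
theorem levels_zero {G : SimpleGraph V} {x : V → V → K} (v : Valuation K Γ)
    (hmon : ∀ a : V → ℤ,
      v (mon (fun u => ∏ w ∈ Finset.univ.filter (fun w => G.Adj u w), x u w) a) = 1 → a = 0)
    (hx2 : ∀ a b, x a b ≠ 0 ↔ G.Adj a b)
    (y : V → ℚ) (hy : ∀ g ∈ vals G x v, lf G x v g y = 0) : y = 0 := by
  -- an integer multiple
  let k : ℕ := ∏ u, (y u).den
  have hk : k ≠ 0 := Finset.prod_ne_zero_iff.2 fun u _ => (y u).den_nz
  have hint : ∀ u, ∃ a : ℤ, (a : ℚ) = k * y u := by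
    intro u
    refine ⟨(∏ w ∈ Finset.univ.erase u, ((y w).den : ℤ)) * (y u).num, ?_⟩
    have h1 : (k : ℚ) = (∏ w ∈ Finset.univ.erase u, ((y w).den : ℚ)) * (y u).den := by
      simp only [k]
      rw [Nat.cast_prod, ← Finset.mul_prod_erase Finset.univ _ (Finset.mem_univ u), mul_comm]
    push_cast
    rw [h1, mul_assoc, mul_comm ((y u).den : ℚ), Rat.mul_den_eq_num]
  choose a ha using hint
  have h0 : a = 0 := by
    apply hmon
    have hne : ∀ p ∈ Finset.univ.filter (fun p : V × V => G.Adj p.1 p.2), v (x p.1 p.2) ≠ 0 := by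
      intro p hp
      exact (Valuation.ne_zero_iff v).2 ((hx2 _ _).2 (Finset.mem_filter.1 hp).2)
    have h1 : v (mon (fun u => ∏ w ∈ Finset.univ.filter (fun w => G.Adj u w), x u w) a) =
        ∏ p ∈ Finset.univ.filter (fun p : V × V => G.Adj p.1 p.2), v (x p.1 p.2) ^ a p.1 := by
      unfold mon
      rw [map_prod, Finset.prod_filter, Fintype.prod_prod_type]
      apply Finset.prod_congr rfl
      intro u _
      rw [map_zpow₀, map_prod, ← Finset.prod_zpow, Finset.prod_filter]
    rw [h1, ← Finset.prod_fiberwise_of_maps_to (t := vals G x v) (g := fun p => v (x p.1 p.2))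
      (fun p hp => by
        unfold vals
        exact Finset.mem_image_of_mem (fun p : V × V => v (x p.1 p.2)) hp)]
    apply Finset.prod_eq_one
    intro g hg
    have h2 : ∏ p ∈ (Finset.univ.filter (fun p : V × V => G.Adj p.1 p.2)).filter
        (fun p => v (x p.1 p.2) = g), v (x p.1 p.2) ^ a p.1 =
        ∏ p ∈ (Finset.univ.filter (fun p : V × V => G.Adj p.1 p.2)).filter
        (fun p => v (x p.1 p.2) = g), g ^ a p.1 := by
      apply Finset.prod_congr rfl
      intro p hp
      rw [(Finset.mem_filter.1 hp).2]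
    have hg0 : g ≠ 0 := by
      obtain ⟨p, hp, rfl⟩ := Finset.mem_image.1 hg
      exact hne p hp
    have h3 : ∀ s : Finset (V × V), ∏ p ∈ s, g ^ a p.1 = g ^ ∑ p ∈ s, a p.1 := by
      intro s
      induction s using Finset.induction_on with
      | empty => simp
      | insert p s hp ih => rw [Finset.prod_insert hp, Finset.sum_insert hp, ih, zpow_add₀ hg0]
    rw [h2, h3]
    have h4 : ∑ p ∈ (Finset.univ.filter (fun p : V × V => G.Adj p.1 p.2)).filter
        (fun p => v (x p.1 p.2) = g), a p.1 = 0 := by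
      have h5 : ((∑ p ∈ (Finset.univ.filter (fun p : V × V => G.Adj p.1 p.2)).filter
          (fun p => v (x p.1 p.2) = g), a p.1 : ℤ) : ℚ) = k * lf G x v g y := by
        rw [Int.cast_sum, Finset.filter_filter, Finset.sum_filter, Fintype.sum_prod_type,
          lf_apply, Finset.mul_sum]
        apply Finset.sum_congr rfl
        intro u _
        rw [Finset.mul_sum]
        apply Finset.sum_congr rfl
        intro w _
        rw [mul_ite, mul_zero, ha u]
      rw [hy g hg, mul_zero] at h5
      exact_mod_cast h5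
    rw [h4, zpow_zero]
  funext u
  have h1 := ha u
  rw [h0] at h1
  have h2 : (k : ℚ) ≠ 0 := by exact_mod_cast hk
  have h3 : (k : ℚ) * y u = 0 := by rw [← h1]; simp
  exact (mul_eq_zero.1 h3).resolve_left h2

end

variable {V : Type} [Fintype V]

theorem good_of_algebraicIndependent (G : SimpleGraph V) {L : Type} [Field L]
    [Algebra ℚ L] (x : V → V → L) (h1 : ∀ u v, x v u = - x u v)
    (h2 : ∀ u v, x u v ≠ 0 ↔ G.Adj u v) (h3 : ∀ u, ∑ v, x u v = 0)
    (h4 : AlgebraicIndependent ℚ (fun v => ∏ w ∈ Finset.univ.filter (fun w => G.Adj v w), x v w)) :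
    Good G ⊤ := by
  have : CharZero L := algebraRat.charZero L
  obtain ⟨B, hB⟩ := exists_valuation h4
  have hz := levels_zero (G := G) (x := x) B.valuation hB h2
  have hlev := good_levels (G := G) B.valuation h1 h2 h3 hz
  by_cases hemp : vals G x B.valuation = ∅
  · -- no edges
    refine ⟨fun _ _ => False, ⟨fun _ _ h => h.elim, fun u w h => ?_⟩, ?_, ?_⟩
    · exfalso
      have : B.valuation (x u w) ∈ vals G x B.valuation :=
        Finset.mem_image.2 ⟨(u, w), Finset.mem_filter.2 ⟨Finset.mem_univ _, h⟩, rfl⟩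
      rw [hemp] at this
      exact absurd this (Finset.notMem_empty _)
    · rintro X ⟨u, _, w, _, h⟩
      exact h.elim
    · intro y _ p _
      apply hz
      rw [hemp]
      intro g hg
      exact absurd hg (Finset.notMem_empty _)
  · have hne := Finset.nonempty_iff_ne_empty.2 hemp
    have hmin := Finset.min'_mem _ hne
    have h5 := hlev _ _ hmin rfl
    have h6 : hg G x B.valuation h1 ((vals G x B.valuation).min' hne) = G := by
      ext a b
      constructor
      · exact fun h => h.1
      · intro hab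
        exact ⟨hab, Finset.min'_le _ _
          (Finset.mem_image.2 ⟨(a, b), Finset.mem_filter.2 ⟨Finset.mem_univ _, hab⟩, rfl⟩)⟩
    have h7 : nl G x B.valuation ((vals G x B.valuation).min' hne) = ⊤ := by
      rw [eq_top_iff]
      intro y _
      rw [mem_nl]
      intro g' hg' hlt
      exact absurd (Finset.min'_le _ _ hg') (not_le.2 hlt)
    rw [h6, h7] at h5
    exact h5

end Pool.Agent.SAO
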