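import Pool.Agent.SAO.TDefs
import Pool.Agent.SAO.Val2

/-!
# Cuts and multiplicative circulations
-/

set_option autoImplicit false

namespace Pool.Agent.SAO

open Classical

variable {V : Type} [Fintype V]

theorem MultCirc.cut {G : SimpleGraph V} {M : Type} [CommMonoid M] {l : V → V → M}
    (h : MultCirc G l) (X : Set V) :
    ∏ p ∈ Finset.univ.filter (fun p : V × V => p.1 ∈ X ∧ p.2 ∉ X), l p.1 p.2 = 1 := by
  have h1 : ∏ p ∈ Finset.univ.filter (fun p : V × V => p.1 ∈ X ∧ p.2 ∈ X), l p.1 p.2 = 1 := by
    apply Finset.prod_involution (fun p _ => (p.2, p.1))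
    · intro p _
      exact h.inv _ _
    · rintro ⟨a, b⟩ _ hne heq
      have h1 : b = a := congrArg Prod.fst heq
      subst h1
      exact hne (h.out _ _ (G.loopless.irrefl _))
    · rintro ⟨a, b⟩ hp
      rw [Finset.mem_filter] at hp ⊢
      exact ⟨Finset.mem_univ _, hp.2.2, hp.2.1⟩
    · intro p _
      rfl
  have h2 : ∏ p ∈ Finset.univ.filter (fun p : V × V => p.1 ∈ X), l p.1 p.2 = 1 := by
    rw [Finset.prod_filter, Fintype.prod_prod_type]
    apply Finset.prod_eq_one
    intro a _
    by_cases ha : a ∈ X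
    · simp only [ha, if_true]
      exact h.prod a
    · simp [ha]
  have h3 : Finset.univ.filter (fun p : V × V => p.1 ∈ X) =
      Finset.univ.filter (fun p : V × V => p.1 ∈ X ∧ p.2 ∈ X) ∪
      Finset.univ.filter (fun p : V × V => p.1 ∈ X ∧ p.2 ∉ X) := by
    ext p
    simp only [Finset.mem_filter, Finset.mem_univ, true_and, Finset.mem_union]
    tauto
  rw [h3, Finset.prod_union, h1, one_mul] at h2
  · exact h2
  · rw [Finset.disjoint_left]
    intro p hp hp'
    exact (Finset.mem_filter.1 hp').2.2 (Finset.mem_filter.1 hp).2.2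

section

variable {K : Type} [Field K] {Γ : Type} [LinearOrderedCommGroupWithZero Γ]

/-- the level of an edge -/
noncomputable def lev (v : Valuation K Γ) (l : V → V → K) (a b : V) : Γ :=
  min (v (l a b - 1)) (v (l b a - 1))

omit [Fintype V] in
theorem lev_symm (v : Valuation K Γ) (l : V → V → K) (a b : V) : lev v l a b = lev v l b a :=
  min_comm _ _

theorem MultCirc.ne_zero {G : SimpleGraph V} {l : V → V → K} (h : MultCirc G l) (a b : V) :
    l a b ≠ 0 := left_ne_zero_of_mul (by rw [h.inv a b]; exact one_ne_zero)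

theorem MultCirc.eq_inv {G : SimpleGraph V} {l : V → V → K} (h : MultCirc G l) (a b : V) :
    l b a = (l a b)⁻¹ := eq_inv_of_mul_eq_one_right (h.inv a b)

theorem MultCirc.v_inv {G : SimpleGraph V} {l : V → V → K} (h : MultCirc G l) (v : Valuation K Γ)
    (a b : V) : v (l a b) * v (l b a) = 1 := by
  rw [← map_mul, h.inv, map_one]

/-- on an edge of value one the level is `v (l - 1)` -/
theorem MultCirc.lev_one {G : SimpleGraph V} {l : V → V → K} (h : MultCirc G l) (v : Valuation K Γ)
    {a b : V} (hab : v (l a b) = 1) : v (l b a - 1) = v (l a b - 1) ∧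
      lev v l a b = v (l a b - 1) := by
  have h1 : v (l b a) = 1 := by
    have := h.v_inv v a b
    rw [hab, one_mul] at this
    exact this
  have h2 : l b a - 1 = - (l b a * (l a b - 1)) := by
    have := h.inv b a
    linear_combination this
  have h3 : v (l b a - 1) = v (l a b - 1) := by
    rw [h2, Valuation.map_neg, map_mul, h1, one_mul]
  exact ⟨h3, by unfold lev; rw [h3, min_self]⟩

theorem MultCirc.v_gt {G : SimpleGraph V} {l : V → V → K} (h : MultCirc G l) (v : Valuation K Γ)
    {a b : V} (hab : 1 < v (l a b)) : v (l b a) < 1 ∧ v (l a b - 1) = v (l a b) ∧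
      v (l b a - 1) = 1 ∧ lev v l a b = 1 := by
  have h1 : v (l b a) < 1 := by
    have h2 := h.v_inv v a b
    by_contra hcon
    push Not at hcon
    have h3 : 1 < v (l a b) * v (l b a) := by
      calc (1 : Γ) < v (l a b) := hab
        _ = v (l a b) * 1 := (mul_one _).symm
        _ ≤ v (l a b) * v (l b a) := by gcongr
    rw [h2] at h3
    exact lt_irrefl _ h3
  have h2 : v (l a b - 1) = v (l a b) := by
    rw [Valuation.map_sub_eq_of_lt_left]
    rw [map_one]; exact hab
  have h3 : v (l b a - 1) = 1 := by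
    rw [Valuation.map_sub_eq_of_lt_right, map_one]
    rw [map_one]; exact h1
  refine ⟨h1, h2, h3, ?_⟩
  unfold lev
  rw [h2, h3, min_eq_right hab.le]

theorem MultCirc.lev_ne {G : SimpleGraph V} {l : V → V → K} (h : MultCirc G l) (v : Valuation K Γ)
    {a b : V} (hab : v (l a b) ≠ 1) : lev v l a b = 1 := by
  rcases lt_or_gt_of_ne hab with h1 | h1
  · have h2 : 1 < v (l b a) := by
      have h2 := h.v_inv v a b
      by_contra hcon
      push Not at hcon
      have h3 : v (l a b) * v (l b a) < 1 := by
        calc v (l a b) * v (l b a) ≤ v (l a b) * 1 := by gcongr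
          _ = v (l a b) := mul_one _
          _ < 1 := h1
      rw [h2] at h3
      exact lt_irrefl _ h3
    rw [lev_symm]
    exact (h.v_gt v h2).2.2.2
  · exact (h.v_gt v h1).2.2.2

theorem MultCirc.lev_le {G : SimpleGraph V} {l : V → V → K} (h : MultCirc G l) (v : Valuation K Γ)
    (a b : V) : lev v l a b ≤ 1 := by
  by_cases hab : v (l a b) = 1
  · rw [(h.lev_one v hab).2]
    refine (Valuation.map_sub v _ _).trans ?_
    rw [hab, map_one, max_self]
  · exact (h.lev_ne v hab).le

/-- the edges of level at least `g` -/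
def tg (G : SimpleGraph V) (v : Valuation K Γ) (l : V → V → K) (g : Γ) : SimpleGraph V where
  Adj a b := G.Adj a b ∧ g ≤ lev v l a b
  symm := ⟨fun a b h => ⟨h.1.symm, by rw [lev_symm]; exact h.2⟩⟩
  loopless := ⟨fun a h => G.loopless.irrefl a h.1⟩

/-- products of elements close to one -/
theorem prod_close {ι : Type} (v : Valuation K Γ) (s : Finset ι) (f : ι → K) {g : Γ}
    (hg0 : 0 < g) (hg1 : g ≤ 1) (hf : ∀ i ∈ s, v (f i - 1) < g) : v (∏ i ∈ s, f i - 1) < g := by
  induction s using Finset.induction_on with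
  | empty => rw [Finset.prod_empty, sub_self, map_zero]; exact hg0
  | @insert a s ha ih =>
    rw [Finset.prod_insert ha]
    have h1 := hf a (Finset.mem_insert_self _ _)
    have h2 := ih fun i hi => hf i (Finset.mem_insert_of_mem hi)
    have h3 : f a * ∏ i ∈ s, f i - 1 = (f a - 1) * ((∏ i ∈ s, f i - 1) + 1) +
        (∏ i ∈ s, f i - 1) := by ring
    rw [h3]
    apply Valuation.map_add_lt v _ h2
    rw [map_mul]
    have h4 : v ((∏ i ∈ s, f i - 1) + 1) ≤ 1 := by
      refine (Valuation.map_add v _ _).trans (max_le (h2.le.trans hg1) (by rw [map_one]))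
    calc v (f a - 1) * v ((∏ i ∈ s, f i - 1) + 1) ≤ v (f a - 1) * 1 := by gcongr
      _ = v (f a - 1) := mul_one _
      _ < g := h1

theorem tg_bridgeless {G : SimpleGraph V} {l : V → V → K} (h : MultCirc G l) (v : Valuation K Γ)
    {g : Γ} (hg0 : 0 < g) (hg1 : g ≤ 1) : Bridgeless (tg G v l g) := by
  intro X a ha b hb hab
  by_contra hcon
  push Not at hcon
  have h1 := h.cut X
  have hmem : (a, b) ∈ Finset.univ.filter (fun p : V × V => p.1 ∈ X ∧ p.2 ∉ X) :=
    Finset.mem_filter.2 ⟨Finset.mem_univ _, ha, hb⟩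
  rw [← Finset.mul_prod_erase _ _ hmem] at h1
  set P := ∏ p ∈ (Finset.univ.filter (fun p : V × V => p.1 ∈ X ∧ p.2 ∉ X)).erase (a, b),
    l p.1 p.2 with hP
  have h2 : v (P - 1) < g := by
    apply prod_close v _ _ hg0 hg1
    intro p hp
    rw [Finset.mem_erase, Finset.mem_filter] at hp
    by_cases hadj : G.Adj p.1 p.2
    · have h3 : lev v l p.1 p.2 < g := by
        by_contra hge
        push Not at hge
        exact hp.1 (hcon p.1 hp.2.2.1 p.2 hp.2.2.2 ⟨hadj, hge⟩)
      have h4 : v (l p.1 p.2) = 1 := by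
        by_contra hne
        rw [h.lev_ne v hne] at h3
        exact absurd hg1 (not_le.2 h3)
      rw [← (h.lev_one v h4).2]
      exact h3
    · rw [h.out _ _ hadj, sub_self, map_zero]
      exact hg0
  have h3 : P = l b a := by
    have := h.inv a b
    have h4 := h.ne_zero a b
    apply mul_left_cancel₀ h4
    rw [this]; exact h1
  have h4 : lev v l a b < g := by
    unfold lev
    rw [← h3]
    exact min_lt_of_right_lt h2
  exact absurd hab.2 (not_le.2 h4)

end

end Pool.Agent.SAO
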