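import Mathlib
import Pool.Agent.SAO.Defs

/-!
# Multiplicative circulations
-/

set_option autoImplicit false

namespace Pool.Agent.SAO

variable {V : Type}

/-- `l` is a multiplicative circulation on `G`: `l u v` and `l v u` are inverse to each other, `l` is
`1` outside the edges, and at every vertex the product of the values `l u v` is `1`. -/
structure MultCirc [Fintype V] (G : SimpleGraph V) {M : Type} [CommMonoid M] (l : V → V → M) :
    Prop where
  inv : ∀ u v, l u v * l v u = 1
  out : ∀ u v, ¬ G.Adj u v → l u v = 1
  prod : ∀ u, ∏ v, l u v = 1

/-- The homogeneous linear system in the unknowns `a v, b v` (`v` a vertex) with one equation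
`a v - b u = l u v * (b v - a u)` for every edge `u v` has only the constant solutions. -/
def Rigid (G : SimpleGraph V) {K : Type} [Field K] (l : V → V → K) : Prop :=
  ∀ a b : V → K, (∀ u v, G.Adj u v → a v - b u = l u v * (b v - a u)) →
    ∃ c, ∀ v, a v = c ∧ b v = c

end Pool.Agent.SAO
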