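import Pool.Agent.SAO.TVal
import Pool.Agent.SAO.Trd

/-!
# Derivations of a field of rational functions
-/

set_option autoImplicit false

namespace Pool.Agent.SAO

open Classical MvPolynomial

section der

variable {A L : Type} [CommRing A] [IsDomain A] [Field L] [Algebra A L] [IsFractionRing A L]
  [Algebra ℚ L]

/-- Extension of a derivation to the field of fractions. -/
theorem exists_der (d : A → A) (hadd : ∀ a b, d (a + b) = d a + d b)
    (hmul : ∀ a b, d (a * b) = a * d b + b * d a) :
    ∃ D : Derivation ℚ L L, ∀ a, D (algebraMap A L a) = algebraMap A L (d a) := by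
  have h0 : d 0 = 0 := by
    have := hadd 0 0
    rw [add_zero] at this
    exact left_eq_add.1 this
  have h1 : d 1 = 0 := by
    have := hmul 1 1
    rw [mul_one, one_mul] at this
    exact left_eq_add.1 this
  let f0 : A → TrivSqZeroExt L L := fun a => TrivSqZeroExt.inl (algebraMap A L a) +
        TrivSqZeroExt.inr (algebraMap A L (d a))
  have e1 : ∀ a, (f0 a).fst = algebraMap A L a := fun a => by
    simp only [f0]
    rw [TrivSqZeroExt.fst_add, TrivSqZeroExt.fst_inl, TrivSqZeroExt.fst_inr, add_zero]
  have e2 : ∀ a, (f0 a).snd = algebraMap A L (d a) := fun a => by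
    simp only [f0]
    rw [TrivSqZeroExt.snd_add, TrivSqZeroExt.snd_inl, TrivSqZeroExt.snd_inr, zero_add]
  let φ : A →+* TrivSqZeroExt L L :=
    { toFun := f0
      map_one' := by
        apply TrivSqZeroExt.ext
        · rw [e1, map_one, TrivSqZeroExt.fst_one]
        · rw [e2, h1, map_zero, TrivSqZeroExt.snd_one]
      map_mul' := fun a b => by
        apply TrivSqZeroExt.ext
        · rw [e1, TrivSqZeroExt.fst_mul, e1, e1, map_mul]
        · rw [e2, TrivSqZeroExt.snd_mul, e1, e1, e2, e2, hmul, map_add, map_mul, map_mul,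
            smul_eq_mul, MulOpposite.smul_eq_mul_unop, MulOpposite.unop_op]
          ring
      map_zero' := by
        apply TrivSqZeroExt.ext
        · rw [e1, map_zero, TrivSqZeroExt.fst_zero]
        · rw [e2, h0, map_zero, TrivSqZeroExt.snd_zero]
      map_add' := fun a b => by
        apply TrivSqZeroExt.ext
        · rw [e1, TrivSqZeroExt.fst_add, e1, e1, map_add]
        · rw [e2, TrivSqZeroExt.snd_add, e2, e2, hadd, map_add] }
  have hfst : ∀ a, (φ a).fst = algebraMap A L a := e1
  have hsnd : ∀ a, (φ a).snd = algebraMap A L (d a) := e2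
  have hunit : ∀ y : nonZeroDivisors A, IsUnit (φ y) := by
    intro y
    rw [TrivSqZeroExt.isUnit_iff_isUnit_fst, hfst, isUnit_iff_ne_zero]
    intro h
    have h2 := (IsFractionRing.injective A L) (h.trans (map_zero _).symm)
    exact nonZeroDivisors.coe_ne_zero y h2
  let ψ : L →+* TrivSqZeroExt L L := IsLocalization.lift (M := nonZeroDivisors A) hunit
  have hψ : ∀ a, ψ (algebraMap A L a) = φ a := fun a => IsLocalization.lift_eq hunit a
  have hψfst : ∀ x, (ψ x).fst = x := by
    intro x
    obtain ⟨a, b, rfl⟩ := IsLocalization.exists_mk'_eq (nonZeroDivisors A) x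
    have hb : algebraMap A L (b : A) ≠ 0 := by
      intro h
      exact nonZeroDivisors.coe_ne_zero b ((IsFractionRing.injective A L) (h.trans (map_zero _).symm))
    apply mul_right_cancel₀ hb
    rw [IsLocalization.mk'_spec]
    have h2 := congrArg TrivSqZeroExt.fst (congrArg ψ (IsLocalization.mk'_spec L a b))
    rw [map_mul, TrivSqZeroExt.fst_mul, hψ, hψ, hfst, hfst] at h2
    exact h2
  let D0 : L →+ L :=
    { toFun := fun x => (ψ x).snd
      map_zero' := by rw [map_zero, TrivSqZeroExt.snd_zero]
      map_add' := fun x y => by rw [map_add, TrivSqZeroExt.snd_add] }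
  let D : Derivation ℚ L L := Derivation.mk' D0.toRatLinearMap (fun x y => by
    change (ψ (x * y)).snd = x • (ψ y).snd + y • (ψ x).snd
    rw [map_mul, TrivSqZeroExt.snd_mul, hψfst, hψfst]
    simp [mul_comm])
  refine ⟨D, fun a => ?_⟩
  change (ψ (algebraMap A L a)).snd = _
  rw [hψ, hsnd]

end der

section fld

variable {L : Type} [Field L] [Algebra ℚ L]

theorem der_aeval {τ : Type} [Fintype τ] (D : Derivation ℚ L L) (f : τ → L) (F : MvPolynomial τ ℚ) :
    D (aeval f F) = ∑ t, aeval f (pderiv t F) * D (f t) := by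
  induction F using MvPolynomial.induction_on with
  | C a =>
    rw [aeval_C, Derivation.map_algebraMap]
    symm
    apply Finset.sum_eq_zero
    intro t _
    rw [pderiv_C, map_zero, zero_mul]
  | add p q hp hq =>
    rw [map_add, map_add, hp, hq, ← Finset.sum_add_distrib]
    apply Finset.sum_congr rfl
    intro t _
    rw [map_add, map_add]; ring
  | mul_X p i hp =>
    rw [map_mul, Derivation.leibniz, hp, aeval_X, smul_eq_mul, smul_eq_mul, Finset.mul_sum]
    have h1 : ∀ t, aeval f (pderiv t (p * X i)) * D (f t) =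
        f i * (aeval f (pderiv t p) * D (f t)) + aeval f p * (if t = i then D (f i) else 0) := by
      intro t
      rw [Derivation.leibniz, map_add, smul_eq_mul, smul_eq_mul, map_mul, map_mul, aeval_X,
        pderiv_X]
      by_cases hti : t = i
      · subst hti
        rw [Pi.single_eq_same, map_one, if_pos rfl]; ring
      · rw [Pi.single_eq_of_ne (Ne.symm hti), map_zero, if_neg hti]; ring
    simp_rw [h1]
    rw [Finset.sum_add_distrib, ← Finset.mul_sum, ← Finset.mul_sum, Finset.sum_ite_eq' Finset.univ i]
    simp only [Finset.mem_univ, if_true]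
    rw [Finset.mul_sum]
    ring

theorem der_prod {ι : Type} (D : Derivation ℚ L L) (s : Finset ι) (f : ι → L)
    (hf : ∀ i ∈ s, f i ≠ 0) : D (∏ i ∈ s, f i) = (∏ i ∈ s, f i) * ∑ i ∈ s, D (f i) / f i := by
  induction s using Finset.induction_on with
  | empty => rw [Finset.prod_empty, Derivation.map_one_eq_zero, Finset.sum_empty, mul_zero]
  | @insert a s ha ih =>
    have h1 := hf a (Finset.mem_insert_self _ _)
    rw [Finset.prod_insert ha, Finset.sum_insert ha, Derivation.leibniz,
      ih fun i hi => hf i (Finset.mem_insert_of_mem hi), smul_eq_mul, smul_eq_mul]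
    field_simp
    ring

theorem der_zpow (D : Derivation ℚ L L) {x : L} (hx : x ≠ 0) (n : ℤ) :
    D (x ^ n) = x ^ n * (n * (D x / x)) := by
  rw [Derivation.leibniz_zpow, zpow_sub_one₀ hx]
  simp only [zsmul_eq_mul, smul_eq_mul]
  field_simp

/-- an algebraic relation of least degree -/
theorem exists_relation' {τ : Type} [Fintype τ] (f : τ → L)
    (h : ¬ AlgebraicIndependent ℚ f) : ∃ F : MvPolynomial τ ℚ, aeval f F = 0 ∧
      ∃ t, aeval f (pderiv t F) ≠ 0 := by
  rw [algebraicIndependent_iff] at h
  push Not at h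
  have hex : ∃ n : ℕ, ∃ F : MvPolynomial τ ℚ, aeval f F = 0 ∧ F ≠ 0 ∧ F.totalDegree = n := by
    obtain ⟨F, h1, h2⟩ := h
    exact ⟨_, F, h1, h2, rfl⟩
  obtain ⟨F, h1, h2, h3⟩ := Nat.find_spec hex
  have hmin : ∀ F' : MvPolynomial τ ℚ, aeval f F' = 0 → F'.totalDegree < F.totalDegree →
      F' = 0 := by
    intro F' h4 h5
    by_contra h6
    rw [h3] at h5
    exact Nat.find_min hex h5 ⟨F', h4, h6, rfl⟩
  refine ⟨F, h1, ?_⟩
  by_contra hall
  push Not at hall
  -- a monomial which is not constant
  have hm : ∃ m ∈ F.support, m ≠ 0 := by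
    by_contra hcon
    push Not at hcon
    have hF : F = C (coeff 0 F) := by
      ext m
      rw [coeff_C]
      by_cases hm : m = 0
      · rw [if_pos hm.symm, hm]
      · rw [if_neg (fun h => hm h.symm)]
        by_contra h
        exact hm (hcon m (mem_support_iff.2 h))
    rw [hF, aeval_C] at h1
    have h4 : coeff 0 F = 0 := (algebraMap ℚ L).injective (h1.trans (map_zero _).symm)
    rw [h4, C_0] at hF
    exact h2 hF
  obtain ⟨m, hm1, hm2⟩ := hm
  obtain ⟨t, ht⟩ : ∃ t, m t ≠ 0 := by
    by_contra hcon
    push Not at hcon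
    exact hm2 (Finsupp.ext hcon)
  have hm' : m = (m - Finsupp.single t 1) + Finsupp.single t 1 := by
    rw [tsub_add_cancel_of_le]
    intro s
    by_cases hs : s = t
    · subst hs
      simp only [Finsupp.single_eq_same]
      omega
    · rw [Finsupp.single_eq_of_ne hs]
      exact Nat.zero_le _
  have hne : pderiv t F ≠ 0 := by
    intro h0
    have h5 := coeff_pderiv (i := t) F (m - Finsupp.single t 1)
    rw [h0, coeff_zero, ← hm'] at h5
    have h6 : coeff m F ≠ 0 := mem_support_iff.1 hm1
    have h7 : (((m - Finsupp.single t 1 : τ →₀ ℕ) t : ℕ) : ℚ) + 1 ≠ 0 := by positivity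
    exact (mul_ne_zero h6 h7) h5.symm
  apply hne
  apply hmin _ (hall t)
  have hdeg : ∀ s ∈ (pderiv t F).support, (s.sum fun _ e => e) < F.totalDegree := by
    intro s hs
    have h5 := mem_support_iff.1 hs
    rw [coeff_pderiv] at h5
    have h6 : s + Finsupp.single t 1 ∈ F.support := mem_support_iff.2 (left_ne_zero_of_mul h5)
    have h7 := le_totalDegree h6
    rw [Finsupp.sum_add_index' (fun _ => rfl) (fun _ _ _ => rfl),
      Finsupp.sum_single_index rfl] at h7
    omega
  have hpos : 0 < F.totalDegree := by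
    obtain ⟨s, hs⟩ := support_nonempty.2 hne
    exact lt_of_le_of_lt (Nat.zero_le _) (hdeg s hs)
  unfold totalDegree
  rw [Finset.sup_lt_iff]
  · exact hdeg
  · exact hpos

end fld

end Pool.Agent.SAO
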