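import Pool.Agent.SAO.TSpec

/-!
# Small positive circulations of strong orientations
-/

set_option autoImplicit false

namespace Pool.Agent.SAO

open Classical

variable {V : Type} [Fintype V]

omit [Fintype V] in
theorem exists_simple_walk {D : V → V → Prop} (hD : IsStrong D) (a b : V) :
    ∃ (n : ℕ) (w : ℕ → V), w 0 = a ∧ w n = b ∧ (∀ i < n, D (w i) (w (i + 1))) ∧
      ∀ i ≤ n, ∀ j ≤ n, w i = w j → i = j := by
  have hex : ∃ n, ∃ w : ℕ → V, w 0 = a ∧ w n = b ∧ ∀ i < n, D (w i) (w (i + 1)) := by
    have h := hD a b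
    induction h with
    | refl => exact ⟨0, fun _ => a, rfl, rfl, by simp⟩
    | @tail c d _ hcd ih =>
      obtain ⟨n, w, h0, hn, hw⟩ := ih
      refine ⟨n + 1, fun i => if i ≤ n then w i else d, ?_, ?_, ?_⟩
      · simp [h0]
      · simp
      · intro i hi
        by_cases h1 : i + 1 ≤ n
        · simp only [if_pos h1, if_pos (show i ≤ n by omega)]
          exact hw i (by omega)
        · have h2 : i = n := by omega
          subst h2
          simp only [le_refl, if_true, if_neg h1]
          rw [hn]
          exact hcd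
  obtain ⟨w, h0, hn, hw⟩ := Nat.find_spec hex
  refine ⟨Nat.find hex, w, h0, hn, hw, ?_⟩
  have key : ∀ i j, i < j → j ≤ Nat.find hex → w i ≠ w j := by
    intro i j hij hj heq
    apply Nat.find_min hex (m := Nat.find hex - (j - i)) (by omega)
    refine ⟨fun t => if t ≤ i then w t else w (t + (j - i)), ?_, ?_, ?_⟩
    · simp [h0]
    · by_cases h : Nat.find hex - (j - i) ≤ i
      · simp only [if_pos h]
        have h1 : Nat.find hex - (j - i) = i := by omega
        have h2 : j = Nat.find hex := by omega
        rw [h1, heq, h2, hn]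
      · simp only [if_neg h]
        have h1 : Nat.find hex - (j - i) + (j - i) = Nat.find hex := by omega
        rw [h1, hn]
    · intro t ht
      by_cases h1 : t + 1 ≤ i
      · simp only [if_pos h1, if_pos (show t ≤ i by omega)]
        exact hw t (by omega)
      · by_cases h2 : t ≤ i
        · have h3 : t = i := by omega
          subst h3
          simp only [le_refl, if_true, if_neg h1]
          have h4 : t + 1 + (j - t) = j + 1 := by omega
          rw [h4, heq]
          exact hw j (by omega)
        · simp only [if_neg h1, if_neg h2]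
          have h4 : t + 1 + (j - i) = t + (j - i) + 1 := by omega
          rw [h4]
          exact hw _ (by omega)
  intro i hi j hj hij
  rcases lt_trichotomy i j with h | h | h
  · exact absurd hij (key i j h hj)
  · exact h
  · exact absurd hij.symm (key j i h hi)

theorem exists_unit_circ {D : V → V → Prop} (hD : IsStrong D) {u v : V} (huv : D u v)
    (hne : u ≠ v) : ∃ z : V → V → ℕ, (∀ a b, z a b ≤ 1) ∧ (∀ a b, z a b ≠ 0 → D a b) ∧ z u v = 1 ∧
      ∀ a, ∑ b, z a b = ∑ b, z b a := by
  obtain ⟨n, w, h0, hn, hw, hinj⟩ := exists_simple_walk hD v u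
  have hn0 : n ≠ 0 := by
    intro h
    rw [h, h0] at hn
    exact hne hn.symm
  let z : V → V → ℕ := fun a b => if (∃ i < n, w i = a ∧ w (i + 1) = b) ∨ (a = u ∧ b = v) then 1 else 0
  have hz : ∀ a b, z a b = if (∃ i < n, w i = a ∧ w (i + 1) = b) ∨ (a = u ∧ b = v) then 1 else 0 :=
    fun _ _ => rfl
  have hout : ∀ a, ∑ b, z a b = if ∃ i ≤ n, w i = a then 1 else 0 := by
    intro a
    by_cases h : ∃ i ≤ n, w i = a
    · rw [if_pos h]
      obtain ⟨i, hi, rfl⟩ := h
      by_cases hin : i = n
      · subst hin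
        rw [Finset.sum_eq_single v]
        · rw [hz, if_pos (Or.inr ⟨hn, rfl⟩)]
        · intro b _ hb
          rw [hz, if_neg]
          rintro (⟨j, hj, h1, h2⟩ | ⟨h1, h2⟩)
          · have := hinj j hj.le i le_rfl h1
            omega
          · exact hb h2
        · simp
      · rw [Finset.sum_eq_single (w (i + 1))]
        · rw [hz, if_pos (Or.inl ⟨i, by omega, rfl, rfl⟩)]
        · intro b _ hb
          rw [hz, if_neg]
          rintro (⟨j, hj, h1, h2⟩ | ⟨h1, h2⟩)
          · have := hinj j hj.le i hi h1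
            subst this
            exact hb h2.symm
          · have := hinj i hi n le_rfl (h1.trans hn.symm)
            exact hin this
        · simp
    · rw [if_neg h]
      apply Finset.sum_eq_zero
      intro b _
      rw [hz, if_neg]
      rintro (⟨j, hj, h1, h2⟩ | ⟨h1, h2⟩)
      · exact h ⟨j, hj.le, h1⟩
      · exact h ⟨n, le_rfl, hn.trans h1.symm⟩
  have hin : ∀ a, ∑ b, z b a = if ∃ i ≤ n, w i = a then 1 else 0 := by
    intro a
    by_cases h : ∃ i ≤ n, w i = a
    · rw [if_pos h]
      obtain ⟨i, hi, rfl⟩ := h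
      by_cases hi0 : i = 0
      · subst hi0
        rw [Finset.sum_eq_single u]
        · rw [hz, if_pos (Or.inr ⟨rfl, h0⟩)]
        · intro b _ hb
          rw [hz, if_neg]
          rintro (⟨j, hj, h1, h2⟩ | ⟨h1, h2⟩)
          · have := hinj (j + 1) (by omega) 0 (by omega) h2
            omega
          · exact hb h1
        · simp
      · rw [Finset.sum_eq_single (w (i - 1))]
        · rw [hz, if_pos (Or.inl ⟨i - 1, by omega, rfl, by congr 1; omega⟩)]
        · intro b _ hb
          rw [hz, if_neg]
          rintro (⟨j, hj, h1, h2⟩ | ⟨h1, h2⟩)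
          · have := hinj (j + 1) (by omega) i hi h2
            apply hb
            rw [← h1]
            congr 1
            omega
          · have := hinj i hi 0 (by omega) (h2.trans h0.symm)
            exact hi0 this
        · simp
    · rw [if_neg h]
      apply Finset.sum_eq_zero
      intro b _
      rw [hz, if_neg]
      rintro (⟨j, hj, h1, h2⟩ | ⟨h1, h2⟩)
      · exact h ⟨j + 1, by omega, h2⟩
      · exact h ⟨0, by omega, h0.trans h2.symm⟩
  refine ⟨z, fun a b => ?_, fun a b hab => ?_, ?_, fun a => by rw [hout, hin]⟩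
  · rw [hz]
    split_ifs <;> omega
  · rw [hz] at hab
    split_ifs at hab with h
    · rcases h with ⟨i, hi, rfl, rfl⟩ | ⟨rfl, rfl⟩
      · exact hw i hi
      · exact huv
    · exact absurd rfl hab
  · rw [hz, if_pos (Or.inr ⟨rfl, rfl⟩)]

/-- a positive circulation with small values -/
theorem exists_flow {D : V → V → Prop} (hD : IsStrong D) (hloop : ∀ u v, D u v → u ≠ v) :
    ∃ f : V → V → ℕ, (∀ a b, D a b → 1 ≤ f a b) ∧ (∀ a b, ¬ D a b → f a b = 0) ∧
      (∀ a, ∑ b, f a b = ∑ b, f b a) ∧
      ∀ a b, f a b ≤ (Finset.univ.filter fun p : V × V => D p.1 p.2).card := by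
  have h : ∀ p : V × V, ∃ z : V → V → ℕ, (∀ a b, z a b ≤ 1) ∧ (∀ a b, z a b ≠ 0 → D a b) ∧
      (D p.1 p.2 → z p.1 p.2 = 1) ∧ ∀ a, ∑ b, z a b = ∑ b, z b a := by
    intro p
    by_cases hp : D p.1 p.2
    · obtain ⟨z, h1, h2, h3, h4⟩ := exists_unit_circ hD hp (hloop _ _ hp)
      exact ⟨z, h1, h2, fun _ => h3, h4⟩
    · exact ⟨fun _ _ => 0, by simp, by simp, fun h => absurd h hp, by simp⟩
  choose z h1 h2 h3 h4 using h
  refine ⟨fun a b => ∑ p ∈ Finset.univ.filter (fun p : V × V => D p.1 p.2), z p a b, ?_, ?_, ?_, ?_⟩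
  · intro a b hab
    have h5 : (a, b) ∈ Finset.univ.filter (fun p : V × V => D p.1 p.2) :=
      Finset.mem_filter.2 ⟨Finset.mem_univ _, hab⟩
    calc 1 = z (a, b) a b := (h3 (a, b) hab).symm
      _ ≤ _ := Finset.single_le_sum (f := fun p => z p a b) (fun _ _ => Nat.zero_le _) h5
  · intro a b hab
    apply Finset.sum_eq_zero
    intro p _
    by_contra h5
    exact hab (h2 p a b h5)
  · intro a
    rw [Finset.sum_comm]
    conv_rhs => rw [Finset.sum_comm]
    exact Finset.sum_congr rfl fun p _ => h4 p a
  · intro a b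
    calc ∑ p ∈ Finset.univ.filter (fun p : V × V => D p.1 p.2), z p a b
        ≤ ∑ p ∈ Finset.univ.filter (fun p : V × V => D p.1 p.2), 1 :=
          Finset.sum_le_sum fun p _ => h1 p a b
      _ = _ := by simp

end Pool.Agent.SAO
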