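import Pool.Agent.SAO.TDefs

/-!
# Rigidity and specialisation
-/

set_option autoImplicit false

namespace Pool.Agent.SAO

open Classical

variable {V : Type} [Fintype V]

/-- the matrix of the system, the unknown `a r` being set to zero -/
noncomputable def sysM {R : Type} [CommRing R] (G : SimpleGraph V) (r : V) (α β : V → V → R) :
    Matrix (V × V) {c : V ⊕ V // c ≠ Sum.inl r} R := fun p c =>
  if G.Adj p.1 p.2 then
    β p.1 p.2 * ((if c.1 = Sum.inl p.2 then 1 else 0) - (if c.1 = Sum.inr p.1 then 1 else 0)) -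
      α p.1 p.2 * ((if c.1 = Sum.inr p.2 then 1 else 0) - (if c.1 = Sum.inl p.1 then 1 else 0))
  else 0

/-- extension of a vector by zero -/
noncomputable def extv {R : Type} [Zero R] {r : V} (x : {c : V ⊕ V // c ≠ Sum.inl r} → R)
    (c : V ⊕ V) : R := if h : c ≠ Sum.inl r then x ⟨c, h⟩ else 0

theorem sum_extv {R : Type} [CommRing R] {r : V} (x : {c : V ⊕ V // c ≠ Sum.inl r} → R)
    (d : V ⊕ V) : ∑ c : {c : V ⊕ V // c ≠ Sum.inl r}, (if c.1 = d then (1 : R) else 0) * x c =
      extv x d := by
  unfold extv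
  by_cases h : d ≠ Sum.inl r
  · rw [dif_pos h, Finset.sum_eq_single ⟨d, h⟩]
    · simp
    · intro c _ hc
      rw [if_neg, zero_mul]
      intro h2
      exact hc (Subtype.ext h2)
    · simp
  · rw [dif_neg h]
    apply Finset.sum_eq_zero
    intro c _
    rw [if_neg, zero_mul]
    intro h2
    exact h (h2 ▸ c.2)

theorem sysM_mulVec {R : Type} [CommRing R] (G : SimpleGraph V) (r : V) (α β : V → V → R)
    (x : {c : V ⊕ V // c ≠ Sum.inl r} → R) (u v : V) (huv : G.Adj u v) :
    (sysM G r α β).mulVec x (u, v) = β u v * (extv x (Sum.inl v) - extv x (Sum.inr u)) -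
      α u v * (extv x (Sum.inr v) - extv x (Sum.inl u)) := by
  unfold Matrix.mulVec dotProduct sysM
  simp only [huv, if_true]
  rw [← sum_extv, ← sum_extv, ← sum_extv, ← sum_extv, ← Finset.sum_sub_distrib,
    ← Finset.sum_sub_distrib, Finset.mul_sum, Finset.mul_sum, ← Finset.sum_sub_distrib]
  apply Finset.sum_congr rfl
  intro c _
  ring

theorem sysM_mulVec' {R : Type} [CommRing R] (G : SimpleGraph V) (r : V) (α β : V → V → R)
    (x : {c : V ⊕ V // c ≠ Sum.inl r} → R) (u v : V) (huv : ¬ G.Adj u v) :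
    (sysM G r α β).mulVec x (u, v) = 0 := by
  unfold Matrix.mulVec dotProduct sysM
  simp only [huv, if_false, zero_mul, Finset.sum_const_zero]

theorem Rigid.inj {k : Type} [Field k] {G : SimpleGraph V} {l : V → V → k} (h : Rigid G l) (r : V)
    (α β : V → V → k) (hβ : ∀ u v, β u v ≠ 0) (hl : ∀ u v, α u v = l u v * β u v)
    (x : {c : V ⊕ V // c ≠ Sum.inl r} → k) (hx : (sysM G r α β).mulVec x = 0) : x = 0 := by
  obtain ⟨c, hc⟩ := h (fun v => extv x (Sum.inl v)) (fun v => extv x (Sum.inr v)) (by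
    intro u v huv
    have h1 : (sysM G r α β).mulVec x (u, v) = 0 := congrFun hx (u, v)
    rw [sysM_mulVec G r α β x u v huv, hl u v] at h1
    have h2 : β u v * ((extv x (Sum.inl v) - extv x (Sum.inr u)) -
        l u v * (extv x (Sum.inr v) - extv x (Sum.inl u))) = 0 := by
      linear_combination h1
    have h3 := (mul_eq_zero.1 h2).resolve_left (hβ u v)
    exact sub_eq_zero.1 h3)
  have h0 : c = 0 := by
    rw [← (hc r).1]
    simp [extv]
  funext d
  have h1 : extv x d.1 = x d := by
    unfold extv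
    rw [dif_pos d.2]
  rw [← h1, Pi.zero_apply, ← h0]
  rcases hd : d.1 with v | v
  · exact (hc v).1
  · exact (hc v).2

theorem rigid_of_inj {L : Type} [Field L] {G : SimpleGraph V} {l : V → V → L} (r : V)
    (α β : V → V → L) (hl : ∀ u v, G.Adj u v → α u v = l u v * β u v)
    (h : ∀ x : {c : V ⊕ V // c ≠ Sum.inl r} → L, (sysM G r α β).mulVec x = 0 → x = 0) :
    Rigid G l := by
  intro a b hab
  let x : {c : V ⊕ V // c ≠ Sum.inl r} → L := fun c => Sum.elim a b c.1 - a r
  have hext : ∀ c, extv x c = Sum.elim a b c - a r := by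
    intro c
    unfold extv
    split_ifs with h1
    · rfl
    · rw [not_not.1 h1]
      simp
  have hx : x = 0 := by
    apply h
    funext ⟨u, v⟩
    by_cases huv : G.Adj u v
    · rw [sysM_mulVec G r α β x u v huv, hext, hext, hext, hext, hl u v huv]
      simp only [Sum.elim_inl, Sum.elim_inr, Pi.zero_apply]
      linear_combination (β u v) * (hab u v huv)
    · rw [sysM_mulVec' G r α β x u v huv]
      rfl
  refine ⟨a r, fun v => ?_⟩
  have h1 := hext (Sum.inl v)
  have h2 := hext (Sum.inr v)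
  have h3 : ∀ c, extv x c = 0 := by
    intro c
    rw [hx]
    unfold extv
    split_ifs <;> rfl
  rw [h3] at h1 h2
  exact ⟨(sub_eq_zero.1 h1.symm), (sub_eq_zero.1 h2.symm)⟩

theorem exists_left_inv {k : Type} [Field k] {m n : Type} [Fintype m] [Fintype n] [DecidableEq n]
    (M : Matrix m n k) (h : ∀ x, M.mulVec x = 0 → x = 0) : ∃ Q : Matrix n m k, Q * M = 1 := by
  have hker : LinearMap.ker M.mulVecLin = ⊥ := by
    rw [LinearMap.ker_eq_bot']
    intro x hx
    exact h x hx
  obtain ⟨g, hg⟩ := LinearMap.exists_leftInverse_of_injective M.mulVecLin hker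
  refine ⟨LinearMap.toMatrix' g, ?_⟩
  have h1 : LinearMap.toMatrix' (g ∘ₗ M.mulVecLin) = 1 := by
    rw [hg, LinearMap.toMatrix'_id]
  rw [LinearMap.toMatrix'_comp] at h1
  have h2 : LinearMap.toMatrix' M.mulVecLin = M := by
    have : M.mulVecLin = Matrix.toLin' M := rfl
    rw [this, LinearMap.toMatrix'_toLin']
  rw [h2] at h1
  exact h1

omit [Fintype V] in
theorem sysM_map {R S : Type} [CommRing R] [CommRing S] (φ : R →+* S) (G : SimpleGraph V) (r : V)
    (α β : V → V → R) : (sysM G r α β).map φ =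
      sysM G r (fun u v => φ (α u v)) (fun u v => φ (β u v)) := by
  ext p c
  rw [Matrix.map_apply]
  unfold sysM
  split_ifs <;> simp

/-- Rigidity of a specialisation implies rigidity. -/
theorem rigid_of_spec {A k L : Type} [CommRing A] [IsDomain A] [Field k] [Field L] [Algebra A L]
    [IsFractionRing A L] {G : SimpleGraph V} (r : V) (φ : A →+* k) (hφ : Function.Surjective φ)
    (α β : V → V → A) (l : V → V → L) (l0 : V → V → k)
    (hl : ∀ u v, algebraMap A L (α u v) = l u v * algebraMap A L (β u v))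
    (hl0 : ∀ u v, φ (α u v) = l0 u v * φ (β u v)) (hβ0 : ∀ u v, φ (β u v) ≠ 0)
    (hr : Rigid G l0) : Rigid G l := by
  have h1 := hr.inj r (fun u v => φ (α u v)) (fun u v => φ (β u v)) hβ0 hl0
  obtain ⟨Q, hQ⟩ := exists_left_inv _ h1
  choose f hf using hφ
  let Q' : Matrix {c : V ⊕ V // c ≠ Sum.inl r} (V × V) A := fun i j => f (Q i j)
  have hQ' : Q'.map φ = Q := by
    ext i j
    rw [Matrix.map_apply]
    exact hf _
  have hdet : (Q' * sysM G r α β).det ≠ 0 := by
    intro h0
    have h2 := congrArg φ h0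
    rw [map_zero, RingHom.map_det, RingHom.mapMatrix_apply, Matrix.map_mul, hQ', sysM_map, hQ,
      Matrix.det_one] at h2
    exact one_ne_zero h2
  apply rigid_of_inj r (fun u v => algebraMap A L (α u v)) (fun u v => algebraMap A L (β u v))
    (fun u v _ => hl u v)
  intro x hx
  have h3 : ((Q' * sysM G r α β).map (algebraMap A L)).det ≠ 0 := by
    have h4 : ((Q' * sysM G r α β).map (algebraMap A L)).det =
        algebraMap A L (Q' * sysM G r α β).det := by
      rw [RingHom.map_det, RingHom.mapMatrix_apply]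
    rw [h4]
    intro h5
    exact hdet ((IsFractionRing.injective A L) (h5.trans (map_zero _).symm))
  apply Matrix.eq_zero_of_mulVec_eq_zero h3
  rw [Matrix.map_mul, sysM_map, ← Matrix.mulVec_mulVec, hx, Matrix.mulVec_zero]

end Pool.Agent.SAO
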