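import Pool.Agent.SAO.TDer
import Pool.Agent.SAO.TSpec

/-!
# The generic multiplicative circulation
-/

set_option autoImplicit false

namespace Pool.Agent.SAO

open Classical MvPolynomial

variable {V : Type} [Fintype V]

/-- In a bridgeless graph every edge is in a circulation. -/
theorem exists_circ {G : SimpleGraph V} (hb : Bridgeless G) {a b : V} (hab : G.Adj a b) :
    ∃ z ∈ Circ G, z a b ≠ 0 := by
  have hr : (G.deleteEdges {s(a, b)}).Reachable b a := by
    by_contra hcon
    obtain ⟨c, hc, d, hd, hcd, hne'⟩ := hb {v | (G.deleteEdges {s(a, b)}).Reachable b v} b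
      (SimpleGraph.Reachable.refl b) a hcon hab.symm
    apply hd
    refine SimpleGraph.Reachable.trans hc ?_
    apply SimpleGraph.Adj.reachable
    rw [SimpleGraph.deleteEdges_adj]
    refine ⟨hcd, ?_⟩
    rw [Set.mem_singleton_iff, Sym2.eq_iff]
    rintro (⟨rfl, rfl⟩ | ⟨rfl, rfl⟩)
    · exact hcon hc
    · exact hne' rfl
  obtain ⟨p⟩ := hr
  let p' : G.Walk b a := p.mapLe (SimpleGraph.deleteEdges_le _)
  have hpe : s(a, b) ∉ p'.edges := by
    intro he
    have he' : s(a, b) ∈ p.edges := by simpa [p'] using he
    have := p.edges_subset_edgeSet he'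
    rw [SimpleGraph.edgeSet_deleteEdges] at this
    exact this.2 rfl
  refine ⟨wf (SimpleGraph.Walk.cons hab p'), wf_mem_Circ _ le_rfl, ?_⟩
  simp only [wf]
  rw [wf_of_notMem p' a b hpe]
  simp [hab.ne]

theorem good_of_rigid_aux {G : SimpleGraph V} (hG : G.Connected) (hb : Bridgeless G)
    {k : Type} [Field k] {L : Type} [Field L] [Algebra (MvPolynomial (Fin (rk G)) k) L]
    [IsFractionRing (MvPolynomial (Fin (rk G)) k) L] [Algebra ℚ L]
    (l0 : V → V → k) (h0 : MultCirc G l0) (hr : Rigid G l0) :
    Good G ⊤ := by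
  obtain ⟨r⟩ := hG.nonempty
  -- integral circulations
  have hC : ∀ i : Fin (rk G), ∃ m : ℕ, m ≠ 0 ∧ ∃ C : V × V → ℤ,
      ∀ p, (C p : ℚ) = m * (bas G i : V → V → ℚ) p.1 p.2 :=
    fun i => exists_int_mult fun p : V × V => (bas G i : V → V → ℚ) p.1 p.2
  choose m hm c hc using hC
  have hanti : ∀ i u v, c i (v, u) = - c i (u, v) := by
    intro i u v
    have h1 : (c i (v, u) : ℚ) = - c i (u, v) := by
      rw [hc, hc]
      simp only
      rw [(bas G i).2.1 u v]; ring
    exact_mod_cast h1
  have hout : ∀ i u v, ¬ G.Adj u v → c i (u, v) = 0 := by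
    intro i u v huv
    have h1 : (c i (u, v) : ℚ) = 0 := by
      rw [hc]
      simp only
      rw [(bas G i).2.2.1 u v huv, mul_zero]
    exact_mod_cast h1
  have hsum : ∀ i u, ∑ v, c i (u, v) = 0 := by
    intro i u
    have h1 : ((∑ v, c i (u, v) : ℤ) : ℚ) = 0 := by
      rw [Int.cast_sum]
      simp_rw [hc]
      rw [← Finset.mul_sum, (bas G i).2.2.2 u, mul_zero]
    exact_mod_cast h1
  let ι : MvPolynomial (Fin (rk G)) k →+* L := algebraMap (MvPolynomial (Fin (rk G)) k) L
  have hι : Function.Injective ι := IsFractionRing.injective (MvPolynomial (Fin (rk G)) k) L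
  have : CharZero L := algebraRat.charZero L
  let x : Fin (rk G) → L := fun i => ι (X i)
  have hx : ∀ i, x i ≠ 0 := fun i h => X_ne_zero i (hι (h.trans (map_zero ι).symm))
  let l : V → V → L := fun u v => ι (C (l0 u v)) * ∏ i, x i ^ c i (u, v)
  have hl : MultCirc G l := by
    refine ⟨fun u v => ?_, fun u v huv => ?_, fun u => ?_⟩
    · have h1 : l u v * l v u = ι (C (l0 u v * l0 v u)) *
          ∏ i, (x i ^ c i (u, v) * x i ^ c i (v, u)) := by
        simp only [l]
        rw [map_mul C, map_mul ι, Finset.prod_mul_distrib]; ring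
      rw [h1, h0.inv u v, map_one, map_one, one_mul]
      apply Finset.prod_eq_one
      intro i _
      rw [← zpow_add₀ (hx i), hanti i u v, add_neg_cancel, zpow_zero]
    · simp only [l]
      rw [h0.out u v huv, map_one, map_one, one_mul]
      apply Finset.prod_eq_one
      intro i _
      rw [hout i u v huv, zpow_zero]
    · simp only [l]
      rw [Finset.prod_mul_distrib, ← map_prod, ← map_prod, h0.prod u, map_one, map_one, one_mul,
        Finset.prod_comm]
      apply Finset.prod_eq_one
      intro i _
      have h1 : ∀ s : Finset V, ∏ v ∈ s, x i ^ c i (u, v) = x i ^ ∑ v ∈ s, c i (u, v) := by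
        intro s
        induction s using Finset.induction_on with
        | empty => simp
        | insert v s hv ih => rw [Finset.prod_insert hv, Finset.sum_insert hv, ih, zpow_add₀ (hx i)]
      rw [h1, hsum i u, zpow_zero]
  -- rigidity of `l`
  have hrl : Rigid G l := by
    have e1 : ∀ n : ℤ, x = x → ∀ i, x i ^ n * x i ^ (-n).toNat = x i ^ n.toNat := by
      intro n _ i
      rw [← zpow_natCast, ← zpow_natCast, ← zpow_add₀ (hx i)]
      congr 1
      omega
    apply rigid_of_spec (A := MvPolynomial (Fin (rk G)) k) (k := k) (L := L) r (eval fun _ => (1 : k))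
      (fun a => ⟨C a, eval_C a⟩)
      (fun u v => C (l0 u v) * ∏ i, X i ^ (c i (u, v)).toNat)
      (fun u v => ∏ i, X i ^ (- c i (u, v)).toNat) l l0 _ _ _ hr
    · intro u v
      change ι _ = l u v * ι _
      simp only [l]
      rw [map_mul, map_prod, map_prod, mul_assoc, ← Finset.prod_mul_distrib]
      congr 1
      apply Finset.prod_congr rfl
      intro i _
      rw [map_pow, map_pow]
      exact (e1 _ rfl i).symm
    · intro u v
      rw [map_mul, eval_C, map_prod, map_prod]
      simp
    · intro u v
      rw [map_prod]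
      simp
  -- derivations
  have hD : ∀ i, ∃ D : Derivation ℚ L L, ∀ a, D (ι a) = ι (X i * pderiv i a) := fun i =>
    exists_der (fun a => X i * pderiv i a) (fun a b => by simp only [map_add]; ring)
      (fun a b => by simp only [Derivation.leibniz, smul_eq_mul]; ring)
  choose D hD using hD
  have hDx : ∀ i j, D i (x j) = if j = i then x i else 0 := by
    intro i j
    simp only [x]
    rw [hD, pderiv_X]
    by_cases hij : j = i
    · subst hij
      rw [Pi.single_eq_same, mul_one, if_pos rfl]
    · rw [Pi.single_eq_of_ne hij, mul_zero, map_zero, if_neg hij]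
  have hDl : ∀ i u v, D i (l u v) = c i (u, v) * l u v := by
    intro i u v
    simp only [l]
    rw [Derivation.leibniz, hD, pderiv_C, mul_zero, map_zero, smul_zero, add_zero, smul_eq_mul,
      der_prod]
    · have h1 : ∑ j, D i (x j ^ c j (u, v)) / x j ^ c j (u, v) = c i (u, v) := by
        rw [Finset.sum_eq_single i]
        · rw [der_zpow _ (hx i), hDx, if_pos rfl]
          field_simp [hx i, zpow_ne_zero]
        · intro j _ hj
          rw [der_zpow _ (hx j), hDx, if_neg hj]
          simp
        · simp
      rw [h1]; ring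
    · intro j _
      exact zpow_ne_zero _ (hx j)
  have hne : ∀ u v, G.Adj u v → l u v ≠ 1 := by
    intro u v huv h1
    obtain ⟨z, hz, hzne⟩ := exists_circ hb huv
    have h2 : ∃ i, (bas G i : V → V → ℚ) u v ≠ 0 := by
      by_contra hcon
      push Not at hcon
      apply hzne
      have h2 := congrArg (fun t : Circ G => (t : V → V → ℚ) u v) ((bas G).sum_repr ⟨z, hz⟩)
      simp only [Submodule.coe_sum, Submodule.coe_smul, Finset.sum_apply, Pi.smul_apply,
        smul_eq_mul] at h2
      rw [← h2]
      apply Finset.sum_eq_zero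
      intro i _
      rw [hcon i, mul_zero]
    obtain ⟨i, hi⟩ := h2
    have h3 := hDl i u v
    rw [h1, Derivation.map_one_eq_zero, mul_one] at h3
    have h4 : c i (u, v) = 0 := by exact_mod_cast h3.symm
    have h5 := hc i (u, v)
    rw [h4] at h5
    simp only [Int.cast_zero] at h5
    have h6 : (m i : ℚ) ≠ 0 := by exact_mod_cast hm i
    exact (mul_ne_zero h6 hi) h5.symm
  -- the log derivative of the products
  let W : V → V → L := fun u v => (l u v + 1) / (l u v - 1)
  have hWanti : ∀ u v, G.Adj u v → W v u = - W u v := by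
    intro u v huv
    have h1 := hl.inv u v
    have h2 : l u v - 1 ≠ 0 := sub_ne_zero.2 (hne u v huv)
    have h3 : l v u - 1 ≠ 0 := sub_ne_zero.2 (hne v u huv.symm)
    simp only [W]
    rw [← neg_div, div_eq_div_iff h3 h2]
    linear_combination 2 * h1
  have hψ : ∀ i u, D i (tpsi G l u) = tpsi G l u *
      ∑ w, if G.Adj u w then W u w * c i (u, w) else 0 := by
    intro i u
    unfold tpsi
    rw [der_prod]
    · congr 1
      rw [Finset.sum_filter]
      apply Finset.sum_congr rfl
      intro w _
      by_cases huw : G.Adj u w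
      · rw [if_pos huw, if_pos huw, Derivation.leibniz, Derivation.map_sub, Derivation.map_sub,
          Derivation.map_one_eq_zero, sub_zero, sub_zero, hDl, hDl, hanti i u w]
        have h1 := hl.inv u w
        have h2 : l u w - 1 ≠ 0 := sub_ne_zero.2 (hne u w huw)
        have h3 : l w u - 1 ≠ 0 := sub_ne_zero.2 (hne w u huw.symm)
        simp only [W, smul_eq_mul]
        rw [div_mul_eq_mul_div, div_eq_div_iff (mul_ne_zero h2 h3) h2]
        push_cast
        linear_combination (-((c i (u, w) : L) * (l u w - 1))) * h1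
      · rw [if_neg huw, if_neg huw]
    · intro w hw
      have huw := (Finset.mem_filter.1 hw).2
      exact mul_ne_zero (sub_ne_zero.2 (hne u w huw)) (sub_ne_zero.2 (hne w u huw.symm))
  have hψ0 : ∀ u, tpsi G l u ≠ 0 := by
    intro u
    unfold tpsi
    rw [Finset.prod_ne_zero_iff]
    intro w hw
    have huw := (Finset.mem_filter.1 hw).2
    exact mul_ne_zero (sub_ne_zero.2 (hne u w huw)) (sub_ne_zero.2 (hne w u huw.symm))
  apply tgood G l hl hne
  by_contra hdep
  obtain ⟨F, h1, t, ht⟩ := exists_relation' (tpsi G l) hdep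
  let y : V → L := fun v => aeval (tpsi G l) (pderiv v F) * tpsi G l v
  have hy : y t ≠ 0 := mul_ne_zero ht (hψ0 t)
  have hrel : ∀ i, ∑ u, ∑ w, (if G.Adj u w then y u * W u w else 0) * (c i (u, w) : L) = 0 := by
    intro i
    have h2 := der_aeval (D i) (tpsi G l) F
    rw [h1, map_zero] at h2
    refine Eq.trans ?_ h2.symm
    apply Finset.sum_congr rfl
    intro u _
    rw [hψ i u, Finset.mul_sum, Finset.mul_sum]
    apply Finset.sum_congr rfl
    intro w _
    by_cases huw : G.Adj u w
    · rw [if_pos huw, if_pos huw]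
      simp only [y]
      ring
    · rw [if_neg huw, if_neg huw]
      ring
  have hrel1 : ∀ i, ∑ u, ∑ w, (if G.Adj u w then y u * W u w else 0) *
      algebraMap ℚ L ((bas G i : V → V → ℚ) u w) = 0 := by
    intro i
    have h6 : (m i : L) ≠ 0 := by exact_mod_cast hm i
    apply (mul_eq_zero.1 _).resolve_left h6
    rw [Finset.mul_sum]
    refine Eq.trans ?_ (hrel i)
    apply Finset.sum_congr rfl
    intro u _
    rw [Finset.mul_sum]
    apply Finset.sum_congr rfl
    intro w _
    have h7 : (c i (u, w) : L) = m i * algebraMap ℚ L ((bas G i : V → V → ℚ) u w) := by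
      have h8 := congrArg (algebraMap ℚ L) (hc i (u, w))
      rw [map_mul] at h8
      simpa using h8
    rw [h7]; ring
  have hrel2 : ∀ z ∈ Circ G, ∑ v, ∑ w, (if G.Adj v w then y v * W v w else 0) *
      algebraMap ℚ L (z v w) = 0 := by
    intro z hz
    have hz2 : ∀ v w, z v w = ∑ i, (bas G).repr ⟨z, hz⟩ i * (bas G i : V → V → ℚ) v w := by
      intro v w
      have h2 := congrArg (fun t : Circ G => (t : V → V → ℚ) v w) ((bas G).sum_repr ⟨z, hz⟩)
      simp only [Submodule.coe_sum, Submodule.coe_smul, Finset.sum_apply, Pi.smul_apply,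
        smul_eq_mul] at h2
      exact h2.symm
    have h3 : ∀ v w, (if G.Adj v w then y v * W v w else 0) * algebraMap ℚ L (z v w) =
        ∑ i, algebraMap ℚ L ((bas G).repr ⟨z, hz⟩ i) *
          ((if G.Adj v w then y v * W v w else 0) *
            algebraMap ℚ L ((bas G i : V → V → ℚ) v w)) := by
      intro v w
      rw [hz2 v w, map_sum, Finset.mul_sum]
      apply Finset.sum_congr rfl
      intro i _
      rw [map_mul]; ring
    simp_rw [h3]
    calc ∑ v, ∑ w, ∑ i, algebraMap ℚ L ((bas G).repr ⟨z, hz⟩ i) *
          ((if G.Adj v w then y v * W v w else 0) * algebraMap ℚ L ((bas G i : V → V → ℚ) v w))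
        = ∑ v, ∑ i, ∑ w, algebraMap ℚ L ((bas G).repr ⟨z, hz⟩ i) *
          ((if G.Adj v w then y v * W v w else 0) * algebraMap ℚ L ((bas G i : V → V → ℚ) v w)) :=
          Finset.sum_congr rfl fun v _ => Finset.sum_comm
      _ = ∑ i, ∑ v, ∑ w, algebraMap ℚ L ((bas G).repr ⟨z, hz⟩ i) *
          ((if G.Adj v w then y v * W v w else 0) * algebraMap ℚ L ((bas G i : V → V → ℚ) v w)) :=
          Finset.sum_comm
      _ = 0 := by
        apply Finset.sum_eq_zero
        intro i _
        simp_rw [← Finset.mul_sum]
        rw [hrel1 i, mul_zero]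
  let g : V → V → L := fun u v => if G.Adj u v then W u v * (y u + y v) else 0
  have hanti' : ∀ u v, g v u = - g u v := by
    intro u v
    by_cases huv : G.Adj u v
    · simp only [g]
      rw [if_pos huv, if_pos huv.symm, hWanti u v huv]; ring
    · simp only [g]
      rw [if_neg huv, if_neg (fun h => huv h.symm), neg_zero]
  have horth : ∀ z ∈ Circ G, ∑ u, ∑ v, g u v * algebraMap ℚ L (z u v) = 0 := by
    intro z hz
    have h2 : ∀ u v, g u v * algebraMap ℚ L (z u v) =
        (if G.Adj u v then y u * W u v else 0) * algebraMap ℚ L (z u v) +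
        (if G.Adj v u then y v * W v u else 0) * algebraMap ℚ L (z v u) := by
      intro u v
      by_cases huv : G.Adj u v
      · simp only [g]
        rw [if_pos huv, if_pos huv, if_pos huv.symm, hWanti u v huv, hz.1 u v, map_neg]
        ring
      · simp only [g]
        rw [if_neg huv, if_neg huv, if_neg (fun h => huv h.symm)]; ring
    simp_rw [h2, Finset.sum_add_distrib]
    rw [hrel2 z hz, zero_add, Finset.sum_comm]
    exact hrel2 z hz
  obtain ⟨P, hP⟩ := exists_potential hG g hanti' horth
  obtain ⟨e, he⟩ := hrl (fun v => P v + y v) (fun v => P v - y v) (by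
    intro u v huv
    have h2 := hP u v huv
    simp only [g] at h2
    rw [if_pos huv] at h2
    have h3 : l u v - 1 ≠ 0 := sub_ne_zero.2 (hne u v huv)
    have h4 : (l u v - 1) * (P v - P u) = (l u v + 1) * (y u + y v) := by
      rw [h2]
      simp only [W]
      field_simp
    linear_combination -h4)
  have h5 := he t
  have h6 : (2 : L) * y t = 0 := by
    linear_combination h5.1 - h5.2
  exact hy ((mul_eq_zero.1 h6).resolve_left two_ne_zero)

/-- From a rigid multiplicative circulation over a field of characteristic zero to an orientation. -/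
theorem good_of_rigid {G : SimpleGraph V} (hG : G.Connected) (hb : Bridgeless G)
    {k : Type} [Field k] [Algebra ℚ k] (l0 : V → V → k) (h0 : MultCirc G l0) (hr : Rigid G l0) :
    Good G ⊤ :=
  good_of_rigid_aux (L := FractionRing (MvPolynomial (Fin (rk G)) k)) hG hb l0 h0 hr

end Pool.Agent.SAO
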