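import Pool.Agent.SAO.TFlow

/-!
# Most multiplicative circulations are rigid
-/

set_option autoImplicit false

namespace Pool.Agent.SAO

open Classical

variable {V : Type} [Fintype V]

/-- potentials which agree along the arcs of an antistrong digraph are constant -/
theorem const_of_antistrong {D : V → V → Prop} (h : IsAntistrong D) {K : Type} (a b : V → K)
    (hab : ∀ u v, D u v → a u = b v) : ∀ (r v : V), a v = a r ∧ b v = a r := by
  have h1 : ∀ x y, x ≠ y → a x = b y := by
    intro x y hxy
    obtain ⟨w, m, h0, hm, ht⟩ := h.2 x y hxy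
    have h2 : ∀ j ≤ m, a (w 0) = b (w (2 * j + 1)) := by
      intro j
      induction j with
      | zero =>
        intro _
        have h3 := ht.1 0 (by omega)
        unfold arc at h3
        rw [if_pos (by decide)] at h3
        exact hab _ _ h3
      | succ j ih =>
        intro hj
        rw [ih (by omega)]
        have h3 := ht.1 (2 * j + 1) (by omega)
        have h4 := ht.1 (2 * j + 2) (by omega)
        unfold arc at h3 h4
        rw [if_neg (by rw [Nat.not_even_iff_odd]; exact ⟨j, rfl⟩)] at h3
        rw [if_pos ⟨j + 1, by ring⟩] at h4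
        have h5 := hab _ _ h3
        have h6 := hab _ _ h4
        simp only at h5 h6
        rw [← h5]
        have h7 : 2 * j + 1 + 1 = 2 * j + 2 := by ring
        rw [h7, h6]
        congr 2
    rw [← h0, h2 m le_rfl, hm]
  have h3 : ∀ x y : V, ∃ z, z ≠ x ∧ z ≠ y := by
    intro x y
    by_contra hcon
    push Not at hcon
    have h4 : (Finset.univ : Finset V) ⊆ {x, y} := by
      intro z _
      rw [Finset.mem_insert, Finset.mem_singleton]
      by_cases hz : z = x
      · exact Or.inl hz
      · exact Or.inr (hcon z hz)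
    have h5 := Finset.card_le_card h4
    have h6 : Finset.card {x, y} ≤ 2 := Finset.card_le_two
    have h7 := h.1
    rw [Finset.card_univ] at h5
    omega
  intro r v
  have h4 : ∀ x y, a x = a y := by
    intro x y
    obtain ⟨z, hz1, hz2⟩ := h3 x y
    rw [h1 x z hz1.symm, h1 y z hz2.symm]
  refine ⟨h4 v r, ?_⟩
  obtain ⟨z, hz1, -⟩ := h3 v v
  rw [← h1 z v hz1]
  exact h4 z r

section

open Polynomial

theorem natDegree_det_le {n : Type} [Fintype n] [DecidableEq n] {K : Type} [Field K]
    (M : Matrix n n K[X]) (d : ℕ) (h : ∀ i j, (M i j).natDegree ≤ d) :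
    M.det.natDegree ≤ Fintype.card n * d := by
  rw [Matrix.det_apply]
  apply Polynomial.natDegree_sum_le_of_forall_le
  intro σ _
  refine (Polynomial.natDegree_smul_le _ _).trans ?_
  refine (Polynomial.natDegree_prod_le _ _).trans ?_
  calc ∑ i, (M (σ i) i).natDegree ≤ ∑ _i : n, d := Finset.sum_le_sum fun i _ => h _ _
    _ = Fintype.card n * d := by simp

theorem natDegree_ite {K : Type} [Field K] (P Q : Prop) [Decidable P] [Decidable Q] (γ : K[X])
    {m : ℕ} (hγ : γ.natDegree ≤ m) :
    (γ * ((if P then 1 else 0) - (if Q then 1 else 0))).natDegree ≤ m := by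
  have h2 : ((if P then (1 : K[X]) else 0) - (if Q then 1 else 0)) =
      C ((if P then (1 : K) else 0) - (if Q then 1 else 0)) := by
    rw [C_sub]
    congr 1 <;> split_ifs <;> simp
  rw [h2, mul_comm]
  exact (natDegree_C_mul_le _ _).trans hγ

omit [Fintype V] in
theorem natDegree_sysM {K : Type} [Field K] (G : SimpleGraph V) (r : V) (α β : V → V → K[X])
    {m : ℕ} (hα : ∀ u v, (α u v).natDegree ≤ m) (hβ : ∀ u v, (β u v).natDegree ≤ m) (p : V × V)
    (j : {c : V ⊕ V // c ≠ Sum.inl r}) : (sysM G r α β p j).natDegree ≤ m := by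
  unfold sysM
  by_cases hadj : G.Adj p.1 p.2
  · rw [if_pos hadj]
    refine (natDegree_sub_le _ _).trans (max_le ?_ ?_)
    · exact natDegree_ite _ _ _ (hβ _ _)
    · exact natDegree_ite _ _ _ (hα _ _)
  · rw [if_neg hadj, natDegree_zero]; exact Nat.zero_le _

/-- the twisted circulation -/
noncomputable def tw {K : Type} [Field K] (f : V → V → ℕ) (σ : Kˣ) (l : V → V → K) (u v : V) : K :=
  l u v * (σ : K) ^ ((f v u : ℤ) - (f u v : ℤ))

theorem MultCirc.tw {K : Type} [Field K] {G : SimpleGraph V} {f : V → V → ℕ}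
    (hf1 : ∀ u v, ¬ G.Adj u v → f u v = 0) (hf2 : ∀ a, ∑ b, f a b = ∑ b, f b a) (σ : Kˣ)
    {l : V → V → K} (hl : MultCirc G l) : MultCirc G (tw f σ l) := by
  have hσ : (σ : K) ≠ 0 := σ.ne_zero
  refine ⟨fun u v => ?_, fun u v huv => ?_, fun u => ?_⟩
  · unfold SAO.tw
    have h1 : l u v * (σ : K) ^ ((f v u : ℤ) - (f u v : ℤ)) *
        (l v u * (σ : K) ^ ((f u v : ℤ) - (f v u : ℤ))) =
        (l u v * l v u) * ((σ : K) ^ ((f v u : ℤ) - (f u v : ℤ)) *
          (σ : K) ^ ((f u v : ℤ) - (f v u : ℤ))) := by ring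
    rw [h1, hl.inv, one_mul, ← zpow_add₀ hσ]
    have h2 : (f v u : ℤ) - (f u v : ℤ) + ((f u v : ℤ) - (f v u : ℤ)) = 0 := by ring
    rw [h2, zpow_zero]
  · unfold SAO.tw
    rw [hl.out u v huv, hf1 u v huv, hf1 v u fun h => huv h.symm, sub_self, zpow_zero, one_mul]
  · unfold SAO.tw
    rw [Finset.prod_mul_distrib, hl.prod u, one_mul]
    have h1 : ∀ s : Finset V, ∏ v ∈ s, (σ : K) ^ ((f v u : ℤ) - (f u v : ℤ)) =
        (σ : K) ^ ∑ v ∈ s, ((f v u : ℤ) - (f u v : ℤ)) := by
      intro s
      induction s using Finset.induction_on with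
      | empty => simp
      | insert v s hv ih => rw [Finset.prod_insert hv, Finset.sum_insert hv, ih, zpow_add₀ hσ]
    rw [h1, Finset.sum_sub_distrib]
    have h2 : ∑ v, (f v u : ℤ) = ∑ v, (f u v : ℤ) := by exact_mod_cast (hf2 u).symm
    rw [h2, sub_self, zpow_zero]

/-- For all but few values of the parameter the twisted circulation is rigid. -/
theorem card_bad_le {K : Type} [Field K] [Fintype K] {G : SimpleGraph V} {D : V → V → Prop}
    (hD1 : IsOrientation G D) (hD3 : IsAntistrong D) {f : V → V → ℕ}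
    (hf1 : ∀ u v, D u v → 1 ≤ f u v) (hf0 : ∀ u v, ¬ D u v → f u v = 0) {m : ℕ}
    (hfm : ∀ u v, f u v ≤ m) {l : V → V → K} (hl : MultCirc G l) :
    (Finset.univ.filter fun σ : Kˣ => ¬ Rigid G (tw f σ l)).card ≤
      2 * Fintype.card V * m := by
  have hne : Nonempty V := by
    have := hD3.1
    exact Fintype.card_pos_iff.1 (by omega)
  obtain ⟨r⟩ := hne
  have hl0 : ∀ u v, l u v ≠ 0 := fun u v => left_ne_zero_of_mul (by rw [hl.inv u v]; exact one_ne_zero)
  have hnD : ∀ u v, D u v → ¬ D v u := fun u v h => (hD1.one u v (hD1.adj u v h)).1 h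
  let α : V → V → K[X] := fun u v => if D u v then C (l u v) else C (l u v) * X ^ f v u
  let β : V → V → K[X] := fun u v => if D u v then X ^ f u v else 1
  -- the system at zero
  have h0 : ∀ x, (sysM G r (fun u v => (evalRingHom (0 : K)) (α u v))
      (fun u v => (evalRingHom (0 : K)) (β u v))).mulVec x = 0 → x = 0 := by
    intro x hx
    have h1 := const_of_antistrong hD3 (fun v => extv x (Sum.inl v)) (fun v => extv x (Sum.inr v))
      (by
        intro u v huv
        have h2 : (sysM G r (fun u v => (evalRingHom (0 : K)) (α u v))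
          (fun u v => (evalRingHom (0 : K)) (β u v))).mulVec x (u, v) = 0 := congrFun hx (u, v)
        rw [sysM_mulVec G r _ _ x u v (hD1.adj u v huv)] at h2
        have h3 : (evalRingHom (0 : K)) (α u v) = l u v := by
          simp [α, huv]
        have h4 : (evalRingHom (0 : K)) (β u v) = 0 := by
          have h5 := hf1 u v huv
          have h6 : f u v ≠ 0 := by omega
          simp [β, huv, h6]
        rw [h3, h4, zero_mul, zero_sub, neg_eq_zero] at h2
        have h5 := (mul_eq_zero.1 h2).resolve_left (hl0 u v)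
        exact (sub_eq_zero.1 h5).symm) r
    have h2 : extv x (Sum.inl r) = 0 := by simp [extv]
    funext d
    have h3 : extv x d.1 = x d := by
      unfold extv
      rw [dif_pos d.2]
    rw [← h3, Pi.zero_apply, ← h2]
    rcases hd : d.1 with v | v
    · exact (h1 v).1
    · exact (h1 v).2
  obtain ⟨Q, hQ⟩ := exists_left_inv _ h0
  let P : K[X] := (Q.map (C : K →+* K[X]) * sysM G r α β).det
  have hP0 : P.eval 0 = 1 := by
    have h1 : P.eval 0 = (evalRingHom (0 : K)) P := rfl
    rw [h1]
    simp only [P]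
    rw [RingHom.map_det, RingHom.mapMatrix_apply, Matrix.map_mul, sysM_map]
    have h2 : (Q.map (C : K →+* K[X])).map (evalRingHom (0 : K)) = Q := by
      ext i j
      simp
    rw [h2, hQ, Matrix.det_one]
  have hPne : P ≠ 0 := by
    intro h
    rw [h, eval_zero] at hP0
    exact zero_ne_one hP0
  have hdα : ∀ u v, (α u v).natDegree ≤ m := by
    intro u v
    simp only [α]
    split_ifs
    · rw [natDegree_C]; exact Nat.zero_le _
    · refine (natDegree_C_mul_le _ _).trans ?_
      rw [natDegree_X_pow]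
      exact hfm v u
  have hdβ : ∀ u v, (β u v).natDegree ≤ m := by
    intro u v
    simp only [β]
    split_ifs
    · rw [natDegree_X_pow]
      exact hfm u v
    · rw [natDegree_one]; exact Nat.zero_le _
  have hdeg : P.natDegree ≤ 2 * Fintype.card V * m := by
    have h1 : P.natDegree ≤ Fintype.card {c : V ⊕ V // c ≠ Sum.inl r} * m := by
      apply natDegree_det_le
      intro i j
      rw [Matrix.mul_apply]
      apply Polynomial.natDegree_sum_le_of_forall_le
      intro p _
      rw [Matrix.map_apply]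
      refine (natDegree_C_mul_le _ _).trans ?_
      exact natDegree_sysM G r α β hdα hdβ p j
    have h2 : Fintype.card {c : V ⊕ V // c ≠ Sum.inl r} ≤ 2 * Fintype.card V := by
      calc Fintype.card {c : V ⊕ V // c ≠ Sum.inl r} ≤ Fintype.card (V ⊕ V) :=
            Fintype.card_subtype_le _
        _ = 2 * Fintype.card V := by rw [Fintype.card_sum]; ring
    exact h1.trans (Nat.mul_le_mul_right _ h2)
  -- values of the parameter which are not roots
  have hgood : ∀ σ : Kˣ, P.eval (σ : K) ≠ 0 → Rigid G (tw f σ l) := by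
    intro σ hσ
    have hσ0 : (σ : K) ≠ 0 := σ.ne_zero
    apply rigid_of_inj r (fun u v => (evalRingHom (σ : K)) (α u v))
      (fun u v => (evalRingHom (σ : K)) (β u v))
    · intro u v huv
      unfold SAO.tw
      by_cases hD : D u v
      · have h1 : f v u = 0 := hf0 v u (hnD u v hD)
        have h2 : (evalRingHom (σ : K)) (α u v) = l u v := by simp [α, hD]
        have h3 : (evalRingHom (σ : K)) (β u v) = (σ : K) ^ f u v := by simp [β, hD]
        rw [h2, h3, h1, mul_assoc, ← zpow_natCast, ← zpow_add₀ hσ0]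
        simp
      · have h1 : f u v = 0 := hf0 u v hD
        have h2 : (evalRingHom (σ : K)) (α u v) = l u v * (σ : K) ^ f v u := by simp [α, hD]
        have h3 : (evalRingHom (σ : K)) (β u v) = 1 := by simp [β, hD]
        rw [h2, h3, h1, mul_one]
        simp
    · intro x hx
      have h3 : ((Q.map (C : K →+* K[X]) * sysM G r α β).map (evalRingHom (σ : K))).det ≠ 0 := by
        have h4 : ((Q.map (C : K →+* K[X]) * sysM G r α β).map (evalRingHom (σ : K))).det =
            P.eval (σ : K) := by
          have h5 : P.eval (σ : K) = (evalRingHom (σ : K)) P := rfl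
          rw [h5]
          simp only [P]
          rw [RingHom.map_det, RingHom.mapMatrix_apply]
        rw [h4]
        exact hσ
      apply Matrix.eq_zero_of_mulVec_eq_zero h3
      rw [Matrix.map_mul, sysM_map, ← Matrix.mulVec_mulVec, hx, Matrix.mulVec_zero]
  calc (Finset.univ.filter fun σ : Kˣ => ¬ Rigid G (tw f σ l)).card
      ≤ P.roots.toFinset.card := by
        apply Finset.card_le_card_of_injOn (fun σ : Kˣ => (σ : K))
        · intro σ hσ
          rw [Finset.mem_coe, Finset.mem_filter] at hσ
          rw [Finset.mem_coe, Multiset.mem_toFinset, mem_roots hPne]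
          by_contra h
          exact hσ.2 (hgood σ h)
        · intro σ _ τ _ h
          exact Units.ext h
    _ ≤ Multiset.card P.roots := Multiset.toFinset_card_le _
    _ ≤ P.natDegree := P.card_roots'
    _ ≤ _ := hdeg

end

theorem tw_tw {K : Type} [Field K] (f : V → V → ℕ) (σ : Kˣ) (l : V → V → K) :
    tw f σ (tw f σ⁻¹ l) = l := by
  funext u v
  unfold tw
  have hσ0 : (σ : K) ≠ 0 := σ.ne_zero
  rw [mul_assoc, Units.val_inv_eq_inv_val, inv_zpow', ← zpow_add₀ hσ0]
  have : -((f v u : ℤ) - (f u v : ℤ)) + ((f v u : ℤ) - (f u v : ℤ)) = 0 := by ring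
  rw [this, zpow_zero, mul_one]

theorem card_arcs_le {G : SimpleGraph V} {D : V → V → Prop} (hD : IsOrientation G D) :
    (Finset.univ.filter fun p : V × V => D p.1 p.2).card ≤ Nat.card G.edgeSet := by
  rw [Nat.card_eq_fintype_card]
  have h1 : Fintype.card G.edgeSet = G.edgeFinset.card := by
    rw [SimpleGraph.edgeFinset_card]
  rw [h1]
  apply Finset.card_le_card_of_injOn (fun p : V × V => s(p.1, p.2))
  · intro p hp
    rw [Finset.mem_coe, Finset.mem_filter] at hp
    rw [Finset.mem_coe, SimpleGraph.mem_edgeFinset, SimpleGraph.mem_edgeSet]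
    exact hD.adj _ _ hp.2
  · intro p hp q hq heq
    rw [Finset.mem_coe, Finset.mem_filter] at hp hq
    simp only at heq
    rw [Sym2.eq_iff] at heq
    rcases heq with ⟨h1, h2⟩ | ⟨h1, h2⟩
    · exact Prod.ext h1 h2
    · exfalso
      have h3 := (hD.one p.1 p.2 (hD.adj _ _ hp.2)).1 hp.2
      rw [h1, h2] at h3
      exact h3 hq.2

/-- Few multiplicative circulations are not rigid. -/
theorem few_bad {K : Type} [Field K] [Fintype K] {G : SimpleGraph V} {D : V → V → Prop}
    (hD1 : IsOrientation G D) (hD2 : IsStrong D) (hD3 : IsAntistrong D) :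
    (Fintype.card K - 1) * (Finset.univ.filter fun l : V → V → K => MultCirc G l ∧
      ¬ Rigid G l).card ≤ 2 * Fintype.card V * Nat.card G.edgeSet *
      (Finset.univ.filter fun l : V → V → K => MultCirc G l).card := by
  obtain ⟨f, hf1, hf0, hf2, hfm⟩ := exists_flow hD2 (fun u v h => (hD1.adj u v h).ne)
  have hfm' : ∀ a b, f a b ≤ Nat.card G.edgeSet := fun a b => (hfm a b).trans (card_arcs_le hD1)
  have hf1' : ∀ u v, ¬ G.Adj u v → f u v = 0 := fun u v h => hf0 u v fun h' => h (hD1.adj u v h')
  have hunits : Fintype.card K - 1 = Fintype.card Kˣ := by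
    rw [Fintype.card_units]
  -- for fixed `σ` the twist is a bijection
  have hbij : ∀ σ : Kˣ, (Finset.univ.filter fun l : V → V → K => MultCirc G l ∧
      ¬ Rigid G (tw f σ l)).card =
      (Finset.univ.filter fun l : V → V → K => MultCirc G l ∧ ¬ Rigid G l).card := by
    intro σ
    apply Finset.card_bij (fun l _ => tw f σ l)
    · intro l hl
      rw [Finset.mem_filter] at hl ⊢
      exact ⟨Finset.mem_univ _, hl.2.1.tw hf1' hf2 σ, hl.2.2⟩
    · intro l _ l' _ heq
      have h1 := tw_tw f σ⁻¹ l
      have h2 := tw_tw f σ⁻¹ l'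
      rw [inv_inv] at h1 h2
      rw [← h1, ← h2, heq]
    · intro l hl
      rw [Finset.mem_filter] at hl
      refine ⟨tw f σ⁻¹ l, ?_, tw_tw f σ l⟩
      rw [Finset.mem_filter]
      refine ⟨Finset.mem_univ _, hl.2.1.tw hf1' hf2 σ⁻¹, ?_⟩
      rw [tw_tw]
      exact hl.2.2
  have h1 : ∑ σ : Kˣ, (Finset.univ.filter fun l : V → V → K => MultCirc G l ∧
      ¬ Rigid G (tw f σ l)).card = (Fintype.card K - 1) *
      (Finset.univ.filter fun l : V → V → K => MultCirc G l ∧ ¬ Rigid G l).card := by
    simp_rw [hbij]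
    rw [Finset.sum_const, Finset.card_univ, smul_eq_mul, hunits]
  rw [← h1]
  have h2 : ∑ σ : Kˣ, (Finset.univ.filter fun l : V → V → K => MultCirc G l ∧
      ¬ Rigid G (tw f σ l)).card = ∑ l ∈ Finset.univ.filter (fun l : V → V → K => MultCirc G l),
      (Finset.univ.filter fun σ : Kˣ => ¬ Rigid G (tw f σ l)).card := by
    simp_rw [Finset.card_filter]
    rw [Finset.sum_comm, Finset.sum_filter]
    apply Finset.sum_congr rfl
    intro l _
    by_cases hl : MultCirc G l
    · simp [hl]
    · simp [hl]
  rw [h2]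
  calc ∑ l ∈ Finset.univ.filter (fun l : V → V → K => MultCirc G l),
      (Finset.univ.filter fun σ : Kˣ => ¬ Rigid G (tw f σ l)).card
      ≤ ∑ l ∈ Finset.univ.filter (fun l : V → V → K => MultCirc G l),
        2 * Fintype.card V * Nat.card G.edgeSet :=
        Finset.sum_le_sum fun l hl =>
          card_bad_le hD1 hD3 hf1 hf0 hfm' (Finset.mem_filter.1 hl).2
    _ = _ := by rw [Finset.sum_const, smul_eq_mul, mul_comm]

end Pool.Agent.SAO
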