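import Pool.Agent.SAO.TWitt
import Pool.Agent.SAO.TRand

/-!
# The criterion
-/

set_option autoImplicit false

namespace Pool.Agent.SAO

open Classical

variable {V : Type} [Fintype V]

theorem conn_of_two {G : SimpleGraph V} [Nonempty V] (h2 : G.IsEdgeConnected 2) :
    G.Connected := by
  refine ⟨fun u v => ?_⟩
  have := h2 u v (s := ∅) (by simp)
  simpa using this

omit [Fintype V] in
theorem bridgeless_of_two {G : SimpleGraph V} (h2 : G.IsEdgeConnected 2) : Bridgeless G := by
  intro X u hu v hv huv
  have h := h2 u v (s := {s(u, v)}) (by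
    rw [Set.encard_singleton]
    exact_mod_cast (by norm_num : (1 : ℕ) < 2))
  obtain ⟨p⟩ := h
  by_contra hcon
  push Not at hcon
  have key : ∀ {a b : V}, (G.deleteEdges {s(u, v)}).Walk a b → a ∈ X → b ∈ X := by
    intro a b w
    induction w with
    | nil => exact id
    | @cons c d e hadj w ih =>
      intro hc
      apply ih
      by_contra hd
      rw [SimpleGraph.deleteEdges_adj] at hadj
      have h1 := hcon c hc d hd hadj.1
      rw [Prod.mk.injEq] at h1
      apply hadj.2
      rw [h1.1, h1.2]
      exact Set.mem_singleton _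
  exact hv (key p hu)

theorem criterion (hV : 3 ≤ Fintype.card V) {G : SimpleGraph V} (hG : G.IsEdgeConnected 2) :
    (∀ (K : Type) [Field K] (l : V → V → K), MultCirc G l → Rigid G l →
      ∃ D : V → V → Prop, IsOrientation G D ∧ IsStrong D ∧ IsAntistrong D) ∧
    ((∃ D : V → V → Prop, IsOrientation G D ∧ IsStrong D ∧ IsAntistrong D) →
      ∀ (K : Type) [Field K] [Fintype K],
        (Fintype.card K - 1) * Nat.card {l : V → V → K // MultCirc G l ∧ ¬ Rigid G l} ≤
          2 * Fintype.card V * Nat.card G.edgeSet * Nat.card {l : V → V → K // MultCirc G l}) := by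
  have hne : Nonempty V := Fintype.card_pos_iff.1 (by omega)
  refine ⟨fun K _ l hl hr => ?_, ?_⟩
  · exact Good.sa hV (conn_of_two hG)
      (good_of_rigid_field (conn_of_two hG) (bridgeless_of_two hG) l hl hr)
  · rintro ⟨D, hD1, hD2, hD3⟩ K _ _
    have h := few_bad (K := K) hD1 hD2 hD3
    have h1 : ∀ P : (V → V → K) → Prop, Nat.card {l : V → V → K // P l} =
        (Finset.univ.filter fun l : V → V → K => P l).card := by
      intro P
      rw [Nat.card_eq_fintype_card, Fintype.card_subtype]
    rw [h1, h1]
    convert h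

end Pool.Agent.SAO
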