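import Pool.Agent.SAO.TCut

/-!
# From a valuation on a multiplicative circulation to an orientation
-/

set_option autoImplicit false

namespace Pool.Agent.SAO

open Classical

variable {V : Type} [Fintype V] {K : Type} [Field K] {Γ : Type} [LinearOrderedCommGroupWithZero Γ]

/-- the levels -/
noncomputable def tvals (G : SimpleGraph V) (v : Valuation K Γ) (l : V → V → K) : Finset Γ :=
  (Finset.univ.filter fun p : V × V => G.Adj p.1 p.2).image fun p => lev v l p.1 p.2

/-- the linear form of a level -/
noncomputable def tlf (G : SimpleGraph V) (v : Valuation K Γ) (l : V → V → K) (g : Γ) :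
    (V → ℚ) →ₗ[ℚ] ℚ :=
  ∑ a : V, ∑ b : V, if G.Adj a b ∧ v (l a b) = 1 ∧ lev v l a b = g then LinearMap.proj a else 0

theorem tlf_apply (G : SimpleGraph V) (v : Valuation K Γ) (l : V → V → K) (g : Γ) (y : V → ℚ) :
    tlf G v l g y = ∑ a, ∑ b, if G.Adj a b ∧ v (l a b) = 1 ∧ lev v l a b = g then y a else 0 := by
  unfold tlf
  simp only [LinearMap.sum_apply]
  apply Finset.sum_congr rfl
  intro a _
  apply Finset.sum_congr rfl
  intro b _
  split_ifs
  · rfl
  · rfl

/-- the vectors killed by the lower levels -/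
noncomputable def tnl (G : SimpleGraph V) (v : Valuation K Γ) (l : V → V → K) (g : Γ) :
    Submodule ℚ (V → ℚ) :=
  ⨅ g' ∈ (tvals G v l).filter fun g' => g' < g, LinearMap.ker (tlf G v l g')

theorem mem_tnl {G : SimpleGraph V} {v : Valuation K Γ} {l : V → V → K} {g : Γ} {y : V → ℚ} :
    y ∈ tnl G v l g ↔ ∀ g' ∈ tvals G v l, g' < g → tlf G v l g' y = 0 := by
  unfold tnl
  simp only [Submodule.mem_iInf, LinearMap.mem_ker, Finset.mem_filter]
  constructor
  · intro h g' h1 h2
    exact h g' ⟨h1, h2⟩
  · intro h g' h1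
    exact h g' h1.1 h1.2

/-- the edges of value different from one -/
def bg (G : SimpleGraph V) (v : Valuation K Γ) (l : V → V → K) (h : MultCirc G l) :
    SimpleGraph V where
  Adj a b := G.Adj a b ∧ v (l a b) ≠ 1
  symm := ⟨fun a b hab => ⟨hab.1.symm, fun h2 => hab.2 (by
    have h3 := h.v_inv v a b
    rw [h2, mul_one] at h3
    exact h3)⟩⟩
  loopless := ⟨fun a h => G.loopless.irrefl a h.1⟩

theorem tgood_levels {G : SimpleGraph V} {l : V → V → K} (h : MultCirc G l) (v : Valuation K Γ)
    (hne : ∀ a b, G.Adj a b → l a b ≠ 1)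
    (D : V → V → Prop) (hD1 : IsOrientation (bg G v l h) D) (hD2 : CutCyclic D)
    (hD3 : ∀ y : V → ℚ, (∀ g ∈ tvals G v l, tlf G v l g y = 0) →
      ∀ p : V → ℚ, (∀ u v, D u v → p v - p u = y u + y v) → y = 0) :
    ∀ (n : ℕ) (g : Γ), g ∈ tvals G v l → ((tvals G v l).filter fun g' => g < g').card = n →
      Good (tg G v l g) (tnl G v l g) := by
  have hval : ∀ a b, G.Adj a b → lev v l a b ∈ tvals G v l := fun a b hab =>
    Finset.mem_image.2 ⟨(a, b), Finset.mem_filter.2 ⟨Finset.mem_univ _, hab⟩, rfl⟩
  intro n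
  induction n using Nat.strong_induction_on with
  | _ n ih =>
    intro g hgv hn
    have hg01 : 0 < g ∧ g ≤ 1 := by
      obtain ⟨p, hp, rfl⟩ := Finset.mem_image.1 hgv
      have h1 := (Finset.mem_filter.1 hp).2
      refine ⟨?_, h.lev_le v _ _⟩
      refine lt_min ?_ ?_
      · exact zero_lt_iff.2 ((Valuation.ne_zero_iff v).2 (sub_ne_zero.2 (hne _ _ h1)))
      · exact zero_lt_iff.2 ((Valuation.ne_zero_iff v).2 (sub_ne_zero.2 (hne _ _ h1.symm)))
    by_cases hemp : ((tvals G v l).filter fun g' => g < g') = ∅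
    · -- the top level
      have htop : ∀ a b, G.Adj a b → lev v l a b ≤ g := by
        intro a b hab
        by_contra hcon
        push Not at hcon
        have h3 : lev v l a b ∈ (tvals G v l).filter fun g' => g < g' :=
          Finset.mem_filter.2 ⟨hval a b hab, hcon⟩
        rw [hemp] at h3
        exact absurd h3 (Finset.notMem_empty _)
      apply Good.step (H' := bg G v l h) ?_ (tg_bridgeless h v hg01.1 hg01.2)
      · refine ⟨D, hD1, hD2, ?_⟩
        rintro y ⟨hy1, hy2⟩ p hp
        apply hD3 y _ p hp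
        intro g' hg'
        rcases lt_trichotomy g' g with h1 | h1 | h1
        · exact (mem_tnl.1 hy1) g' hg' h1
        · subst h1
          rw [SetLike.mem_coe, LinearMap.mem_ker, LinearMap.sub_apply, dg_apply, dg_apply,
            ← Finset.sum_sub_distrib] at hy2
          rw [tlf_apply]
          refine Eq.trans ?_ hy2
          apply Finset.sum_congr rfl
          intro a _
          rw [← Finset.sum_sub_distrib]
          apply Finset.sum_congr rfl
          intro b _
          have e1 : (tg G v l g').Adj a b ↔ G.Adj a b ∧ g' ≤ lev v l a b := Iff.rfl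
          have e2 : (bg G v l h).Adj a b ↔ G.Adj a b ∧ v (l a b) ≠ 1 := Iff.rfl
          by_cases hab : G.Adj a b
          · by_cases hv : v (l a b) = 1
            · rw [if_neg fun hh => (e2.1 hh).2 hv, sub_zero]
              apply if_congr _ rfl rfl
              rw [e1]
              constructor
              · rintro ⟨k1, k2, k3⟩
                exact ⟨k1, k3.ge⟩
              · rintro ⟨k1, k2⟩
                exact ⟨k1, hv, le_antisymm (htop a b hab) k2⟩
            · have h2 := h.lev_ne v hv
              rw [if_neg fun hh => hv hh.2.1, if_pos (e1.2 ⟨hab, by rw [h2]; exact hg01.2⟩),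
                if_pos (e2.2 ⟨hab, hv⟩), sub_self]
          · rw [if_neg fun hh => hab hh.1, if_neg fun hh => hab (e1.1 hh).1,
              if_neg fun hh => hab (e2.1 hh).1, sub_zero]
        · have h3 : g' ∈ (tvals G v l).filter fun g'' => g < g'' :=
            Finset.mem_filter.2 ⟨hg', h1⟩
          rw [hemp] at h3
          exact absurd h3 (Finset.notMem_empty _)
      · intro a b hab
        exact ⟨hab.1, by rw [h.lev_ne v hab.2]; exact hg01.2⟩
    · -- the next level
      have hne' := Finset.nonempty_iff_ne_empty.2 hemp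
      let g₁ := ((tvals G v l).filter fun g' => g < g').min' hne'
      have hg₁ := Finset.min'_mem _ hne'
      have hg₁' : g₁ ∈ tvals G v l ∧ g < g₁ := by
        have := Finset.mem_filter.1 hg₁
        exact this
      have hg₁1 : g₁ ≤ 1 := by
        obtain ⟨p, hp, h2⟩ := Finset.mem_image.1 hg₁'.1
        rw [← h2]
        exact h.lev_le v _ _
      have hbet : ∀ g' ∈ tvals G v l, g < g' → g₁ ≤ g' := fun g' k1 k2 =>
        Finset.min'_le _ _ (Finset.mem_filter.2 ⟨k1, k2⟩)
      have hlt : ((tvals G v l).filter fun g' => g₁ < g').card < n := by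
        rw [← hn]
        apply Finset.card_lt_card
        rw [Finset.ssubset_iff_of_subset]
        · refine ⟨g₁, hg₁, ?_⟩
          intro h
          exact lt_irrefl _ (Finset.mem_filter.1 h).2
        · intro g' hg'
          have := Finset.mem_filter.1 hg'
          exact Finset.mem_filter.2 ⟨this.1, hg₁'.2.trans this.2⟩
      have hG := ih _ hlt g₁ hg₁'.1 rfl
      have hle : tg G v l g₁ ≤ tg G v l g := by
        intro a b hab
        exact ⟨hab.1, hg₁'.2.le.trans hab.2⟩
      apply Good.step hle (tg_bridgeless h v hg01.1 hg01.2)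
      obtain ⟨D', hD1', hD2', hD3'⟩ := hG
      refine ⟨D', hD1', hD2', ?_⟩
      rintro y ⟨hy1, hy2⟩ p hp
      apply hD3' y _ p hp
      rw [mem_tnl]
      intro g' hg' hg'lt
      rcases lt_trichotomy g' g with h1 | h1 | h1
      · exact (mem_tnl.1 hy1) g' hg' h1
      · subst h1
        rw [SetLike.mem_coe, LinearMap.mem_ker, LinearMap.sub_apply, dg_apply, dg_apply,
          ← Finset.sum_sub_distrib] at hy2
        rw [tlf_apply]
        refine Eq.trans ?_ hy2
        apply Finset.sum_congr rfl
        intro a _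
        rw [← Finset.sum_sub_distrib]
        apply Finset.sum_congr rfl
        intro b _
        have e1 : (tg G v l g').Adj a b ↔ G.Adj a b ∧ g' ≤ lev v l a b := Iff.rfl
        have e2 : (tg G v l g₁).Adj a b ↔ G.Adj a b ∧ g₁ ≤ lev v l a b := Iff.rfl
        by_cases hab : G.Adj a b
        · rcases lt_trichotomy (lev v l a b) g' with k | k | k
          · rw [if_neg fun h => k.ne h.2.2, if_neg fun h => (e1.1 h).2.not_gt k,
              if_neg fun h => (e2.1 h).2.not_gt (k.trans hg₁'.2), sub_zero]
          · have hv : v (l a b) = 1 := by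
              by_contra hv
              rw [h.lev_ne v hv] at k
              rw [← k] at hg₁'
              exact absurd hg₁1 (not_le.2 hg₁'.2)
            rw [if_pos ⟨hab, hv, k⟩, if_pos (e1.2 ⟨hab, k.ge⟩),
              if_neg fun h => (e2.1 h).2.not_gt (k ▸ hg₁'.2), sub_zero]
          · rw [if_neg fun h => k.ne' h.2.2, if_pos (e1.2 ⟨hab, k.le⟩),
              if_pos (e2.2 ⟨hab, hbet _ (hval a b hab) k⟩), sub_self]
        · rw [if_neg fun h => hab h.1, if_neg fun h => hab (e1.1 h).1,
            if_neg fun h => hab (e2.1 h).1, sub_zero]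
      · exact absurd (hbet g' hg' h1) (not_le.2 hg'lt)

/-- an integer multiple -/
theorem exists_int_mult {ι : Type} [Fintype ι] (f : ι → ℚ) :
    ∃ k : ℕ, k ≠ 0 ∧ ∃ a : ι → ℤ, ∀ i, (a i : ℚ) = k * f i := by
  let k : ℕ := ∏ u, (f u).den
  have hk : k ≠ 0 := Finset.prod_ne_zero_iff.2 fun u _ => (f u).den_nz
  have hint : ∀ u, ∃ a : ℤ, (a : ℚ) = k * f u := by
    intro u
    refine ⟨(∏ w ∈ Finset.univ.erase u, ((f w).den : ℤ)) * (f u).num, ?_⟩
    have h1 : (k : ℚ) = (∏ w ∈ Finset.univ.erase u, ((f w).den : ℚ)) * (f u).den := by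
      simp only [k]
      rw [Nat.cast_prod, ← Finset.mul_prod_erase Finset.univ _ (Finset.mem_univ u), mul_comm]
    push_cast
    rw [h1, mul_assoc, mul_comm ((f u).den : ℚ), Rat.mul_den_eq_num]
  choose a ha using hint
  exact ⟨k, hk, a, ha⟩

/-- splitting a product over all pairs -/
theorem prod_split (v : Valuation K Γ) {G : SimpleGraph V} {l : V → V → K} (h : MultCirc G l)
    (F : V × V → Γ) (hF : ∏ p ∈ Finset.univ.filter (fun p : V × V => v (l p.1 p.2) = 1), F p = 1) :
    ∏ p, F p = ∏ p ∈ Finset.univ.filter (fun p : V × V => 1 < v (l p.1 p.2)), F p * F (p.2, p.1) := by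
  have h1 : ∀ p : V × V, v (l p.1 p.2) < 1 ↔ 1 < v (l p.2 p.1) := by
    intro p
    have h2 := h.v_inv v p.1 p.2
    constructor
    · intro h3
      by_contra hcon
      push Not at hcon
      have h4 : v (l p.1 p.2) * v (l p.2 p.1) < 1 := by
        calc v (l p.1 p.2) * v (l p.2 p.1) ≤ v (l p.1 p.2) * 1 := by gcongr
          _ = v (l p.1 p.2) := mul_one _
          _ < 1 := h3
      rw [h2] at h4
      exact lt_irrefl _ h4
    · intro h3
      exact (h.v_gt v h3).1
  rw [← Finset.prod_filter_mul_prod_filter_not Finset.univ (fun p : V × V => v (l p.1 p.2) = 1),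
    hF, one_mul]
  have h2 : Finset.univ.filter (fun p : V × V => ¬ v (l p.1 p.2) = 1) =
      Finset.univ.filter (fun p : V × V => 1 < v (l p.1 p.2)) ∪
      Finset.univ.filter (fun p : V × V => v (l p.1 p.2) < 1) := by
    ext p
    simp only [Finset.mem_filter, Finset.mem_univ, true_and, Finset.mem_union]
    constructor
    · intro h3
      rcases lt_or_gt_of_ne h3 with h4 | h4
      · exact Or.inr h4
      · exact Or.inl h4
    · rintro (h3 | h3)
      · exact h3.ne'
      · exact h3.ne
  rw [h2, Finset.prod_union, Finset.prod_mul_distrib]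
  · congr 1
    apply Finset.prod_bij (fun p _ => (p.2, p.1))
    · intro p hp
      rw [Finset.mem_filter] at hp ⊢
      exact ⟨Finset.mem_univ _, (h1 p).1 hp.2⟩
    · rintro ⟨a, b⟩ _ ⟨c, d⟩ _ heq
      rw [Prod.mk.injEq] at heq
      exact Prod.ext heq.2 heq.1
    · intro p hp
      rw [Finset.mem_filter] at hp
      refine ⟨(p.2, p.1), ?_, rfl⟩
      rw [Finset.mem_filter]
      exact ⟨Finset.mem_univ _, (h1 (p.2, p.1)).2 hp.2⟩
    · intro p _
      rfl
  · rw [Finset.disjoint_left]
    intro p hp hp'
    exact lt_asymm (Finset.mem_filter.1 hp).2 (Finset.mem_filter.1 hp').2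

/-- the product of the values at a vertex -/
noncomputable def tpsi (G : SimpleGraph V) (l : V → V → K) (u : V) : K :=
  ∏ w ∈ Finset.univ.filter (fun w => G.Adj u w), (l u w - 1) * (l w u - 1)

theorem tkernel {G : SimpleGraph V} {l : V → V → K} (h : MultCirc G l) (v : Valuation K Γ)
    (hne : ∀ a b, G.Adj a b → l a b ≠ 1)
    (hmon : ∀ a : V → ℤ, v (mon (tpsi G l) a) = 1 → a = 0)
    (y : V → ℚ) (hy : ∀ g ∈ tvals G v l, tlf G v l g y = 0) (p : V → ℚ)
    (hp : ∀ a b, G.Adj a b ∧ 1 < v (l a b) → p b - p a = y a + y b) : y = 0 := by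
  obtain ⟨k, hk, f, hf⟩ := exists_int_mult (Sum.elim y p)
  let a : V → ℤ := fun u => f (Sum.inl u)
  let P : V → ℤ := fun u => f (Sum.inr u)
  have ha : ∀ u, (a u : ℚ) = k * y u := fun u => hf (Sum.inl u)
  have hP : ∀ u, (P u : ℚ) = k * p u := fun u => hf (Sum.inr u)
  have hgt : ∀ u w, 1 < v (l u w) → P w - P u = a u + a w := by
    intro u w huw
    have hadj : G.Adj u w := by
      by_contra hcon
      rw [h.out _ _ hcon, map_one] at huw
      exact lt_irrefl _ huw
    have h1 := hp u w ⟨hadj, huw⟩
    have h2 : ((P w - P u : ℤ) : ℚ) = ((a u + a w : ℤ) : ℚ) := by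
      push_cast
      rw [hP, hP, ha, ha]
      linear_combination (k : ℚ) * h1
    exact_mod_cast h2
  have hvne : ∀ u w, v (l u w) ≠ 0 := fun u w => (Valuation.ne_zero_iff v).2 (h.ne_zero u w)
  have h0 : a = 0 := by
    apply hmon
    -- the product over all pairs
    let F : V × V → Γ := fun p => if G.Adj p.1 p.2 then
      (v (l p.1 p.2 - 1) * v (l p.2 p.1 - 1)) ^ a p.1 else 1
    have h1 : v (mon (tpsi G l) a) = ∏ p, F p := by
      unfold mon tpsi
      rw [map_prod, Fintype.prod_prod_type]
      apply Finset.prod_congr rfl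
      intro u _
      rw [map_zpow₀, map_prod, ← Finset.prod_zpow, Finset.prod_filter]
      apply Finset.prod_congr rfl
      intro w _
      simp only [F]
      split_ifs
      · rw [map_mul]
      · rfl
    rw [h1, prod_split v h F]
    · -- the pairs of value different from one
      have h2 : ∀ p ∈ Finset.univ.filter (fun p : V × V => 1 < v (l p.1 p.2)),
          F p * F (p.2, p.1) = v (l p.1 p.2) ^ P p.2 * v (l p.2 p.1) ^ P p.1 := by
        intro p hp
        have hp' := (Finset.mem_filter.1 hp).2
        have hadj : G.Adj p.1 p.2 := by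
          by_contra hcon
          rw [h.out _ _ hcon, map_one] at hp'
          exact lt_irrefl _ hp'
        simp only [F]
        rw [if_pos hadj, if_pos hadj.symm]
        obtain ⟨k1, k2, k3, -⟩ := h.v_gt v hp'
        rw [k2, k3, mul_one, one_mul, ← zpow_add₀ (hvne _ _), ← hgt _ _ hp']
        have h3 : v (l p.2 p.1) = (v (l p.1 p.2))⁻¹ := eq_inv_of_mul_eq_one_right (h.v_inv v _ _)
        rw [h3, inv_zpow', ← zpow_add₀ (hvne _ _)]
        rfl
      rw [Finset.prod_congr rfl h2]
      have h3 := prod_split v h (fun p => v (l p.1 p.2) ^ P p.2) (by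
        apply Finset.prod_eq_one
        intro p hp
        rw [(Finset.mem_filter.1 hp).2, one_zpow])
      rw [← h3, Fintype.prod_prod_type, Finset.prod_comm]
      apply Finset.prod_eq_one
      intro w _
      simp only
      rw [Finset.prod_zpow, ← map_prod]
      have h4 : ∏ u, l u w = 1 := by
        have h5 : ∏ u, l u w = ∏ u, (l w u)⁻¹ := Finset.prod_congr rfl fun u _ => h.eq_inv w u
        rw [h5, Finset.prod_inv_distrib, h.prod w, inv_one]
      rw [h4, map_one, one_zpow]
    · -- the pairs of value one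
      have hsub : ∏ p ∈ Finset.univ.filter (fun p : V × V => v (l p.1 p.2) = 1), F p =
          ∏ p ∈ Finset.univ.filter (fun p : V × V => G.Adj p.1 p.2 ∧ v (l p.1 p.2) = 1),
            (lev v l p.1 p.2 * lev v l p.1 p.2) ^ a p.1 := by
        rw [Finset.prod_filter, Finset.prod_filter]
        apply Finset.prod_congr rfl
        intro p _
        by_cases h2 : v (l p.1 p.2) = 1
        · obtain ⟨k1, k2⟩ := h.lev_one v h2
          by_cases h3 : G.Adj p.1 p.2
          · rw [if_pos h2, if_pos ⟨h3, h2⟩]
            simp only [F]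
            rw [if_pos h3, k1, k2]
          · rw [if_pos h2, if_neg fun hh => h3 hh.1]
            simp only [F]
            rw [if_neg h3]
        · rw [if_neg h2, if_neg fun hh => h2 hh.2]
      rw [hsub, ← Finset.prod_fiberwise_of_maps_to (t := tvals G v l)
        (g := fun p => lev v l p.1 p.2) (fun p hp => by
          unfold tvals
          exact Finset.mem_image_of_mem (fun p : V × V => lev v l p.1 p.2)
            (Finset.mem_filter.2 ⟨Finset.mem_univ _, (Finset.mem_filter.1 hp).2.1⟩))]
      apply Finset.prod_eq_one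
      intro g hg
      have hg0 : g ≠ 0 := by
        obtain ⟨q, hq, rfl⟩ := Finset.mem_image.1 hg
        have h1 := (Finset.mem_filter.1 hq).2
        refine (lt_min ?_ ?_).ne'
        · exact zero_lt_iff.2 ((Valuation.ne_zero_iff v).2 (sub_ne_zero.2 (hne _ _ h1)))
        · exact zero_lt_iff.2 ((Valuation.ne_zero_iff v).2 (sub_ne_zero.2 (hne _ _ h1.symm)))
      have h2 : ∏ p ∈ (Finset.univ.filter (fun p : V × V => G.Adj p.1 p.2 ∧
          v (l p.1 p.2) = 1)).filter (fun p => lev v l p.1 p.2 = g),
          (lev v l p.1 p.2 * lev v l p.1 p.2) ^ a p.1 =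
          ∏ p ∈ (Finset.univ.filter (fun p : V × V => G.Adj p.1 p.2 ∧
          v (l p.1 p.2) = 1)).filter (fun p => lev v l p.1 p.2 = g), (g * g) ^ a p.1 := by
        apply Finset.prod_congr rfl
        intro p hp
        rw [(Finset.mem_filter.1 hp).2]
      have h3 : ∀ s : Finset (V × V), ∏ p ∈ s, (g * g) ^ a p.1 = (g * g) ^ ∑ p ∈ s, a p.1 := by
        intro s
        induction s using Finset.induction_on with
        | empty => simp
        | insert p s hp ih =>
          rw [Finset.prod_insert hp, Finset.sum_insert hp, ih, zpow_add₀ (mul_ne_zero hg0 hg0)]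
      rw [h2, h3]
      have h4 : ∑ p ∈ (Finset.univ.filter (fun p : V × V => G.Adj p.1 p.2 ∧
          v (l p.1 p.2) = 1)).filter (fun p => lev v l p.1 p.2 = g), a p.1 = 0 := by
        have h5 : ((∑ p ∈ (Finset.univ.filter (fun p : V × V => G.Adj p.1 p.2 ∧
            v (l p.1 p.2) = 1)).filter (fun p => lev v l p.1 p.2 = g), a p.1 : ℤ) : ℚ) =
            k * tlf G v l g y := by
          rw [Int.cast_sum, Finset.filter_filter, Finset.sum_filter, Fintype.sum_prod_type,
            tlf_apply, Finset.mul_sum]
          apply Finset.sum_congr rfl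
          intro u _
          rw [Finset.mul_sum]
          apply Finset.sum_congr rfl
          intro w _
          rw [mul_ite, mul_zero, ha u]
          apply if_congr _ rfl rfl
          tauto
        rw [hy g hg, mul_zero] at h5
        exact_mod_cast h5
      rw [h4, zpow_zero]
  funext u
  have h1 := ha u
  rw [h0] at h1
  have h2 : (k : ℚ) ≠ 0 := by exact_mod_cast hk
  have h3 : (k : ℚ) * y u = 0 := by rw [← h1]; simp
  exact (mul_eq_zero.1 h3).resolve_left h2

/-- From algebraic independence to an orientation. -/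
theorem tgood (G : SimpleGraph V) {L : Type} [Field L] [Algebra ℚ L] (l : V → V → L)
    (h : MultCirc G l) (hne : ∀ a b, G.Adj a b → l a b ≠ 1)
    (hψ : AlgebraicIndependent ℚ (tpsi G l)) : Good G ⊤ := by
  obtain ⟨B, hB⟩ := exists_valuation hψ
  let v := B.valuation
  have hker := tkernel h v hne hB
  -- the orientation of the edges of value different from one
  let D : V → V → Prop := fun a b => G.Adj a b ∧ 1 < v (l a b)
  have hD1 : IsOrientation (bg G v l h) D := by
    refine ⟨fun a b hab => ⟨hab.1, hab.2.ne'⟩, fun a b hab => ⟨fun h1 h2 => ?_, fun h1 => ?_⟩⟩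
    · exact lt_asymm (h.v_gt v h1.2).1 h2.2
    · refine ⟨hab.1, ?_⟩
      by_contra hcon
      apply h1
      refine ⟨hab.1.symm, ?_⟩
      have h2 : v (l a b) < 1 := lt_of_le_of_ne (not_lt.1 hcon) hab.2
      by_contra hcon2
      push Not at hcon2
      have h4 : v (l a b) * v (l b a) < 1 := by
        calc v (l a b) * v (l b a) ≤ v (l a b) * 1 := by gcongr
          _ = v (l a b) := mul_one _
          _ < 1 := h2
      rw [h.v_inv v a b] at h4
      exact lt_irrefl _ h4
  have hD2 : CutCyclic D := by
    rintro X ⟨a, ha, b, hb, hab⟩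
    by_contra hcon
    push Not at hcon
    have h1 := h.cut X
    have h2 := congrArg v h1
    rw [map_prod, map_one] at h2
    have hmem : (a, b) ∈ Finset.univ.filter (fun p : V × V => p.1 ∈ X ∧ p.2 ∉ X) :=
      Finset.mem_filter.2 ⟨Finset.mem_univ _, ha, hb⟩
    have h3 : ∀ p ∈ Finset.univ.filter (fun p : V × V => p.1 ∈ X ∧ p.2 ∉ X),
        1 ≤ v (l p.1 p.2) := by
      intro p hp
      obtain ⟨-, hp1, hp2⟩ := Finset.mem_filter.1 hp
      by_contra hlt
      push Not at hlt
      have hadj : G.Adj p.1 p.2 := by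
        by_contra hcon3
        rw [h.out _ _ hcon3, map_one] at hlt
        exact lt_irrefl _ hlt
      apply hcon p.2 hp2 p.1 hp1
      refine ⟨hadj.symm, ?_⟩
      by_contra hcon2
      push Not at hcon2
      have h4 : v (l p.1 p.2) * v (l p.2 p.1) < 1 := by
        calc v (l p.1 p.2) * v (l p.2 p.1) ≤ v (l p.1 p.2) * 1 := by gcongr
          _ = v (l p.1 p.2) := mul_one _
          _ < 1 := hlt
      rw [h.v_inv v _ _] at h4
      exact lt_irrefl _ h4
    rw [← Finset.mul_prod_erase _ _ hmem] at h2
    have h4 : 1 ≤ ∏ p ∈ (Finset.univ.filter (fun p : V × V => p.1 ∈ X ∧ p.2 ∉ X)).erase (a, b),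
        v (l p.1 p.2) := by
      have h5 : ∀ s : Finset (V × V), (∀ p ∈ s, 1 ≤ v (l p.1 p.2)) →
          1 ≤ ∏ p ∈ s, v (l p.1 p.2) := by
        intro s
        induction s using Finset.induction_on with
        | empty => intro _; rw [Finset.prod_empty]
        | insert p s hp ih =>
          intro hs
          rw [Finset.prod_insert hp]
          have h6 := hs p (Finset.mem_insert_self _ _)
          have h7 := ih fun q hq => hs q (Finset.mem_insert_of_mem hq)
          calc (1 : _) = 1 * 1 := (mul_one 1).symm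
            _ ≤ v (l p.1 p.2) * ∏ p ∈ s, v (l p.1 p.2) := by gcongr
      exact h5 _ fun p hp => h3 p (Finset.mem_of_mem_erase hp)
    have h5 : 1 < v (l a b) * ∏ p ∈ (Finset.univ.filter
        (fun p : V × V => p.1 ∈ X ∧ p.2 ∉ X)).erase (a, b), v (l p.1 p.2) := by
      calc (1 : _) < v (l a b) := hab.2
        _ = v (l a b) * 1 := (mul_one _).symm
        _ ≤ _ := by gcongr
    have h6 : v (l a b) * ∏ p ∈ (Finset.univ.filter
        (fun p : V × V => p.1 ∈ X ∧ p.2 ∉ X)).erase (a, b), v (l p.1 p.2) = 1 := h2
    rw [h6] at h5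
    exact lt_irrefl _ h5
  have hlev := tgood_levels h v hne D hD1 hD2 (fun y hy p hp => hker y hy p hp)
  by_cases hemp : tvals G v l = ∅
  · -- no edges
    have hnoadj : ∀ a b, ¬ G.Adj a b := by
      intro a b hab
      have : lev v l a b ∈ tvals G v l :=
        Finset.mem_image.2 ⟨(a, b), Finset.mem_filter.2 ⟨Finset.mem_univ _, hab⟩, rfl⟩
      rw [hemp] at this
      exact absurd this (Finset.notMem_empty _)
    refine ⟨fun _ _ => False, ⟨fun _ _ h => h.elim, fun u w h => absurd h (hnoadj u w)⟩, ?_, ?_⟩
    · rintro X ⟨u, _, w, _, h⟩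
      exact h.elim
    · intro y _ p _
      apply hker y _ p
      · intro a b hab
        exact absurd hab.1 (hnoadj a b)
      · rw [hemp]
        intro g hg
        exact absurd hg (Finset.notMem_empty _)
  · have hne' := Finset.nonempty_iff_ne_empty.2 hemp
    have hmin := Finset.min'_mem _ hne'
    have h5 := hlev _ _ hmin rfl
    have h6 : tg G v l ((tvals G v l).min' hne') = G := by
      ext a b
      constructor
      · exact fun h => h.1
      · intro hab
        exact ⟨hab, Finset.min'_le _ _
          (Finset.mem_image.2 ⟨(a, b), Finset.mem_filter.2 ⟨Finset.mem_univ _, hab⟩, rfl⟩)⟩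
    have h7 : tnl G v l ((tvals G v l).min' hne') = ⊤ := by
      rw [eq_top_iff]
      intro y _
      rw [mem_tnl]
      intro g' hg' hlt
      exact absurd (Finset.min'_le _ _ hg') (not_le.2 hlt)
    rw [h6, h7] at h5
    exact h5

end Pool.Agent.SAO
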