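import Pool.Agent.SAO.TGen

/-!
# Rigid multiplicative circulations over arbitrary fields
-/

set_option autoImplicit false

namespace Pool.Agent.SAO

open Classical

variable {V : Type} [Fintype V]

theorem good_of_rigid_field {G : SimpleGraph V} (hG : G.Connected) (hb : Bridgeless G)
    {K : Type} [Field K] (l : V → V → K) (h : MultCirc G l) (hr : Rigid G l) : Good G ⊤ := by
  obtain ⟨r⟩ := hG.nonempty
  obtain ⟨p, hp⟩ := CharP.exists K
  rcases CharP.char_is_prime_or_zero K p with hpp | hp0
  · have : Fact p.Prime := ⟨hpp⟩
    let L := FractionRing (WittVector p K)
    let ι : WittVector p K →+* L := algebraMap (WittVector p K) L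
    have hι : Function.Injective ι := IsFractionRing.injective (WittVector p K) L
    have hc : ∀ x : K, WittVector.constantCoeff (WittVector.teichmuller p x) = x := by
      intro x
      exact WittVector.teichmuller_coeff_zero p x
    have hchar : CharZero L := by
      obtain ⟨q, hq⟩ := CharP.exists L
      rcases CharP.char_is_prime_or_zero L q with hqp | hq0
      · exfalso
        have h1 : (q : L) = 0 := CharP.cast_eq_zero L q
        have h2 : (q : WittVector p K) = 0 := hι (by rw [map_natCast, map_zero]; exact h1)
        have h3 : (q : K) = 0 := by
          have := congrArg (WittVector.constantCoeff : WittVector p K →+* K) h2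
          rw [map_natCast, map_zero] at this
          exact this
        have h4 : p ∣ q := (CharP.cast_eq_zero_iff K p q).1 h3
        have h5 : p = q := (Nat.prime_dvd_prime_iff_eq hpp hqp).1 h4
        subst h5
        exact WittVector.p_nonzero p K h2
      · subst hq0
        exact CharP.charP_to_charZero L
    let l' : V → V → L := fun u v => ι (WittVector.teichmuller p (l u v))
    have hl' : MultCirc G l' := by
      refine ⟨fun u v => ?_, fun u v huv => ?_, fun u => ?_⟩
      · simp only [l']
        rw [← map_mul, ← map_mul, h.inv u v, map_one, map_one]
      · simp only [l']
        rw [h.out u v huv, map_one, map_one]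
      · simp only [l']
        rw [← map_prod, ← map_prod, h.prod u, map_one, map_one]
    have hrl : Rigid G l' := by
      apply rigid_of_spec (A := WittVector p K) (k := K) (L := L) r WittVector.constantCoeff
        (fun x => ⟨WittVector.teichmuller p x, hc x⟩)
        (fun u v => WittVector.teichmuller p (l u v)) (fun _ _ => 1) l' l _ _ _ hr
      · intro u v
        rw [map_one, mul_one]
      · intro u v
        rw [map_one, mul_one]
        exact hc _
      · intro u v
        rw [map_one]
        exact one_ne_zero
    have : Algebra ℚ L := DivisionRing.toRatAlgebra
    exact good_of_rigid hG hb l' hl' hrl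
  · subst hp0
    have : CharZero K := CharP.charP_to_charZero K
    have : Algebra ℚ K := DivisionRing.toRatAlgebra
    exact good_of_rigid hG hb l h hr

end Pool.Agent.SAO
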