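import Pool.Agent.SAO.Chain

/-!
# A valuation which is injective on the monomials in algebraically independent elements
-/

set_option autoImplicit false

namespace Pool.Agent.SAO

open Classical MvPolynomial

section

variable {V : Type} [Fintype V] {K : Type} [Field K] [Algebra ℚ K]

/-- the weight of an exponent -/
noncomputable def wt (ω : V → ℝ) (m : V →₀ ℕ) : ℝ := ∑ v, (m v : ℝ) * ω v

theorem wt_add (ω : V → ℝ) (m n : V →₀ ℕ) : wt ω (m + n) = wt ω m + wt ω n := by
  unfold wt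
  rw [← Finset.sum_add_distrib]
  apply Finset.sum_congr rfl
  intro v _
  rw [Finsupp.add_apply]
  push_cast
  ring

theorem wt_zero (ω : V → ℝ) : wt ω (0 : V →₀ ℕ) = 0 := by
  unfold wt
  simp

/-- `z` is a quotient of a polynomial by a monomial of smaller or equal weight -/
def Q0 (φ : V → K) (ω : V → ℝ) (z : K) : Prop :=
  ∃ (b : V →₀ ℕ) (F : MvPolynomial V ℚ), z * aeval φ (monomial b (1 : ℚ)) = aeval φ F ∧
    ∀ m ∈ F.support, wt ω b ≤ wt ω m

/-- `z` is a quotient of a polynomial by a monomial of smaller weight -/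
def Q1 (φ : V → K) (ω : V → ℝ) (z : K) : Prop :=
  ∃ (b : V →₀ ℕ) (F : MvPolynomial V ℚ), z * aeval φ (monomial b (1 : ℚ)) = aeval φ F ∧
    ∀ m ∈ F.support, wt ω b < wt ω m

theorem mono_mul (φ : V → K) (b c : V →₀ ℕ) : aeval φ (monomial (b + c) (1 : ℚ)) =
    aeval φ (monomial b (1 : ℚ)) * aeval φ (monomial c (1 : ℚ)) := by
  rw [← map_mul, monomial_mul, one_mul]

theorem Q0.add {φ : V → K} {ω : V → ℝ} {z w : K} (hz : Q0 φ ω z) (hw : Q0 φ ω w) :
    Q0 φ ω (z + w) := by
  obtain ⟨b, F, h1, h2⟩ := hz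
  obtain ⟨c, G, h3, h4⟩ := hw
  refine ⟨b + c, monomial c 1 * F + monomial b 1 * G, ?_, ?_⟩
  · rw [mono_mul, map_add, map_mul, map_mul, ← h1, ← h3]; ring
  · intro m hm
    rw [wt_add]
    rcases Finset.mem_union.1 (support_add hm) with hm | hm
    · obtain ⟨m1, k1, m2, k2, rfl⟩ := Finset.mem_add.1 (support_mul _ _ hm)
      have := Finset.mem_singleton.1 (support_monomial_subset k1)
      rw [this, wt_add]
      linarith [h2 m2 k2]
    · obtain ⟨m1, k1, m2, k2, rfl⟩ := Finset.mem_add.1 (support_mul _ _ hm)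
      have := Finset.mem_singleton.1 (support_monomial_subset k1)
      rw [this, wt_add]
      linarith [h4 m2 k2]

theorem Q1.add {φ : V → K} {ω : V → ℝ} {z w : K} (hz : Q1 φ ω z) (hw : Q1 φ ω w) :
    Q1 φ ω (z + w) := by
  obtain ⟨b, F, h1, h2⟩ := hz
  obtain ⟨c, G, h3, h4⟩ := hw
  refine ⟨b + c, monomial c 1 * F + monomial b 1 * G, ?_, ?_⟩
  · rw [mono_mul, map_add, map_mul, map_mul, ← h1, ← h3]; ring
  · intro m hm
    rw [wt_add]
    rcases Finset.mem_union.1 (support_add hm) with hm | hm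
    · obtain ⟨m1, k1, m2, k2, rfl⟩ := Finset.mem_add.1 (support_mul _ _ hm)
      have := Finset.mem_singleton.1 (support_monomial_subset k1)
      rw [this, wt_add]
      linarith [h2 m2 k2]
    · obtain ⟨m1, k1, m2, k2, rfl⟩ := Finset.mem_add.1 (support_mul _ _ hm)
      have := Finset.mem_singleton.1 (support_monomial_subset k1)
      rw [this, wt_add]
      linarith [h4 m2 k2]

theorem Q0.mul {φ : V → K} {ω : V → ℝ} {z w : K} (hz : Q0 φ ω z) (hw : Q0 φ ω w) :
    Q0 φ ω (z * w) := by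
  obtain ⟨b, F, h1, h2⟩ := hz
  obtain ⟨c, G, h3, h4⟩ := hw
  refine ⟨b + c, F * G, ?_, ?_⟩
  · rw [mono_mul, map_mul, ← h1, ← h3]; ring
  · intro m hm
    rw [wt_add]
    obtain ⟨m1, k1, m2, k2, rfl⟩ := Finset.mem_add.1 (support_mul _ _ hm)
    rw [wt_add]
    linarith [h2 m1 k1, h4 m2 k2]

theorem Q1.mul {φ : V → K} {ω : V → ℝ} {z w : K} (hz : Q0 φ ω z) (hw : Q1 φ ω w) :
    Q1 φ ω (z * w) := by
  obtain ⟨b, F, h1, h2⟩ := hz
  obtain ⟨c, G, h3, h4⟩ := hw
  refine ⟨b + c, F * G, ?_, ?_⟩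
  · rw [mono_mul, map_mul, ← h1, ← h3]; ring
  · intro m hm
    rw [wt_add]
    obtain ⟨m1, k1, m2, k2, rfl⟩ := Finset.mem_add.1 (support_mul _ _ hm)
    rw [wt_add]
    linarith [h2 m1 k1, h4 m2 k2]

/-- the subring -/
def subR (φ : V → K) (ω : V → ℝ) : Subring K where
  carrier := {z | Q0 φ ω z}
  mul_mem' := Q0.mul
  one_mem' := ⟨0, 1, by simp, fun m hm => by
    have h1 : m ∈ (monomial (0 : V →₀ ℕ) (1 : ℚ)).support := hm
    rw [Finset.mem_singleton.1 (support_monomial_subset h1)]⟩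
  add_mem' := Q0.add
  zero_mem' := ⟨0, 0, by simp, by simp⟩
  neg_mem' := by
    rintro z ⟨b, F, h1, h2⟩
    refine ⟨b, -F, by rw [map_neg, ← h1]; ring, fun m hm => h2 m ?_⟩
    rwa [support_neg] at hm

/-- the ideal -/
def idl (φ : V → K) (ω : V → ℝ) : Ideal (subR φ ω) where
  carrier := {z | Q1 φ ω z}
  add_mem' := Q1.add
  zero_mem' := ⟨0, 0, by simp, by simp⟩
  smul_mem' c z hz := Q1.mul c.2 hz

theorem idl_ne_top {φ : V → K} (hφ : AlgebraicIndependent ℚ φ) (ω : V → ℝ) : idl φ ω ≠ ⊤ := by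
  rw [Ne, Ideal.eq_top_iff_one]
  rintro ⟨b, F, h1, h2⟩
  have h3 : aeval φ (monomial b (1 : ℚ)) = aeval φ F := by
    rw [← h1]
    simp
  have h4 := hφ h3
  have h5 : b ∈ F.support := by
    rw [← h4, mem_support_iff, coeff_monomial, if_pos rfl]
    exact one_ne_zero
  exact lt_irrefl _ (h2 b h5)

/-- the Laurent monomial -/
noncomputable def mon (φ : V → K) (a : V → ℤ) : K := ∏ v, φ v ^ a v

theorem mon_Q1 {φ : V → K} (hφ : ∀ v, φ v ≠ 0) (ω : V → ℝ) (a : V → ℤ)
    (ha : 0 < ∑ v, (a v : ℝ) * ω v) : Q1 φ ω (mon φ a) := by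
  let b : V →₀ ℕ := Finsupp.equivFunOnFinite.symm fun v => (- a v).toNat
  let c : V →₀ ℕ := Finsupp.equivFunOnFinite.symm fun v => (a v).toNat
  have hb : ∀ v, b v = (- a v).toNat := fun v => rfl
  have hc : ∀ v, c v = (a v).toNat := fun v => rfl
  have hmono : ∀ d : V →₀ ℕ, aeval φ (monomial d (1 : ℚ)) = ∏ v, φ v ^ (d v : ℤ) := by
    intro d
    rw [aeval_monomial, map_one, one_mul, Finsupp.prod_fintype]
    · apply Finset.prod_congr rfl
      intro v _
      rw [zpow_natCast]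
    · intro v
      exact pow_zero _
  refine ⟨b, monomial c 1, ?_, ?_⟩
  · rw [hmono, hmono]
    unfold mon
    rw [← Finset.prod_mul_distrib]
    apply Finset.prod_congr rfl
    intro v _
    rw [← zpow_add₀ (hφ v), hb, hc]
    congr 1
    omega
  · intro m hm
    rw [Finset.mem_singleton.1 (support_monomial_subset hm)]
    have h1 : wt ω c - wt ω b = ∑ v, (a v : ℝ) * ω v := by
      unfold wt
      rw [← Finset.sum_sub_distrib]
      apply Finset.sum_congr rfl
      intro v _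
      rw [hb, hc, ← sub_mul]
      congr 1
      have h2 : (((a v).toNat : ℤ) - ((- a v).toNat : ℤ)) = a v := by omega
      calc (((a v).toNat : ℕ) : ℝ) - (((- a v).toNat : ℕ) : ℝ)
          = ((((a v).toNat : ℤ) - ((- a v).toNat : ℤ) : ℤ) : ℝ) := by push_cast; rfl
        _ = (a v : ℝ) := by rw [h2]
    linarith

theorem exists_omega : ∃ ω : V → ℝ, ∀ a : V → ℤ, ∑ v, (a v : ℝ) * ω v = 0 → a = 0 := by
  have h1 : ((Fintype.card V : ℕ) : Cardinal) ≤ Module.rank ℚ ℝ := by
    rw [Real.rank_rat_real]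
    exact (Cardinal.natCast_lt_aleph0.le).trans Cardinal.aleph0_le_continuum
  obtain ⟨v, hv⟩ := exists_linearIndependent_of_le_rank h1
  let e := Fintype.equivFin V
  refine ⟨fun u => v (e u), fun a ha => ?_⟩
  have h2 := hv.comp e e.injective
  rw [Fintype.linearIndependent_iff] at h2
  have h3 := h2 (fun u => (a u : ℚ)) (by
    rw [← ha]
    apply Finset.sum_congr rfl
    intro u _
    rw [Rat.smul_def, Function.comp_apply]
    push_cast
    rfl)
  funext u
  have := h3 u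
  exact_mod_cast this

/-- A valuation for which no nontrivial Laurent monomial has value one. -/
theorem exists_valuation {φ : V → K} (hφ : AlgebraicIndependent ℚ φ) : ∃ B : ValuationSubring K,
    ∀ a : V → ℤ, B.valuation (mon φ a) = 1 → a = 0 := by
  obtain ⟨ω, hω⟩ := exists_omega (V := V)
  obtain ⟨B, -, hB⟩ := Ideal.image_subset_nonunits_valuationSubring (idl φ ω)
    (idl_ne_top hφ ω)
  have hne : ∀ v, φ v ≠ 0 := fun v => hφ.ne_zero v
  have hlt : ∀ a : V → ℤ, 0 < ∑ v, (a v : ℝ) * ω v → B.valuation (mon φ a) < 1 := by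
    intro a ha
    rw [← ValuationSubring.mem_nonunits_iff]
    apply hB
    have h1 := mon_Q1 hne ω a ha
    have h0 : Q0 φ ω (mon φ a) := by
      obtain ⟨b, F, k1, k2⟩ := h1
      exact ⟨b, F, k1, fun m hm => (k2 m hm).le⟩
    exact ⟨⟨mon φ a, h0⟩, h1, rfl⟩
  refine ⟨B, fun a ha => ?_⟩
  rcases lt_trichotomy (∑ v, (a v : ℝ) * ω v) 0 with h1 | h1 | h1
  · exfalso
    have h2 := hlt (- a) (by
      have : ∑ v, (((- a) v : ℤ) : ℝ) * ω v = - ∑ v, (a v : ℝ) * ω v := by
        rw [← Finset.sum_neg_distrib]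
        apply Finset.sum_congr rfl
        intro v _
        rw [Pi.neg_apply]
        push_cast
        ring
      rw [this]
      linarith)
    have h3 : mon φ (- a) = (mon φ a)⁻¹ := by
      unfold mon
      rw [← Finset.prod_inv_distrib]
      apply Finset.prod_congr rfl
      intro v _
      rw [Pi.neg_apply, zpow_neg]
    rw [h3, map_inv₀, ha, inv_one] at h2
    exact lt_irrefl _ h2
  · exact hω a h1
  · exfalso
    have h2 := hlt a h1
    rw [ha] at h2
    exact lt_irrefl _ h2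

end

end Pool.Agent.SAO
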